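import Pool.Agent.WHS.Defs

/-!
# Statements of the modules (notes 1592 and 1767, `PAPER.md`)
-/

namespace WHS

open WHP (V3 det be ga dot cross lin tt Sm NN B0)

/-! ### Adaptations of `WHP` -/

/-- CLAIM1: nonzero determinants. -/
def Claim1 : Prop := ∀ (i : ℕ) (x y v : V3) (b : ℝ), St i x y b → v ≠ 0 →
  |(v.a : ℝ)| * (det y : ℝ) ^ 2 < (y.a : ℝ) ^ 2 →
  |be (tt y) v| * |(det y : ℝ)| ≤ 1 / b ^ 80 →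
  |ga (tt y) v| * (y.a : ℝ) ^ 2 ≤ b ^ 740 * (det y : ℝ) ^ 2 → det v ≠ 0

/-- LEM2: the property `BA` up to `Z` implies it up to `Z²`. -/
def Lem2 : Prop := ∀ (z : V3) (c : ℝ), 0 < z.a → det z ≠ 0 → 0 ≤ tt z → tt z ≤ 1 →
  1 / 12 ≤ c → c ≤ 1 →
  |(det z : ℝ)| ^ 1000 ≤ (z.a : ℝ) → (10 : ℝ) ^ 1000 ≤ z.a →
  BA c (z.a : ℝ) (tt z) → BA c ((z.a : ℝ) ^ 2) (tt z)

/-- START: an initial state (from LEM2). -/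
def Start : Prop := ∃ x y b, St 0 x y b

/-- CAND: a candidate is a child (from LEM2). -/
def CandStep : Prop := ∀ (i : ℕ) (x y z : V3) (b : ℝ), St i x y b → Cand y z b →
  |(det z : ℝ)| ≤ 5 * b ^ 478 →
  ∃ bz : ℝ, Ch y z b bz ∧ B0 ≤ bz ∧ b ^ 1998 ≤ bz ^ 1000 ∧ bz ≤ b ^ 2 ∧
    1 / 4 + 1 / bz ≤ tt z ∧ tt z ≤ 3 / 4 - 1 / bz ∧
    BA (1 / 12 + 2 / bz) ((z.a : ℝ) ^ 2) (tt z) ∧ cross y z ≠ 0 ∧
    ∀ P : V3, Sm P (bz ^ 400000) → dot P z = 0 → dot P y = 0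

/-- FUL: the extra properties of the pair `(y,z)`. -/
def FulStep : Prop := ∀ (i : ℕ) (x y z : V3) (b bz : ℝ), St i x y b → Ch y z b bz →
  B0 ≤ bz → b ^ 1998 ≤ bz ^ 1000 → bz ≤ b ^ 2 → |(det z : ℝ)| ≤ 5 * b ^ 478 → Ful y z bz

/-! ### The geometric step -/

/-- the family alternative -/
def Fam (y : V3) (b : ℝ) : Prop := ∃ (v w : V3) (l0 : ℤ), cross v w ≠ 0 ∧
  |(be (tt y) v) * (ga (tt y) w) - (ga (tt y) v) * (be (tt y) w)| * (y.a : ℝ) ^ 2 ≤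
    2 * b ^ 391 * |(det y : ℝ)| ∧
  |(v.a : ℝ) * ga (tt y) w - ga (tt y) v * w.a| ≤ 2 * b ^ 478 ∧
  ∀ l : ℤ, l0 ≤ l → (l : ℝ) ≤ l0 + b ^ 11 / 4 →
    Cand y (lin l v 1 w) b ∧ |(det (lin l v 1 w) : ℝ)| ≤ 5 * b ^ 478

/-- the one child alternative -/
def One (i : ℕ) (y : V3) (b : ℝ) : Prop :=
  ∃ z : V3, Cand y z b ∧ i < 6 ∧ |(det z : ℝ)| * b ^ 80 ≤ (det y : ℝ) ^ 2

/-- GEO: for a state, one child or a family (from the modules below). -/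
def GeoStep : Prop := ∀ (i : ℕ) (x y : V3) (b : ℝ), St i x y b → One i y b ∨ Fam y b

/-- PAIR: minimal vectors. -/
def Pair : Prop := ∀ (i : ℕ) (x y : V3) (b : ℝ), St i x y b →
  ∃ v : V3, v ≠ 0 ∧ 0 ≤ v.a ∧ (∀ u : V3, u ≠ 0 → nu b y v ≤ nu b y u) ∧
    nu b y v * b ^ 11 ≤ 1 ∧ (∃ Q : V3, dot Q v = 1) ∧
    ((∀ u : V3, nu b y u ≤ 1 → cross v u = 0) ∨
      ∃ w : V3, cross v w ≠ 0 ∧ nu b y w ≤ 1 ∧
        (∀ u : V3, cross v u ≠ 0 → nu b y w ≤ nu b y u) ∧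
        ∃ (n : ℤ) (u : V3), 1 ≤ n ∧ n ≤ 2 ∧ dot (cross v w) u = n)

/-- CASEA: all vectors in `K` are parallel (from CLAIM1). -/
def CaseA : Prop := ∀ (i : ℕ) (x y v : V3) (b : ℝ), St i x y b → v ≠ 0 → 0 ≤ v.a →
  (∃ Q : V3, dot Q v = 1) → (∀ u : V3, nu b y u ≤ 1 → cross v u = 0) →
  (∀ u : V3, u ≠ 0 → nu b y v ≤ nu b y u) → nu b y v * b ^ 11 ≤ 1 → One i y b

/-- FAM: a family (from CLAIM1). -/
def FamLem : Prop := ∀ (i : ℕ) (x y v w : V3) (b : ℝ) (l0 : ℤ), St i x y b → 0 ≤ v.a →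
  cross v w ≠ 0 → nu b y v ≤ 1 → nu b y w ≤ 1 → 0 ≤ l0 →
  ((l0 : ℝ) + b ^ 11 / 4) * nu b y v ≤ 1 → 3 / b ^ 134 ≤ cV y w + l0 * cV y v → Fam y b

/-- RED: the reduced pair in case (c) (from CLAIM1). -/
def Red : Prop := ∀ (i : ℕ) (x y v w : V3) (b : ℝ), St i x y b → v ≠ 0 → 0 ≤ v.a →
  (∀ u : V3, u ≠ 0 → nu b y v ≤ nu b y u) → nu b y v * b ^ 11 ≤ 1 →
  cross v w ≠ 0 → nu b y w ≤ 1 → (∀ u : V3, cross v u ≠ 0 → nu b y w ≤ nu b y u) →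
  (∀ u : V3, nu b y u ≤ 1 → cross v u ≠ 0 → |cV y u| < 3 / b ^ 134) →
  (∀ j : ℕ, (j : ℝ) * nu b y v ≤ 1 → (j : ℝ) * cV y v < 12 / b ^ 134) →
  b ^ 44 / 64 ≤ a2 y v w ∧
    ∃ p q : ℝ, |p| ≤ 60 / b ^ 44 ∧ |q| ≤ 60 / b ^ 615 ∧
      cV y v = p * cx y v + q * cc y v ∧ cV y w = p * cx y w + q * cc y w

/-- AREA: upper bound for `a2` in case (c). -/
def Area : Prop := ∀ (i : ℕ) (x y v w u : V3) (b p q : ℝ) (n : ℤ), St i x y b →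
  nu b y v ≤ 1 → nu b y w ≤ 1 →
  (∀ u : V3, nu b y u ≤ 1 → cross v u ≠ 0 → |cV y u| < 3 / b ^ 134) →
  0 < a2 y v w → |p| ≤ 60 / b ^ 44 → |q| ≤ 60 / b ^ 615 →
  cV y v = p * cx y v + q * cc y v → cV y w = p * cx y w + q * cc y w →
  1 ≤ n → n ≤ 2 → dot (cross v w) u = n → a2 y v w ≤ 16 * b ^ 3 * |(det y : ℝ)|

/-- DIR: the child in case (c) (from CLAIM1). -/
def Dir : Prop := ∀ (i : ℕ) (x y : V3) (b p q A : ℝ), St i x y b →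
  |p| ≤ 60 / b ^ 44 → |q| ≤ 60 / b ^ 615 → b ^ 44 / 64 ≤ A → A ≤ 16 * b ^ 3 * |(det y : ℝ)| →
  (∀ z : V3, cV y z = p * cx y z + q * cc y z ∨
    |(det y : ℝ)| / A ≤ |cV y z - p * cx y z - q * cc y z|) → One i y b

/-! ### The tree -/

/-- ONE: from candidates to states (from GEO, CAND, FUL). -/
def OneStep : Prop := ∀ (i : ℕ) (x y : V3) (b : ℝ), St i x y b →
  (∃ z bz, St (i + 1) y z bz ∧ Ful y z bz ∧ Ch y z b bz) ∨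
  (∃ F : Finset V3, b ^ 10 ≤ F.card ∧
    (∀ z ∈ F, ∃ bz, St 0 y z bz ∧ Ful y z bz ∧ Ch y z b bz) ∧
    ∀ z ∈ F, ∀ z' ∈ F, z ≠ z' → 1 ≤ |tt z - tt z'| * (y.a : ℝ) ^ 3 * b ^ 1000)

/-- START2: an initial state with the extra properties (from START, ONE). -/
def Start2 : Prop := ∃ x y b, St 0 x y b ∧ Ful x y b

/-- PIG: pigeonhole for the polynomials orthogonal to `y`. -/
def Pig : Prop := ∀ (i : ℕ) (x y : V3) (b ξ u : ℝ) (M : ℕ), St i x y b →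
  |ξ - tt y| ≤ u → |(det y : ℝ)| ≤ u * (y.a : ℝ) ^ 2 → 0 < u → u ≤ 1 / 1000 →
  (y.a : ℝ) ≤ (M : ℝ) ^ 2 →
  ∃ P : V3, P ≠ 0 ∧ dot P y = 0 ∧ hh P ≤ 2 * M ∧ |ev P ξ| * M ≤ 8 * u * y.a

/-- DIST: metric facts on a child. -/
def Dist : Prop := ∀ (i j : ℕ) (x y z : V3) (b bz : ℝ), St i x y b → St j y z bz →
  Ch y z b bz →
  b ^ 1998 ≤ bz ^ 1000 ∧ b ≤ bz ∧ (y.a : ℝ) + 1 ≤ z.a ∧ II z bz ⊆ II y b ∧
    ∀ ξ ∈ II z bz,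
      |ξ - tt y| * (y.a : ℝ) ^ 2 * cV y z ≤ |(det y : ℝ)| * (|cx y z| + cV y z / 1000) ∧
      hh (cross y z) * |(det y : ℝ)| ≤ 4 * (y.a : ℝ) * max (|cx y z|) (cV y z)

/-- SRV1: small `H`. -/
def Srv1 : Prop := ∀ (i j : ℕ) (x y z : V3) (b bz ξ H : ℝ), St i x y b → Ful x y b →
  St j y z bz → Ch y z b bz → ξ ∈ II z bz → hh (cross x y) ≤ H → H ≤ b ^ 650000 → Good H ξ

/-- SRV2: large `H`. -/
def Srv2 : Prop := ∀ (i j : ℕ) (x y z : V3) (b bz ξ H : ℝ), St i x y b → Ful x y b →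
  St j y z bz → Ch y z b bz → ξ ∈ II z bz → b ^ 650000 ≤ H → H < hh (cross y z) → Good H ξ

/-- SERVE: one child step (from DIST, SRV1, SRV2). -/
def ServedStep : Prop := ∀ (i j : ℕ) (x y z : V3) (b bz : ℝ), St i x y b → Ful x y b →
  St j y z bz → Ch y z b bz → II z bz ⊆ II y b ∧ b ≤ bz ∧ (y.a : ℝ) + 1 ≤ z.a ∧
    ∀ ξ ∈ II z bz, Served (hh (cross x y)) (hh (cross y z)) ξ

/-- SUPER: the super-step (from ONE, SERVE). -/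
def Super : Prop := ∀ (x y : V3) (b : ℝ), St 0 x y b → Ful x y b →
  ∃ F : Finset (V3 × V3 × ℝ), b ^ 10 ≤ F.card ∧
  (∀ q ∈ F, St 0 q.1 q.2.1 q.2.2 ∧ Ful q.1 q.2.1 q.2.2 ∧ II q.2.1 q.2.2 ⊆ II y b ∧
    (y.a : ℝ) + 1 ≤ q.2.1.a ∧ (q.2.1.a : ℝ) ≤ (y.a : ℝ) ^ 128 ∧
    ∀ ξ ∈ II q.2.1 q.2.2, Served (hh (cross x y)) (hh (cross q.1 q.2.1)) ξ) ∧
  ∀ q ∈ F, ∀ q' ∈ F, q ≠ q' → ∀ ξ ∈ II q.2.1 q.2.2, ∀ ξ' ∈ II q'.2.1 q'.2.2,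
    1 ≤ |ξ - ξ'| * (y.a : ℝ) ^ 256

/-- FINAL: a set of positive dimension (from START2, SUPER and `WHP.TreeDim`). -/
def Final : Prop := ∃ E : Set ℝ, 0 < dimH E ∧ ∀ ξ ∈ E, ∃ H0 : ℝ, ∀ H : ℝ, H0 ≤ H → Good H ξ

/-- ROOT: a good polynomial has a near root. -/
def Root : Prop := ∀ (P : V3) (ξ : ℝ), der P ξ ≠ 0 → 8 * |(P.c : ℝ)| * |ev P ξ| ≤ der P ξ ^ 2 →
  ∃ α : ℝ, ev P α = 0 ∧ |ξ - α| * |der P ξ| ≤ 2 * |ev P ξ|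

end WHS
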