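import Pool.Agent.WHS.Stmts
import Pool.Agent.WHP.Box
import Pool.Agent.WHP.GeoA

/-!
# Case A: all vectors of the body are parallel
-/

namespace WHS

open WHP (V3 det be ga dot cross lin tt Sm NN B0)

namespace CASEA

theorem b1 {i x y b} (h : St i x y b) : (1 : ℝ) ≤ b := by
  have := h.hb0; norm_num [B0] at this; linarith

theorem b0 {i x y b} (h : St i x y b) : (0 : ℝ) < b := by
  have := b1 h; linarith

theorem big {i x y b} (h : St i x y b) : (1000 : ℝ) ≤ b := by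
  have := h.hb0; norm_num [B0] at this; linarith

theorem Ypos {i x y b} (h : St i x y b) : (0 : ℝ) < y.a := by
  rw [← h.hby]; exact pow_pos (b0 h) _

theorem d1 {i x y b} (h : St i x y b) : (1 : ℝ) ≤ |(det y : ℝ)| := by
  have := Int.one_le_abs h.hdet
  exact_mod_cast this

theorem d0 {i x y b} (h : St i x y b) : (0 : ℝ) < |(det y : ℝ)| := by
  have := d1 h; linarith

theorem d240 {i x y b} (h : St i x y b) : |(det y : ℝ)| ≤ b ^ 240 :=
  h.hd.trans (pow_le_pow_right₀ (b1 h) (by omega))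

theorem pw {i x y b} (h : St i x y b) {m n : ℕ} (hmn : m ≤ n) : b ^ m ≤ b ^ n :=
  pow_le_pow_right₀ (b1 h) hmn

/-- the box lemma in normalised coordinates -/
theorem nbox {i x y b} (h : St i x y b) {V0 x0 c0 : ℝ} (hx : 0 < x0)
    (hx1 : x0 ≤ 1) (hc : 0 < c0) (hc1 : c0 ≤ b ^ 481) (hp : 4 * |(det y : ℝ)| ≤ V0 * x0 * c0) :
    ∃ z : V3, z ≠ 0 ∧ |cV y z| ≤ V0 ∧ |cx y z| ≤ x0 ∧ |cc y z| ≤ c0 := by
  have hY := Ypos h
  have hd := d0 h
  have hd1 := d1 h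
  have hb := b0 h
  have e2 : (det y : ℝ) ^ 2 = |(det y : ℝ)| ^ 2 := (sq_abs _).symm
  have hY2 : b ^ 961 ≤ (y.a : ℝ) ^ 2 := by
    rw [← h.hby, ← pow_mul]
    exact pw h (by norm_num)
  have hd2 : |(det y : ℝ)| ^ 2 ≤ b ^ 480 := by
    calc |(det y : ℝ)| ^ 2 ≤ (b ^ 240) ^ 2 := pow_le_pow_left₀ hd.le (d240 h) 2
      _ = b ^ 480 := by rw [← pow_mul]
  obtain ⟨z, hz, h1, h2, h3⟩ := WHP.box (tt y) (V0 * (y.a : ℝ) ^ 2 / |(det y : ℝ)| ^ 2)
    (x0 / |(det y : ℝ)|) (c0 * |(det y : ℝ)| ^ 2 / (y.a : ℝ) ^ 2) (by positivity)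
    (by rw [div_le_one hd]; linarith) (by positivity)
    (by
      rw [div_le_one (by positivity)]
      calc c0 * |(det y : ℝ)| ^ 2 ≤ b ^ 481 * b ^ 480 := by gcongr
        _ = b ^ 961 := by rw [← pow_add]
        _ ≤ _ := hY2)
    (by
      have e : V0 * (y.a : ℝ) ^ 2 / |(det y : ℝ)| ^ 2 * (x0 / |(det y : ℝ)|) *
          (c0 * |(det y : ℝ)| ^ 2 / (y.a : ℝ) ^ 2) = V0 * x0 * c0 / |(det y : ℝ)| := by
        field_simp
      rw [e, le_div_iff₀ hd]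
      exact hp)
  refine ⟨z, hz, ?_, ?_, ?_⟩
  · rw [cV, e2, abs_div, abs_mul, abs_of_pos (by positivity : 0 < |(det y : ℝ)| ^ 2),
      abs_of_pos (by positivity : 0 < (y.a : ℝ) ^ 2), div_le_iff₀ (by positivity)]
    rw [le_div_iff₀ (by positivity)] at h1
    exact h1
  · rw [cx, abs_mul, abs_abs]
    rw [le_div_iff₀ hd] at h2
    exact h2
  · rw [cc, e2, abs_div, abs_mul, abs_of_pos (by positivity : 0 < |(det y : ℝ)| ^ 2),
      abs_of_pos (by positivity : 0 < (y.a : ℝ) ^ 2), div_le_iff₀ (by positivity)]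
    rw [le_div_iff₀ (by positivity)] at h3
    exact h3

/-- a vector of the body is a multiple of `v` -/
theorem mult {y v u : V3} (hQ : ∃ Q : V3, dot Q v = 1) (hc : cross v u = 0) (hu : u ≠ 0) :
    |cV y v| ≤ |cV y u| ∧ |cx y v| ≤ |cx y u| ∧ |cc y v| ≤ |cc y u| := by
  obtain ⟨Q, hQ⟩ := hQ
  have hcs : cross u v = 0 := by
    have h1 := congrArg V3.a hc
    have h2 := congrArg V3.b hc
    have h3 := congrArg V3.c hc
    simp only [cross, WHP.zero_a, WHP.zero_b, WHP.zero_c] at h1 h2 h3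
    ext
    · simp only [cross, WHP.zero_a]; linarith
    · simp only [cross, WHP.zero_b]; linarith
    · simp only [cross, WHP.zero_c]; linarith
  obtain ⟨j, hj⟩ := WHP.geo_par v u ⟨Q.a, Q.b, Q.c, hQ⟩ hcs
  have hj1 : (1 : ℝ) ≤ |(j : ℝ)| := by
    have : j ≠ 0 := by
      rintro rfl
      apply hu
      rw [hj]
      ext <;> simp [lin, WHP.zero_a, WHP.zero_b, WHP.zero_c]
    have := Int.one_le_abs this
    exact_mod_cast this
  have e1 : cV y u = j * cV y v := by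
    simp only [cV]; rw [hj, WHP.a_lin]; push_cast; ring
  have e2 : cx y u = j * cx y v := by
    simp only [cx]; rw [hj, WHP.be_lin]; push_cast; ring
  have e3 : cc y u = j * cc y v := by
    simp only [cc]; rw [hj, WHP.ga_lin]; push_cast; ring
  rw [e1, e2, e3, abs_mul, abs_mul, abs_mul]
  refine ⟨?_, ?_, ?_⟩ <;> exact le_mul_of_one_le_left (abs_nonneg _) hj1

theorem nu_le {b : ℝ} (hb : 0 < b) {y v : V3} (h1 : |cV y v| ≤ 1 / b ^ 3)
    (h2 : |cx y v| ≤ 1 / b ^ 90) (h3 : |cc y v| ≤ b ^ 481) : nu b y v ≤ 1 := by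
  rw [nu]
  refine max_le ?_ (max_le ?_ ?_)
  · rwa [le_div_iff₀ (by positivity)] at h1
  · rwa [le_div_iff₀ (by positivity)] at h2
  · rwa [div_le_one (by positivity)]

theorem det_norm {i x y b} (h : St i x y b) (v : V3) :
    (det v : ℝ) = cV y v * cc y v - cx y v ^ 2 / |(det y : ℝ)| ^ 2 := by
  have hY := Ypos h
  have hd := d0 h
  have e2 : (det y : ℝ) ^ 2 = |(det y : ℝ)| ^ 2 := (sq_abs _).symm
  rw [WHP.det_eq (tt y) v, cV, cc, cx, e2]
  field_simp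

end CASEA

open CASEA

/-- CASEA. -/
theorem CASEA_thm (hC : Claim1) : CaseA := by
  intro i x y v b h hv hva hQ hall _ _
  have hb := b0 h
  have hb1 := b1 h
  have hbig := big h
  have hY := Ypos h
  have hd := d0 h
  have hd1 := d1 h
  have hd240 := d240 h
  have e2 : (det y : ℝ) ^ 2 = |(det y : ℝ)| ^ 2 := (sq_abs _).symm
  generalize hdd : |(det y : ℝ)| = d at *
  -- the parameter
  obtain ⟨s, hs⟩ : ∃ s : ℝ, s = 4 * d / b ^ 388 := ⟨_, rfl⟩
  have hs0 : 0 < s := by rw [hs]; positivity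
  have hsb : s * b ^ 388 = 4 * d := by rw [hs]; field_simp
  have hs148 : s * b ^ 148 ≤ 4 := by
    have e : b ^ 388 = b ^ 240 * b ^ 148 := by rw [← pow_add]
    have h1 : s * b ^ 148 * b ^ 240 ≤ 4 * b ^ 240 := by
      calc s * b ^ 148 * b ^ 240 = s * b ^ 388 := by rw [e]; ring
        _ = 4 * d := hsb
        _ ≤ 4 * b ^ 240 := by gcongr
    exact le_of_mul_le_mul_right h1 (by positivity)
  have hb148 : (4 : ℝ) ≤ b ^ 148 := by
    have : b ^ 1 ≤ b ^ 148 := pw h (by norm_num)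
    rw [pow_one] at this; linarith
  have hs1 : s ≤ 1 := by
    have : s * 4 ≤ s * b ^ 148 := by gcongr
    linarith
  have hp3 : (0 : ℝ) < b ^ 3 := by positivity
  have hp90 : (0 : ℝ) < b ^ 90 := by positivity
  have hp481 : (0 : ℝ) < b ^ 481 := by positivity
  have e388 : b ^ 481 = b ^ 388 * (b ^ 3 * b ^ 90) := by rw [← pow_add, ← pow_add]
  have hx90 : 1 / b ^ 90 ≤ (1 : ℝ) := by
    rw [div_le_one hp90]; exact one_le_pow₀ hb1
  have hs90 : s / b ^ 90 ≤ 1 / b ^ 90 := by gcongr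
  have hs3 : s / b ^ 3 ≤ 1 / b ^ 3 := by gcongr
  have hs481 : s * b ^ 481 ≤ b ^ 481 := by
    calc s * b ^ 481 ≤ 1 * b ^ 481 := by gcongr
      _ = _ := one_mul _
  obtain ⟨z1, hz1, a1, a2, a3⟩ := nbox h (V0 := s / b ^ 3) (x0 := 1 / b ^ 90) (c0 := b ^ 481)
    (by positivity) hx90 hp481 le_rfl (by
      rw [hdd, e388, ← hsb]
      apply le_of_eq
      field_simp)
  obtain ⟨z2, hz2, c1, c2, c3⟩ := nbox h (V0 := 1 / b ^ 3) (x0 := s / b ^ 90) (c0 := b ^ 481)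
    (by positivity) (hs90.trans hx90) hp481 le_rfl (by
      rw [hdd, e388, ← hsb]
      apply le_of_eq
      field_simp)
  obtain ⟨z3, hz3, f1, f2, f3⟩ := nbox h (V0 := 1 / b ^ 3) (x0 := 1 / b ^ 90)
    (c0 := s * b ^ 481) (by positivity) hx90 (by positivity) hs481 (by
      rw [hdd, e388, ← hsb]
      apply le_of_eq
      field_simp)
  have v1 : |cV y v| ≤ s / b ^ 3 :=
    (mult hQ (hall z1 (nu_le hb (a1.trans hs3) a2 a3)) hz1).1.trans a1
  have v2 : |cx y v| ≤ s / b ^ 90 :=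
    (mult hQ (hall z2 (nu_le hb c1 (c2.trans hs90) c3)) hz2).2.1.trans c2
  have v3 : |cc y v| ≤ s * b ^ 481 :=
    (mult hQ (hall z3 (nu_le hb f1 f2 (f3.trans hs481))) hz3).2.2.trans f3
  rw [le_div_iff₀ hp3] at v1
  rw [le_div_iff₀ hp90] at v2
  have hdn := det_norm h v
  rw [hdd] at hdn
  -- translations
  have tV : (v.a : ℝ) * d ^ 2 = cV y v * (y.a : ℝ) ^ 2 := by
    rw [cV, e2]; field_simp
  have tx : be (tt y) v * d = cx y v := by rw [cx, hdd]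
  have tc : ga (tt y) v * (y.a : ℝ) ^ 2 = cc y v * d ^ 2 := by
    rw [cc, e2]; field_simp
  have tV' : |(v.a : ℝ)| * d ^ 2 = |cV y v| * (y.a : ℝ) ^ 2 := by
    rw [← abs_of_pos (by positivity : 0 < d ^ 2), ← abs_mul, tV, abs_mul,
      abs_of_pos (by positivity : 0 < (y.a : ℝ) ^ 2)]
  have tx' : |be (tt y) v| * d = |cx y v| := by
    rw [← tx, abs_mul, abs_of_pos hd]
  have tc' : |ga (tt y) v| * (y.a : ℝ) ^ 2 = |cc y v| * d ^ 2 := by
    rw [← abs_of_pos (by positivity : 0 < (y.a : ℝ) ^ 2), ← abs_mul, tc, abs_mul,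
      abs_of_pos (by positivity : 0 < d ^ 2)]
  have hVnn : 0 ≤ cV y v := by
    rw [cV, e2]
    have : (0 : ℝ) ≤ v.a := by exact_mod_cast hva
    positivity
  have haV : |cV y v| = cV y v := abs_of_nonneg hVnn
  generalize cV y v = V at *
  generalize cx y v = X at *
  generalize cc y v = C at *
  have hd2 : (0 : ℝ) < d ^ 2 := by positivity
  have hY2 : (0 : ℝ) < (y.a : ℝ) ^ 2 := by positivity
  have hb3 : (1000 : ℝ) ≤ b ^ 3 := by
    have : b ^ 1 ≤ b ^ 3 := pw h (by norm_num)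
    rw [pow_one] at this; linarith
  have hVs : V ≤ 1 / 1000 := by
    rw [haV] at v1
    have : V * 1000 ≤ V * b ^ 3 := by gcongr
    linarith
  have hXs : |X| * b ^ 80 ≤ 1 := by
    have h1 : b ^ 80 ≤ b ^ 90 := pw h (by norm_num)
    have h2 : |X| * b ^ 80 ≤ |X| * b ^ 90 := by gcongr
    linarith
  have hX2 : |X| ≤ 1 / 2 := by
    have h1 : b ^ 1 ≤ b ^ 80 := pw h (by norm_num)
    rw [pow_one] at h1
    have h2 : |X| * 2 ≤ |X| * b ^ 80 := by gcongr; linarith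
    linarith
  have hCs : |C| ≤ b ^ 740 := by
    refine v3.trans (hs481.trans (pw h (by norm_num)))
  have hdet : det v ≠ 0 := by
    refine hC i x y v b h hv ?_ ?_ ?_
    · rw [e2, tV', haV]
      calc V * (y.a : ℝ) ^ 2 ≤ 1 / 1000 * (y.a : ℝ) ^ 2 := by gcongr
        _ < (y.a : ℝ) ^ 2 := by linarith
    · rw [hdd, tx', le_div_iff₀ (by positivity)]
      exact hXs
    · rw [e2, tc']
      gcongr
  have hdet1 : (1 : ℝ) ≤ |(det v : ℝ)| := by
    have := Int.one_le_abs hdet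
    exact_mod_cast this
  have hXd : X ^ 2 / d ^ 2 ≤ |X| ^ 2 := by
    rw [div_le_iff₀ hd2, ← sq_abs X]
    exact le_mul_of_one_le_right (sq_nonneg _) (one_le_pow₀ hd1)
  have hdle : |(det v : ℝ)| ≤ V * |C| + |X| ^ 2 := by
    rw [hdn]
    calc |V * C - X ^ 2 / d ^ 2| ≤ |V * C| + |X ^ 2 / d ^ 2| := abs_sub _ _
      _ = V * |C| + X ^ 2 / d ^ 2 := by
        rw [abs_mul, haV, abs_of_nonneg (by positivity : 0 ≤ X ^ 2 / d ^ 2)]
      _ ≤ _ := by linarith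
  have hXq : |X| ^ 2 ≤ 1 / 4 := by
    calc |X| ^ 2 ≤ (1 / 2) ^ 2 := by gcongr
      _ = 1 / 4 := by norm_num
  have hVC : 3 / 4 ≤ V * |C| := by linarith
  have hVpos : 0 < V := by
    rcases hVnn.lt_or_eq with h1 | h1
    · exact h1
    · rw [← h1, zero_mul] at hVC; linarith
  -- the determinant
  have hdb : |(det v : ℝ)| * b ^ 80 ≤ d ^ 2 := by
    have k1 : V * |C| * b ^ 3 ≤ s * (s * b ^ 481) := by
      calc V * |C| * b ^ 3 = (V * b ^ 3) * |C| := by ring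
        _ ≤ s * (s * b ^ 481) := by
          rw [haV] at v1
          gcongr
    have k2 : |X| ^ 2 * b ^ 180 ≤ s ^ 2 := by
      calc |X| ^ 2 * b ^ 180 = (|X| * b ^ 90) ^ 2 := by ring
        _ ≤ s ^ 2 := by gcongr
    have k3 : |X| ^ 2 * b ^ 3 ≤ s ^ 2 * b ^ 481 := by
      have m1 : b ^ 3 ≤ b ^ 180 := pw h (by norm_num)
      have m2 : (1 : ℝ) ≤ b ^ 481 := one_le_pow₀ hb1
      calc |X| ^ 2 * b ^ 3 ≤ |X| ^ 2 * b ^ 180 := by gcongr
        _ ≤ s ^ 2 := k2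
        _ = s ^ 2 * 1 := by ring
        _ ≤ _ := by gcongr
    have k4 : |(det v : ℝ)| * b ^ 3 ≤ 2 * s ^ 2 * b ^ 481 := by
      calc |(det v : ℝ)| * b ^ 3 ≤ (V * |C| + |X| ^ 2) * b ^ 3 := by gcongr
        _ = V * |C| * b ^ 3 + |X| ^ 2 * b ^ 3 := by ring
        _ ≤ s * (s * b ^ 481) + s ^ 2 * b ^ 481 := by gcongr
        _ = _ := by ring
    have k5 : |(det v : ℝ)| * b ^ 80 * (b ^ 3 * b ^ 295) ≤ 32 * d ^ 2 * b ^ 80 := by
      calc |(det v : ℝ)| * b ^ 80 * (b ^ 3 * b ^ 295)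
          = (|(det v : ℝ)| * b ^ 3) * (b ^ 80 * b ^ 295) := by ring
        _ ≤ (2 * s ^ 2 * b ^ 481) * (b ^ 80 * b ^ 295) := by gcongr
        _ = 2 * (s * b ^ 388) ^ 2 * b ^ 80 := by ring
        _ = 32 * d ^ 2 * b ^ 80 := by rw [hsb]; ring
    have k6 : 32 * b ^ 80 ≤ b ^ 3 * b ^ 295 := by
      have m1 : (32 : ℝ) ≤ b ^ 218 := by
        have : b ^ 1 ≤ b ^ 218 := pw h (by norm_num)
        rw [pow_one] at this; linarith
      have m2 : b ^ 3 * b ^ 295 = b ^ 218 * b ^ 80 := by rw [← pow_add, ← pow_add]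
      rw [m2]
      gcongr
    have k7 : |(det v : ℝ)| * b ^ 80 * (b ^ 3 * b ^ 295) ≤ d ^ 2 * (b ^ 3 * b ^ 295) := by
      calc |(det v : ℝ)| * b ^ 80 * (b ^ 3 * b ^ 295) ≤ 32 * d ^ 2 * b ^ 80 := k5
        _ = d ^ 2 * (32 * b ^ 80) := by ring
        _ ≤ _ := by gcongr
    exact le_of_mul_le_mul_right k7 (by positivity)
  refine ⟨v, ⟨?_, hdet, ?_, ?_, ?_, ?_⟩, ?_, ?_⟩
  · -- positivity
    have h1 : (0 : ℝ) < v.a := by
      have h2 : 0 < (v.a : ℝ) * d ^ 2 := by rw [tV]; positivity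
      exact pos_of_mul_pos_left h2 hd2.le
    exact_mod_cast h1
  · -- star
    rw [hdd]
    have hstar : b ^ 2 * |X| ^ 3 ≤ V ^ 2 := by
      -- lower bound for V
      have k1 : 3 / 4 ≤ V * (s * b ^ 481) := hVC.trans (by gcongr)
      have k2 : 9 / 16 ≤ V ^ 2 * (s * b ^ 481) ^ 2 := by
        calc (9 : ℝ) / 16 = (3 / 4) ^ 2 := by norm_num
          _ ≤ (V * (s * b ^ 481)) ^ 2 := by gcongr
          _ = _ := by ring
      have k3 : |X| ^ 3 * b ^ 270 ≤ s ^ 3 := by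
        calc |X| ^ 3 * b ^ 270 = (|X| * b ^ 90) ^ 3 := by ring
          _ ≤ s ^ 3 := by gcongr
      have k4 : b ^ 2 * |X| ^ 3 * (s * b ^ 481) ^ 2 * b ^ 46 ≤ 1024 := by
        calc b ^ 2 * |X| ^ 3 * (s * b ^ 481) ^ 2 * b ^ 46
            = (|X| ^ 3 * b ^ 270) * (s ^ 2 * b ^ 740) := by ring
          _ ≤ s ^ 3 * (s ^ 2 * b ^ 740) := by gcongr
          _ = (s * b ^ 148) ^ 5 := by ring
          _ ≤ 4 ^ 5 := by gcongr
          _ = 1024 := by norm_num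
      have k5 : (2048 : ℝ) ≤ b ^ 46 := by
        calc (2048 : ℝ) ≤ 1000 ^ 2 := by norm_num
          _ ≤ b ^ 2 := by gcongr
          _ ≤ b ^ 46 := pw h (by norm_num)
      have k6 : b ^ 2 * |X| ^ 3 * (s * b ^ 481) ^ 2 ≤ 1 / 2 := by
        have m1 : b ^ 2 * |X| ^ 3 * (s * b ^ 481) ^ 2 * 2048 ≤
            b ^ 2 * |X| ^ 3 * (s * b ^ 481) ^ 2 * b ^ 46 := by gcongr
        linarith
      have k7 : b ^ 2 * |X| ^ 3 * (s * b ^ 481) ^ 2 ≤ V ^ 2 * (s * b ^ 481) ^ 2 := by linarith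
      exact le_of_mul_le_mul_right k7 (by positivity)
    have e3 : b ^ 2 * (y.a : ℝ) ^ 4 * |be (tt y) v| ^ 3 * d ^ 3 =
        b ^ 2 * |X| ^ 3 * (y.a : ℝ) ^ 4 := by
      rw [← tx']; ring
    have e4 : d * (v.a : ℝ) ^ 2 * d ^ 3 = V ^ 2 * (y.a : ℝ) ^ 4 := by
      calc d * (v.a : ℝ) ^ 2 * d ^ 3 = ((v.a : ℝ) * d ^ 2) ^ 2 := by ring
        _ = (V * (y.a : ℝ) ^ 2) ^ 2 := by rw [tV]
        _ = _ := by ring
    refine le_of_mul_le_mul_right ?_ (by positivity : 0 < d ^ 3)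
    rw [e3, e4]
    gcongr
  · -- range
    rw [e2]
    calc b ^ 2 * d ^ 2 * (v.a : ℝ) = b ^ 2 * ((v.a : ℝ) * d ^ 2) := by ring
      _ = (b ^ 2 * V) * (y.a : ℝ) ^ 2 := by rw [tV]; ring
      _ ≤ 1 * (y.a : ℝ) ^ 2 := by
        gcongr
        have m1 : b ^ 2 ≤ b ^ 3 := pw h (by norm_num)
        rw [haV] at v1
        calc b ^ 2 * V ≤ b ^ 3 * V := by gcongr
          _ = V * b ^ 3 := by ring
          _ ≤ s := v1
          _ ≤ 1 := hs1
      _ = _ := one_mul _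
  · -- gamma
    rw [e2, tc']
    gcongr
  · -- beta
    have h1 : |be (tt y) v| * 1 ≤ |be (tt y) v| * d := by gcongr
    linarith
  · -- the index
    by_contra hi
    have hi6 : i = 6 := by have := h.hi; omega
    have k1 := h.hd
    rw [hi6, hdd] at k1
    norm_num at k1
    have k3 : d ^ 2 ≤ b ^ 48 := by
      calc d ^ 2 ≤ (b ^ 24) ^ 2 := by gcongr
        _ = b ^ 48 := by rw [← pow_mul]
    have k4 : b ^ 80 ≤ b ^ 48 := by
      calc b ^ 80 = 1 * b ^ 80 := by ring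
        _ ≤ |(det v : ℝ)| * b ^ 80 := by gcongr
        _ ≤ d ^ 2 := hdb
        _ ≤ _ := k3
    have k5 : b ^ 80 = b ^ 32 * b ^ 48 := by rw [← pow_add]
    rw [k5] at k4
    have k6 : b ^ 32 * b ^ 48 ≤ 1 * b ^ 48 := by linarith
    have k7 : b ^ 32 ≤ 1 := le_of_mul_le_mul_right k6 (by positivity)
    have k8 : b ^ 1 ≤ b ^ 32 := pw h (by norm_num)
    rw [pow_one] at k8
    linarith
  · rw [e2]; exact hdb

end WHS
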