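import Pool.Agent.WHS.Stmts

/-!
# Module WHS_CLAIM1: nonzero determinants (MP_c538e3_nt)
-/

namespace WHS

open WHP (V3 det be ga dot cross lin tt Sm NN B0)

namespace CLAIM1

/-- integer vectors with `det v = 0`, `v.a ≠ 0` are `c (m², m n, n²)` -/
private lemma c1_param (v : V3) (ha : v.a ≠ 0) (hd : det v = 0) :
    ∃ c m n : ℤ, c ≠ 0 ∧ m ≠ 0 ∧ v.a = c * m ^ 2 ∧ v.b = c * m * n ∧ v.c = c * n ^ 2 := by
  have hg : (Int.gcd v.a v.b : ℤ) ≠ 0 := by
    intro h
    have : Int.gcd v.a v.b = 0 := by exact_mod_cast h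
    exact ha (Int.gcd_eq_zero_iff.mp this).1
  obtain ⟨m, hm⟩ : (Int.gcd v.a v.b : ℤ) ∣ v.a := Int.gcd_dvd_left _ _
  obtain ⟨n, hn⟩ : (Int.gcd v.a v.b : ℤ) ∣ v.b := Int.gcd_dvd_right _ _
  have hcop : IsCoprime m n := by
    have hb := Int.gcd_eq_gcd_ab v.a v.b
    refine ⟨Int.gcdA v.a v.b, Int.gcdB v.a v.b, ?_⟩
    apply mul_left_cancel₀ hg
    linear_combination (-1 : ℤ) * hb + (-(Int.gcdA v.a v.b)) * hm + (-(Int.gcdB v.a v.b)) * hn
  set g : ℤ := (Int.gcd v.a v.b : ℤ) with hgdef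
  have hm0 : m ≠ 0 := by
    rintro rfl
    exact ha (by rw [hm, mul_zero])
  unfold det at hd
  have h1 : m * v.c = g * n ^ 2 := by
    apply mul_left_cancel₀ hg
    have : v.a * v.c = v.b ^ 2 := by linarith
    rw [hm, hn] at this
    linear_combination this
  have h2 : m ∣ g := by
    have h3 : m ∣ g * n ^ 2 := ⟨v.c, h1.symm⟩
    exact (IsCoprime.pow_right hcop : IsCoprime m (n ^ 2)).dvd_of_dvd_mul_right h3
  obtain ⟨c, hc⟩ := h2
  have hc0 : c ≠ 0 := by
    rintro rfl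
    exact hg (by rw [hc, mul_zero])
  refine ⟨c, m, n, hc0, hm0, ?_, ?_, ?_⟩
  · rw [hm, hc]; ring
  · rw [hn, hc]; ring
  · apply mul_left_cancel₀ hm0
    rw [h1, hc]; ring

end CLAIM1

open CLAIM1 in
/-- nonzero determinants -/
theorem CLAIM1_thm : Claim1 := by
  intro i x y v b hS hv h1 h2 h3 hdv
  have hb0 : (1000000 : ℝ) ≤ b := hS.hb0
  have hb1 : (1 : ℝ) ≤ b := by linarith
  have hbpos : (0 : ℝ) < b := by linarith
  -- real quantities
  set Y : ℝ := (y.a : ℝ) with hY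
  have hYb : b ^ 1000000 = Y := hS.hby
  have hY1 : 1 ≤ Y := by rw [← hYb]; exact one_le_pow₀ hb1
  have hYpos : 0 < Y := by linarith
  have hY2 : Y ^ 2 = b ^ 2000000 := by rw [← hYb, ← pow_mul]
  set d : ℝ := |(det y : ℝ)| with hd
  have hd2 : (det y : ℝ) ^ 2 = d ^ 2 := by rw [hd, sq_abs]
  have hd1 : 1 ≤ d := by
    have h : (1 : ℤ) ≤ |det y| := Int.one_le_abs hS.hdet
    have : (1 : ℝ) ≤ |((det y : ℤ) : ℝ)| := by exact_mod_cast h
    exact this
  have hd240 : d ≤ b ^ 240 := hS.hd.trans (pow_le_pow_right₀ hb1 (Nat.sub_le _ _))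
  have hd480 : d ^ 2 ≤ b ^ 480 := by
    calc d ^ 2 ≤ (b ^ 240) ^ 2 := pow_le_pow_left₀ (by linarith) hd240 2
      _ = b ^ 480 := by rw [← pow_mul]
  have h1041 : b ^ 740 * (det y : ℝ) ^ 2 ≤ b ^ 1220 := by
    rw [hd2]
    calc b ^ 740 * d ^ 2 ≤ b ^ 740 * b ^ 480 := by
          apply mul_le_mul_of_nonneg_left hd480; positivity
      _ = b ^ 1220 := by ring
  by_cases ha : v.a = 0
  · -- v = (0, 0, c)
    have hb' : v.b = 0 := by
      unfold det at hdv
      rw [ha] at hdv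
      have : v.b ^ 2 = 0 := by linarith
      exact pow_eq_zero_iff (two_ne_zero) |>.mp this
    have hc' : v.c ≠ 0 := by
      intro hc
      apply hv
      ext <;> assumption
    have hga : ga (tt y) v = (v.c : ℝ) := by
      unfold ga; rw [ha, hb']; simp
    have hc1 : (1 : ℝ) ≤ |(v.c : ℝ)| := by
      have h : (1 : ℤ) ≤ |v.c| := Int.one_le_abs hc'
      exact_mod_cast h
    rw [hga] at h3
    have h5 : Y ^ 2 ≤ b ^ 1220 := by
      calc Y ^ 2 = 1 * Y ^ 2 := (one_mul _).symm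
        _ ≤ |(v.c : ℝ)| * Y ^ 2 := mul_le_mul_of_nonneg_right hc1 (by positivity)
        _ ≤ _ := h3
        _ ≤ _ := h1041
    rw [hY2] at h5
    have h6 : b ^ 1221 ≤ b ^ 2000000 := pow_le_pow_right₀ hb1 (by norm_num)
    have h7 : b ^ 1220 < b ^ 1221 := pow_lt_pow_right₀ (by linarith) (by norm_num)
    linarith
  · obtain ⟨c, m, n, hc, hm, hva, hvb, hvc⟩ := c1_param v ha hdv
    have hc1 : (1 : ℝ) ≤ |(c : ℝ)| := by
      have h : (1 : ℤ) ≤ |c| := Int.one_le_abs hc
      exact_mod_cast h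
    have hm1 : (1 : ℝ) ≤ |(m : ℝ)| := by
      have h : (1 : ℤ) ≤ |m| := Int.one_le_abs hm
      exact_mod_cast h
    set ρ : ℤ := y.b * m - y.a * n with hρ
    set ρ' : ℤ := y.c * m - y.b * n with hρ'
    have hYne : (y.a : ℝ) ≠ 0 := hYpos.ne'
    have htt : tt y = (y.b : ℝ) / y.a := rfl
    have hbe : be (tt y) v = -(c * m * ρ / Y) := by
      unfold be; rw [htt, hva, hvb, hρ, hY]; push_cast; field_simp; ring
    have hga : ga (tt y) v = c * ρ ^ 2 / Y ^ 2 := by
      unfold ga; rw [htt, hva, hvb, hvc, hρ, hY]; push_cast; field_simp; ring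
    have hkey : tt y * ρ - ρ' = -((det y : ℝ) * m / Y) := by
      unfold det; rw [htt, hρ, hρ', hY]; push_cast; field_simp; ring
    have hkey' : |tt y * ρ - ρ'| = d * |(m : ℝ)| / Y := by
      rw [hkey, abs_neg, abs_div, abs_mul, abs_of_pos hYpos]
    by_cases hρ0 : ρ = 0
    · -- then Y divides det y * m
      have h6 : (ρ' : ℝ) * Y = (det y : ℝ) * m := by
        rw [hρ0] at hkey
        have : (ρ' : ℝ) = (det y : ℝ) * m / Y := by
          have h := hkey
          push_cast at h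
          linarith
        rw [this]; field_simp
      have h7 : ρ' ≠ 0 := by
        intro h0
        rw [h0] at h6
        have : (det y : ℝ) * m = 0 := by rw [← h6]; simp
        rcases mul_eq_zero.mp this with h | h
        · exact hS.hdet (by exact_mod_cast h)
        · exact hm (by exact_mod_cast h)
      have h8 : (1 : ℝ) ≤ |(ρ' : ℝ)| := by
        have h : (1 : ℤ) ≤ |ρ'| := Int.one_le_abs h7
        exact_mod_cast h
      have h9 : Y ≤ d * |(m : ℝ)| := by
        have : |(ρ' : ℝ)| * Y = d * |(m : ℝ)| := by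
          rw [hd, ← abs_mul, ← h6, abs_mul, abs_of_pos hYpos]
        rw [← this]
        calc Y = 1 * Y := (one_mul _).symm
          _ ≤ _ := mul_le_mul_of_nonneg_right h8 hYpos.le
      have h10 : Y ^ 2 ≤ |(v.a : ℝ)| * (det y : ℝ) ^ 2 := by
        have : |(v.a : ℝ)| = |(c : ℝ)| * |(m : ℝ)| ^ 2 := by
          rw [hva]; push_cast; rw [abs_mul, abs_pow]
        rw [this, hd2]
        calc Y ^ 2 ≤ (d * |(m : ℝ)|) ^ 2 := pow_le_pow_left₀ hYpos.le h9 2
          _ = 1 * (|(m : ℝ)| ^ 2 * d ^ 2) := by ring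
          _ ≤ |(c : ℝ)| * (|(m : ℝ)| ^ 2 * d ^ 2) :=
              mul_le_mul_of_nonneg_right hc1 (by positivity)
          _ = _ := by ring
      linarith
    · -- main case
      have hr1 : (1 : ℤ) ≤ |ρ| := Int.one_le_abs hρ0
      set r : ℝ := |(ρ : ℝ)| with hr
      have hr1' : (1 : ℝ) ≤ r := by rw [hr]; exact_mod_cast hr1
      have hrr : ((|ρ| : ℤ) : ℝ) = r := by rw [hr]; push_cast; rfl
      -- r² ≤ b^1042
      have hr2 : r ^ 2 ≤ b ^ 1220 := by
        have e1 : |ga (tt y) v| * Y ^ 2 = |(c : ℝ)| * r ^ 2 := by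
          rw [hga, abs_div, abs_mul, abs_pow, abs_of_pos (by positivity : (0 : ℝ) < Y ^ 2), ← hr]
          field_simp
        rw [e1] at h3
        calc r ^ 2 = 1 * r ^ 2 := (one_mul _).symm
          _ ≤ |(c : ℝ)| * r ^ 2 := mul_le_mul_of_nonneg_right hc1 (by positivity)
          _ ≤ _ := h3
          _ ≤ _ := h1041
      -- r * (d m / Y) ≤ 2 / b^202
      have hrm : r * (d * |(m : ℝ)| / Y) ≤ 1 / b ^ 80 := by
        have e1 : |be (tt y) v| * |(det y : ℝ)| = |(c : ℝ)| * (r * (d * |(m : ℝ)| / Y)) := by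
          rw [hbe, abs_neg, abs_div, abs_mul, abs_mul, abs_of_pos hYpos]
          ring
        rw [e1] at h2
        calc r * (d * |(m : ℝ)| / Y) = 1 * (r * (d * |(m : ℝ)| / Y)) := (one_mul _).symm
          _ ≤ |(c : ℝ)| * (r * (d * |(m : ℝ)| / Y)) :=
              mul_le_mul_of_nonneg_right hc1 (by positivity)
          _ ≤ _ := h2
      -- fourth root
      set q : ℝ := qr |ρ| with hq
      have hq0 : 0 ≤ q := by
        rw [hq]; unfold qr
        apply Real.rpow_nonneg; rw [hrr]; linarith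
      have hq8 : q ^ 8 = r := by
        rw [hq]; unfold qr
        rw [hrr, ← Real.rpow_natCast, ← Real.rpow_mul (by linarith)]
        norm_num
      have hq77 : q ≤ b ^ 77 := by
        by_contra hcon
        push Not at hcon
        have e1 : (b ^ 77) ^ 16 < q ^ 16 := pow_lt_pow_left₀ hcon (by positivity) (by norm_num)
        have e2 : q ^ 16 = r ^ 2 := by rw [← hq8]; ring
        rw [e2, ← pow_mul] at e1
        have e3 : b ^ 1220 ≤ b ^ (77 * 16) := pow_le_pow_right₀ hb1 (by norm_num)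
        linarith
      have hq17 : q ^ 17 ≤ Y ^ 2 := by
        calc q ^ 17 = q * r ^ 2 := by rw [← hq8]; ring
          _ ≤ b ^ 77 * b ^ 1220 := mul_le_mul hq77 hr2 (by positivity) (by positivity)
          _ = b ^ (77 + 1220) := (pow_add _ _ _).symm
          _ ≤ b ^ 2000000 := pow_le_pow_right₀ hb1 (by norm_num)
          _ = Y ^ 2 := hY2.symm
      -- apply BA with the integer |ρ| and the signed ρ'
      obtain ⟨n1, hn1⟩ : ∃ n1 : ℤ, |((|ρ| : ℤ) : ℝ) * tt y - n1| = d * |(m : ℝ)| / Y := by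
        rcases le_or_gt 0 ρ with h | h
        · refine ⟨ρ', ?_⟩
          rw [← hkey', abs_of_nonneg h, mul_comm]
        · refine ⟨-ρ', ?_⟩
          rw [← hkey', abs_of_neg h]
          push_cast
          rw [show -(ρ : ℝ) * tt y - -(ρ' : ℝ) = -(tt y * ρ - ρ') by ring, abs_neg]
      have hBA := hS.hS2 |ρ| n1 hr1 hq17
      rw [hn1] at hBA
      have e1 : q ^ 9 * (d * |(m : ℝ)| / Y) = q * (r * (d * |(m : ℝ)| / Y)) := by
        rw [← hq8]; ring
      have e2 : qr |ρ| ^ 9 * (d * |(m : ℝ)| / Y) ≤ b ^ 77 * (1 / b ^ 80) := by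
        rw [← hq, e1]
        exact mul_le_mul hq77 hrm (by positivity) (by positivity)
      have e3 : b ^ 77 * (1 / b ^ 80) = 1 / b ^ 3 := by
        field_simp
      have e4 : (1 : ℝ) / b ^ 3 ≤ 1 / b := by
        apply div_le_div_of_nonneg_left (by norm_num) hbpos
        calc b = b ^ 1 := (pow_one _).symm
          _ ≤ b ^ 3 := pow_le_pow_right₀ hb1 (by norm_num)
      have e6 : (1 : ℝ) / b ≤ 2 / b := by
        apply div_le_div_of_nonneg_right (by norm_num) hbpos.le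
      have e5 : (1 : ℝ) / 12 + 2 / b ≤ 1 / b := by
        calc (1 : ℝ) / 12 + 2 / b ≤ _ := hBA
          _ ≤ _ := e2
          _ = _ := e3
          _ ≤ _ := e4
      linarith

end WHS
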