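import Pool.Agent.WHS.Stmts
import Pool.Agent.WHP.Box

/-!
# DIR: the child in case (c)
-/

namespace WHS

open WHP (V3 det be ga dot cross lin tt Sm NN B0)

namespace DIR

theorem kb {b K : ℝ} (hb : 1000000 ≤ b) (m k n : ℕ) (hK : K ≤ 1000000 ^ k) (h : m + k ≤ n) :
    K * b ^ m ≤ b ^ n := by
  have hb1 : (1 : ℝ) ≤ b := by linarith
  have h1 : K ≤ b ^ k := hK.trans (pow_le_pow_left₀ (by norm_num) hb k)
  calc K * b ^ m ≤ b ^ k * b ^ m := mul_le_mul_of_nonneg_right h1 (by positivity)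
    _ = b ^ (m + k) := by rw [← pow_add, add_comm]
    _ ≤ b ^ n := pow_le_pow_right₀ hb1 h

theorem kd {b K : ℝ} (hb : 1000000 ≤ b) (m k n : ℕ) (hK : K ≤ 1000000 ^ k) (h : m + k ≤ n) :
    K / b ^ n ≤ 1 / b ^ m := by
  have hb0 : (0 : ℝ) < b := by linarith
  rw [div_le_div_iff₀ (by positivity) (by positivity), one_mul]
  exact kb hb m k n hK h

/-- the real parameters -/
structure Par (b d A p q r X C : ℝ) : Prop where
  hb : 1000000 ≤ b
  hd1 : 1 ≤ d
  hd2 : d ≤ b ^ 240
  hA1 : b ^ 44 / 64 ≤ A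
  hA2 : A ≤ 16 * b ^ 3 * d
  hp : |p| ≤ 60 / b ^ 44
  hq : |q| ≤ 60 / b ^ 615
  hr : r ^ 2 * d ^ 2 = |q| * b ^ 80
  hr0 : 0 ≤ r
  hX : X = max (1 / (128 * b ^ 2 * A ^ 2)) (16 * A * r)
  hC : X * C = 8 * A

variable {b d A p q r X C : ℝ}

theorem Par.b0 (h : Par b d A p q r X C) : 0 < b := by linarith [h.hb]

theorem Par.A0 (h : Par b d A p q r X C) : 0 < A := by
  have := h.b0
  exact lt_of_lt_of_le (by positivity) h.hA1

theorem Par.X1 (h : Par b d A p q r X C) : 1 / (128 * b ^ 2 * A ^ 2) ≤ X := by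
  rw [h.hX]
  exact le_max_left _ _

theorem Par.X2 (h : Par b d A p q r X C) : 16 * A * r ≤ X := by
  rw [h.hX]
  exact le_max_right _ _

theorem Par.X0 (h : Par b d A p q r X C) : 0 < X := by
  have := h.b0
  have := h.A0
  exact lt_of_lt_of_le (by positivity) h.X1

theorem Par.C0 (h : Par b d A p q r X C) : 0 < C := by
  have h1 := h.X0
  have h2 := h.A0
  have h3 : 0 < X * C := by rw [h.hC]; positivity
  exact (pos_iff_pos_of_mul_pos h3).mp h1

theorem Par.rd (h : Par b d A p q r X C) : r * d ≤ 8 / b ^ 267 := by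
  have hb := h.b0
  have hd : 0 < d := by linarith [h.hd1]
  refine (le_abs_self _).trans (abs_le_of_sq_le_sq ?_ (by positivity))
  rw [mul_pow, h.hr]
  calc |q| * b ^ 80 ≤ 60 / b ^ 615 * b ^ 80 := mul_le_mul_of_nonneg_right h.hq (by positivity)
    _ = 60 / b ^ 535 := by
      rw [show b ^ 615 = b ^ 535 * b ^ 80 by ring]
      field_simp
    _ ≤ (8 / b ^ 267) ^ 2 := by
      rw [div_pow, ← pow_mul]
      rw [div_le_div_iff₀ (by positivity) (by positivity)]
      rw [show b ^ 535 = b * b ^ (267 * 2) by ring]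
      have h1 : 0 ≤ b ^ (267 * 2) := by positivity
      nlinarith [h.hb]

theorem Par.X1le (h : Par b d A p q r X C) : 1 / (128 * b ^ 2 * A ^ 2) ≤ 32 / b ^ 90 := by
  have hb := h.b0
  have hA := h.A0
  rw [div_le_div_iff₀ (by positivity) (by positivity), one_mul]
  have h1 : b ^ 44 ≤ 64 * A := by linarith [h.hA1]
  have h2 : (b ^ 44) ^ 2 ≤ (64 * A) ^ 2 := pow_le_pow_left₀ (by positivity) h1 2
  calc b ^ 90 = b ^ 2 * (b ^ 44) ^ 2 := by ring
    _ ≤ b ^ 2 * (64 * A) ^ 2 := mul_le_mul_of_nonneg_left h2 (by positivity)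
    _ = 32 * (128 * b ^ 2 * A ^ 2) := by ring

theorem Par.X2le (h : Par b d A p q r X C) : 16 * A * r ≤ 2048 / b ^ 264 := by
  have hb := h.b0
  have hr := h.hr0
  calc 16 * A * r ≤ 16 * (16 * b ^ 3 * d) * r := by
        apply mul_le_mul_of_nonneg_right _ hr
        linarith [h.hA2]
    _ = 256 * b ^ 3 * (r * d) := by ring
    _ ≤ 256 * b ^ 3 * (8 / b ^ 267) := mul_le_mul_of_nonneg_left h.rd (by positivity)
    _ = 2048 / b ^ 264 := by
      rw [show b ^ 267 = b ^ 264 * b ^ 3 by ring]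
      field_simp
      norm_num

theorem Par.Xle (h : Par b d A p q r X C) : X ≤ 32 / b ^ 90 := by
  have hb := h.b0
  rw [h.hX]
  refine max_le h.X1le (h.X2le.trans ?_)
  rw [div_le_div_iff₀ (by positivity) (by positivity)]
  have := kb h.hb 90 1 264 (K := 2048) (by norm_num) (by norm_num)
  have h2 : 0 < b ^ 264 := by positivity
  linarith

theorem Par.Cle (h : Par b d A p q r X C) : C ≤ b ^ 733 := by
  have hb := h.b0
  have hA := h.A0
  have hC := h.C0
  have h1 : C ≤ 1024 * b ^ 2 * A ^ 3 := by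
    have h2 := mul_le_mul_of_nonneg_right h.X1 hC.le
    rw [h.hC, div_mul_eq_mul_div, one_mul, div_le_iff₀ (by positivity)] at h2
    calc C ≤ 8 * A * (128 * b ^ 2 * A ^ 2) := h2
      _ = _ := by ring
  have h3 : A ≤ 16 * b ^ 243 := by
    calc A ≤ 16 * b ^ 3 * d := h.hA2
      _ ≤ 16 * b ^ 3 * b ^ 240 := mul_le_mul_of_nonneg_left h.hd2 (by positivity)
      _ = 16 * b ^ 243 := by ring
  have h4 : A ^ 3 ≤ (16 * b ^ 243) ^ 3 := pow_le_pow_left₀ hA.le h3 3
  calc C ≤ 1024 * b ^ 2 * A ^ 3 := h1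
    _ ≤ 1024 * b ^ 2 * (16 * b ^ 243) ^ 3 := mul_le_mul_of_nonneg_left h4 (by positivity)
    _ = 4194304 * b ^ 731 := by ring
    _ ≤ b ^ 733 := kb h.hb 731 2 733 (by norm_num) (by norm_num)

theorem Par.rC (h : Par b d A p q r X C) : r * C ≤ 1 / 2 := by
  have hA := h.A0
  have h1 := mul_le_mul_of_nonneg_right h.X2 h.C0.le
  rw [h.hC] at h1
  have h2 : A * (16 * (r * C)) ≤ A * 8 := by linarith
  have := le_of_mul_le_mul_left h2 hA
  linarith

theorem Par.pX (h : Par b d A p q r X C) : |p| * X ≤ 1920 / b ^ 134 := by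
  have hb := h.b0
  calc |p| * X ≤ 60 / b ^ 44 * (32 / b ^ 90) :=
        mul_le_mul h.hp h.Xle h.X0.le (by positivity)
    _ = 1920 / b ^ 134 := by
      rw [show b ^ 134 = b ^ 44 * b ^ 90 by ring]
      field_simp
      norm_num

theorem Par.q_eq (h : Par b d A p q r X C) : |q| = r ^ 2 * d ^ 2 / b ^ 80 := by
  have hb := h.b0
  rw [h.hr]
  field_simp

theorem Par.qC (h : Par b d A p q r X C) : |q| * C ≤ 4 / b ^ 107 := by
  have hb := h.b0
  have hd : 0 < d := by linarith [h.hd1]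
  have hr := h.hr0
  calc |q| * C = (r * C) * (r * d) * d / b ^ 80 := by
        rw [h.q_eq]
        ring
    _ ≤ (1 / 2) * (8 / b ^ 267) * b ^ 240 / b ^ 80 := by
        apply div_le_div_of_nonneg_right _ (by positivity)
        apply mul_le_mul _ h.hd2 hd.le (by positivity)
        exact mul_le_mul h.rC h.rd (by positivity) (by norm_num)
    _ = 4 / b ^ 107 := by
        rw [show b ^ 267 = b ^ 240 * b ^ 27 by ring, show b ^ 107 = b ^ 27 * b ^ 80 by ring]
        field_simp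
        norm_num

theorem Par.dA (h : Par b d A p q r X C) : 1 / (32 * b ^ 3) ≤ d / (2 * A) := by
  have hb := h.b0
  have hA := h.A0
  rw [div_le_div_iff₀ (by positivity) (by positivity)]
  linarith [h.hA2]

theorem Par.small (h : Par b d A p q r X C) : |p| * X + |q| * C ≤ 5 / b ^ 107 := by
  have hb := h.b0
  have h1 := h.pX
  have h2 := h.qC
  have h3 := kd h.hb 107 1 134 (K := 1920) (by norm_num) (by norm_num)
  have h4 : 5 / b ^ 107 = 4 / b ^ 107 + 1 / b ^ 107 := by ring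
  linarith

theorem Par.sum (h : Par b d A p q r X C) : d / (2 * A) + |p| * X + |q| * C < d / A := by
  have hb := h.b0
  have hA := h.A0
  have h1 := h.small
  have h2 := h.dA
  have h3 : 5 / b ^ 107 < 1 / (32 * b ^ 3) := by
    rw [div_lt_div_iff₀ (by positivity) (by positivity)]
    have := kb h.hb 3 1 107 (K := 161) (by norm_num) (by norm_num)
    have h4 : 0 < b ^ 3 := by positivity
    linarith
  have h5 : d / A = d / (2 * A) + d / (2 * A) := by
    field_simp
    ring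
  linarith

theorem Par.star (h : Par b d A p q r X C) {V x c : ℝ} (hV : 0 ≤ V) (hx : |x| ≤ X)
    (hc : |c| ≤ C) (he : V = p * x + q * c) (hVc : 3 / 4 ≤ V * |c|) :
    b ^ 2 * |x| ^ 3 ≤ V ^ 2 := by
  have hb := h.b0
  have hA := h.A0
  have hX := h.X0
  have hC := h.C0
  by_contra hcon
  push Not at hcon
  have hxX : |x| ^ 3 ≤ X ^ 3 := pow_le_pow_left₀ (abs_nonneg _) hx 3
  have hV2 : V ^ 2 ≤ b ^ 2 * X ^ 3 :=
    hcon.le.trans (mul_le_mul_of_nonneg_left hxX (by positivity))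
  have hW : (3 / 4 : ℝ) ^ 2 ≤ (V * |c|) ^ 2 := pow_le_pow_left₀ (by norm_num) hVc 2
  rcases le_total (16 * A * r) (1 / (128 * b ^ 2 * A ^ 2)) with h1 | h1
  · have hXe : X = 1 / (128 * b ^ 2 * A ^ 2) := by rw [h.hX, max_eq_left h1]
    have h2 : (V * |c|) ^ 2 ≤ 1 / 2 := by
      calc (V * |c|) ^ 2 = V ^ 2 * |c| ^ 2 := by ring
        _ ≤ (b ^ 2 * X ^ 3) * C ^ 2 :=
          mul_le_mul hV2 (pow_le_pow_left₀ (abs_nonneg _) hc 2) (by positivity) (by positivity)
        _ = b ^ 2 * X * (X * C) ^ 2 := by ring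
        _ = b ^ 2 * (1 / (128 * b ^ 2 * A ^ 2)) * (8 * A) ^ 2 := by rw [h.hC, hXe]
        _ = 1 / 2 := by
          field_simp
          norm_num
    norm_num at hW
    linarith
  · have hXe : X = 16 * A * r := by rw [h.hX, max_eq_right h1]
    have hXs : X ≤ 2048 / b ^ 264 := by rw [hXe]; exact h.X2le
    -- `V ≤ X / b ^ 44`
    have h2 : V ≤ X / b ^ 44 := by
      refine (le_abs_self _).trans (abs_le_of_sq_le_sq ?_ (by positivity))
      calc V ^ 2 ≤ b ^ 2 * X ^ 3 := hV2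
        _ = b ^ 2 * X ^ 2 * X := by ring
        _ ≤ b ^ 2 * X ^ 2 * (2048 / b ^ 264) := mul_le_mul_of_nonneg_left hXs (by positivity)
        _ = X ^ 2 * (2048 * b ^ 2 / b ^ 264) := by ring
        _ ≤ X ^ 2 * (1 / b ^ 88) := by
          apply mul_le_mul_of_nonneg_left _ (by positivity)
          rw [div_le_div_iff₀ (by positivity) (by positivity), one_mul]
          calc 2048 * b ^ 2 * b ^ 88 = 2048 * b ^ 90 := by ring
            _ ≤ b ^ 264 := kb h.hb 90 1 264 (by norm_num) (by norm_num)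
        _ = (X / b ^ 44) ^ 2 := by
          rw [show b ^ 88 = (b ^ 44) ^ 2 by ring, div_pow]
          ring
    have h3 : |q| * |c| ≤ 61 * (X / b ^ 44) := by
      have e1 : q * c = V - p * x := by linarith
      rw [← abs_mul, e1]
      calc |V - p * x| ≤ |V| + |p * x| := abs_sub _ _
        _ = V + |p| * |x| := by rw [abs_of_nonneg hV, abs_mul]
        _ ≤ X / b ^ 44 + 60 / b ^ 44 * X :=
          add_le_add h2 (mul_le_mul h.hp hx (abs_nonneg _) (by positivity))
        _ = 61 * (X / b ^ 44) := by ring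
    -- `|q| = X ^ 2 d ^ 2 / (256 A ^ 2 b ^ 80)`
    have hd : 0 < d := by linarith [h.hd1]
    have hrX : r = X / (16 * A) := by
      rw [hXe]
      field_simp
    have hq : |q| = X ^ 2 * d ^ 2 / (256 * A ^ 2 * b ^ 80) := by
      rw [h.q_eq, hrX]
      field_simp
      norm_num
    have hq0 : 0 < |q| := by rw [hq]; positivity
    have h4 : (|q| * (V * |c|)) ^ 2 ≤ b ^ 2 * X ^ 3 * (61 * (X / b ^ 44)) ^ 2 := by
      calc (|q| * (V * |c|)) ^ 2 = V ^ 2 * (|q| * |c|) ^ 2 := by ring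
        _ ≤ _ := mul_le_mul hV2 (pow_le_pow_left₀ (by positivity) h3 2) (by positivity)
          (by positivity)
    have h5 : |q| ^ 2 * (9 / 16) ≤ b ^ 2 * X ^ 3 * (61 * (X / b ^ 44)) ^ 2 := by
      refine le_trans ?_ h4
      rw [mul_pow]
      apply mul_le_mul_of_nonneg_left _ (by positivity)
      calc (9 / 16 : ℝ) = (3 / 4) ^ 2 := by norm_num
        _ ≤ _ := hW
    rw [hq] at h5
    -- clear denominators
    have h6 : d ^ 4 * b ^ 86 * 9 ≤ 3721 * 65536 * 16 * A ^ 4 * b ^ 160 * X := by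
      have e1 : (X ^ 2 * d ^ 2 / (256 * A ^ 2 * b ^ 80)) ^ 2 * (9 / 16) =
          (d ^ 4 * b ^ 86 * 9) * (X ^ 4 / (65536 * 16 * A ^ 4 * b ^ 160 * b ^ 86)) := by
        field_simp
        norm_num
      have e2 : b ^ 2 * X ^ 3 * (61 * (X / b ^ 44)) ^ 2 =
          (3721 * 65536 * 16 * A ^ 4 * b ^ 160 * X) *
            (X ^ 4 / (65536 * 16 * A ^ 4 * b ^ 160 * b ^ 86)) := by
        rw [show b ^ 86 = b ^ 44 * b ^ 42 by ring, div_eq_mul_inv X, mul_pow, mul_pow]
        field_simp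
        norm_num
      rw [e1, e2] at h5
      exact le_of_mul_le_mul_right h5 (by positivity)
    have h7 : A ^ 4 ≤ (16 * b ^ 3 * d) ^ 4 := pow_le_pow_left₀ hA.le h.hA2 4
    have h8 : d ^ 4 * (b ^ 86 * 9) ≤ d ^ 4 * (3721 * 65536 * 16 * 65536 * b ^ 172 * X) := by
      calc d ^ 4 * (b ^ 86 * 9) = d ^ 4 * b ^ 86 * 9 := by ring
        _ ≤ 3721 * 65536 * 16 * A ^ 4 * b ^ 160 * X := h6
        _ ≤ 3721 * 65536 * 16 * (16 * b ^ 3 * d) ^ 4 * b ^ 160 * X := by gcongr
        _ = _ := by ring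
    have h9 := le_of_mul_le_mul_left h8 (by positivity)
    have h10 : b ^ 86 * 9 ≤ 3721 * 65536 * 16 * 65536 * b ^ 172 * (2048 / b ^ 264) :=
      h9.trans (mul_le_mul_of_nonneg_left hXs (by positivity))
    have h11 : b ^ 86 * 9 * b ^ 264 ≤ 3721 * 65536 * 16 * 65536 * 2048 * b ^ 172 := by
      rw [← mul_div_assoc, le_div_iff₀ (by positivity)] at h10
      calc _ ≤ _ := h10
        _ = _ := by ring
    have h12 := kb h.hb 172 4 350 (K := 3721 * 65536 * 16 * 65536 * 2048) (by norm_num)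
      (by norm_num)
    have h13 : b ^ 86 * 9 * b ^ 264 = 9 * b ^ 350 := by ring
    have h14 : 0 < b ^ 350 := by positivity
    linarith

theorem Par.detb (h : Par b d A p q r X C) :
    (|p| * X + |q| * C) * C + X ^ 2 ≤ d ^ 2 / b ^ 80 := by
  have hb := h.b0
  have hA := h.A0
  have hX := h.X0
  have hC := h.C0
  have hd : 0 < d := by linarith [h.hd1]
  have hr := h.hr0
  have hdA : b ^ 41 / 1024 ≤ d := by
    have h1 : b ^ 44 / 64 ≤ 16 * b ^ 3 * d := h.hA1.trans h.hA2
    have h2 : b ^ 3 * (b ^ 41 / 1024) ≤ b ^ 3 * d := by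
      calc b ^ 3 * (b ^ 41 / 1024) = (b ^ 44 / 64) / 16 := by ring
        _ ≤ (16 * b ^ 3 * d) / 16 := by linarith
        _ = b ^ 3 * d := by ring
    exact le_of_mul_le_mul_left h2 (by positivity)
  have h1 : |p| * X * C ≤ (d ^ 2 / b ^ 80) / 4 := by
    have e1 : |p| * X * C = |p| * (8 * A) := by rw [← h.hC]; ring
    rw [e1]
    calc |p| * (8 * A) ≤ 60 / b ^ 44 * (8 * (16 * b ^ 3 * d)) := by
          apply mul_le_mul h.hp _ (by positivity) (by positivity)
          linarith [h.hA2]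
      _ = 7680 * d / b ^ 41 := by
          rw [show b ^ 44 = b ^ 41 * b ^ 3 by ring]
          field_simp
          norm_num
      _ ≤ (d ^ 2 / b ^ 80) / 4 := by
          rw [div_div, div_le_div_iff₀ (by positivity) (by positivity)]
          have h2 : 7680 * (b ^ 80 * 4) ≤ d * b ^ 41 := by
            calc 7680 * (b ^ 80 * 4) = 30720 * 1024 * b ^ 80 / 1024 := by ring
              _ ≤ b ^ 82 / 1024 := by
                have := kb h.hb 80 2 82 (K := 30720 * 1024) (by norm_num) (by norm_num)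
                linarith
              _ = b ^ 41 / 1024 * b ^ 41 := by ring
              _ ≤ d * b ^ 41 := mul_le_mul_of_nonneg_right hdA (by positivity)
          calc 7680 * d * (b ^ 80 * 4) = d * (7680 * (b ^ 80 * 4)) := by ring
            _ ≤ d * (d * b ^ 41) := mul_le_mul_of_nonneg_left h2 hd.le
            _ = d ^ 2 * b ^ 41 := by ring
  have h2 : |q| * C * C ≤ (d ^ 2 / b ^ 80) / 4 := by
    calc |q| * C * C = (r * C) ^ 2 * (d ^ 2 / b ^ 80) := by
          rw [h.q_eq]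
          ring
      _ ≤ (1 / 2) ^ 2 * (d ^ 2 / b ^ 80) := by
          apply mul_le_mul_of_nonneg_right _ (by positivity)
          exact pow_le_pow_left₀ (by positivity) h.rC 2
      _ = _ := by ring
  have h3 : X ^ 2 ≤ (d ^ 2 / b ^ 80) / 4 := by
    calc X ^ 2 ≤ (32 / b ^ 90) ^ 2 := pow_le_pow_left₀ hX.le h.Xle 2
      _ = 1024 / b ^ 180 := by
        rw [div_pow, ← pow_mul]
        norm_num
      _ ≤ (1 ^ 2 / b ^ 80) / 4 := by
        rw [div_div, div_le_div_iff₀ (by positivity) (by positivity)]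
        have := kb h.hb 80 1 180 (K := 4096) (by norm_num) (by norm_num)
        linarith
      _ ≤ (d ^ 2 / b ^ 80) / 4 := by
        gcongr
        exact h.hd1
  have h4 : 0 ≤ d ^ 2 / b ^ 80 := by positivity
  linarith

theorem Par.dge (h : Par b d A p q r X C) : b ^ 41 / 1024 ≤ d := by
  have hb := h.b0
  have h1 : b ^ 44 / 64 ≤ 16 * b ^ 3 * d := h.hA1.trans h.hA2
  have h2 : b ^ 3 * (b ^ 41 / 1024) ≤ b ^ 3 * d := by
    calc b ^ 3 * (b ^ 41 / 1024) = (b ^ 44 / 64) / 16 := by ring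
      _ ≤ (16 * b ^ 3 * d) / 16 := by linarith
      _ = b ^ 3 * d := by ring
  exact le_of_mul_le_mul_left h2 (by positivity)

theorem exists_nonneg (t : ℝ) (v : V3) (hv : v ≠ 0) : ∃ z : V3, z ≠ 0 ∧ 0 ≤ z.a ∧
    |(z.a : ℝ)| = |(v.a : ℝ)| ∧ |be t z| = |be t v| ∧ |ga t z| = |ga t v| := by
  rcases le_total 0 v.a with h | h
  · exact ⟨v, hv, h, rfl, rfl, rfl⟩
  · refine ⟨⟨-v.a, -v.b, -v.c⟩, ?_, by simpa using h, ?_, ?_, ?_⟩
    · intro h0
      apply hv
      have h1 : -v.a = 0 := congrArg V3.a h0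
      have h2 : -v.b = 0 := congrArg V3.b h0
      have h3 : -v.c = 0 := congrArg V3.c h0
      apply V3.ext
      · rw [WHP.zero_a]; linarith
      · rw [WHP.zero_b]; linarith
      · rw [WHP.zero_c]; linarith
    · push_cast
      rw [abs_neg]
    · have : be t ⟨-v.a, -v.b, -v.c⟩ = -be t v := by
        simp only [be]
        push_cast
        ring
      rw [this, abs_neg]
    · have : ga t ⟨-v.a, -v.b, -v.c⟩ = -ga t v := by
        simp only [ga]
        push_cast
        ring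
      rw [this, abs_neg]

end DIR

open DIR in
theorem DIR_thm (hcl : Claim1) : Dir := by
  intro i x y b p q A hS hp hq hA1 hA2 hz
  have hb : (1000000 : ℝ) ≤ b := hS.hb0
  have hb0 : (0 : ℝ) < b := by linarith
  have hb1 : (1 : ℝ) ≤ b := by linarith
  obtain ⟨d, hd⟩ : ∃ d : ℝ, d = |(det y : ℝ)| := ⟨_, rfl⟩
  obtain ⟨Y, hY⟩ : ∃ Y : ℝ, Y = (y.a : ℝ) := ⟨_, rfl⟩
  have hd1 : 1 ≤ d := by
    rw [hd]
    exact_mod_cast Int.one_le_abs hS.hdet
  have hd0 : 0 < d := by linarith
  have hdi : d ≤ b ^ (240 - 36 * i) := by rw [hd]; exact hS.hd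
  have hd2 : d ≤ b ^ 240 := hdi.trans (pow_le_pow_right₀ hb1 (by omega))
  have hdsq : (det y : ℝ) ^ 2 = d ^ 2 := by rw [hd, sq_abs]
  have hYb : b ^ 1213 ≤ Y := by
    rw [hY, ← hS.hby]
    exact pow_le_pow_right₀ hb1 (by norm_num [NN])
  have hY1 : 1 ≤ Y := (one_le_pow₀ hb1).trans hYb
  have hY0 : 0 < Y := by linarith
  rw [← hd] at hA2
  have hP : Par b d A p q (Real.sqrt (|q| * b ^ 80 / d ^ 2))
      (max (1 / (128 * b ^ 2 * A ^ 2)) (16 * A * Real.sqrt (|q| * b ^ 80 / d ^ 2)))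
      (8 * A / (max (1 / (128 * b ^ 2 * A ^ 2)) (16 * A * Real.sqrt (|q| * b ^ 80 / d ^ 2)))) := by
    have hA0 : 0 < A := lt_of_lt_of_le (by positivity) hA1
    refine ⟨hb, hd1, hd2, hA1, hA2, hp, hq, ?_, Real.sqrt_nonneg _, rfl, ?_⟩
    · rw [Real.sq_sqrt (by positivity)]
      field_simp
    · have : 0 < max (1 / (128 * b ^ 2 * A ^ 2))
          (16 * A * Real.sqrt (|q| * b ^ 80 / d ^ 2)) :=
        lt_of_lt_of_le (by positivity) (le_max_left _ _)
      field_simp
  generalize Real.sqrt (|q| * b ^ 80 / d ^ 2) = r at hP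
  generalize max (1 / (128 * b ^ 2 * A ^ 2)) (16 * A * r) = X at hP
  generalize 8 * A / X = C at hP
  have hA0 := hP.A0
  have hX0 := hP.X0
  have hC0 := hP.C0
  have hXle := hP.Xle
  have hX80 : X ≤ 1 / b ^ 80 :=
    hXle.trans (kd hb 80 1 90 (by norm_num) (by norm_num))
  have hX12 : X ≤ 1 / 2 := by
    have h1 := kd hb 0 1 90 (K := 64) (by norm_num) (by norm_num)
    have h2 : 64 / b ^ 90 = 2 * (32 / b ^ 90) := by ring
    rw [h2, pow_zero] at h1
    linarith
  obtain ⟨v, hv0, hva, hvb, hvc⟩ := WHP.box (tt y) (d / (2 * A) * Y ^ 2 / d ^ 2) (X / d)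
    (C * d ^ 2 / Y ^ 2) (by positivity)
    (by
      rw [div_le_one hd0]
      linarith) (by positivity)
    (by
      rw [div_le_one (by positivity)]
      calc C * d ^ 2 ≤ b ^ 733 * (b ^ 240) ^ 2 :=
            mul_le_mul hP.Cle (pow_le_pow_left₀ hd0.le hd2 2) (by positivity) (by positivity)
        _ = b ^ 1213 := by ring
        _ ≤ Y := hYb
        _ ≤ Y ^ 2 := by nlinarith)
    (by
      have e : d / (2 * A) * Y ^ 2 / d ^ 2 * (X / d) * (C * d ^ 2 / Y ^ 2) =
          (X * C) / (2 * A) := by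
        field_simp
      rw [e, hP.hC]
      have : 8 * A / (2 * A) = 4 := by
        field_simp
        norm_num
      rw [this])
  obtain ⟨z, hz0, hza0, hza, hzb, hzc⟩ := exists_nonneg (tt y) v hv0
  rw [← hza] at hva
  rw [← hzb] at hvb
  rw [← hzc] at hvc
  -- normalised coordinates
  have hVeq : cV y z = (z.a : ℝ) * d ^ 2 / Y ^ 2 := by rw [cV, hdsq, ← hY]
  have hxeq : cx y z = be (tt y) z * d := by rw [cx, ← hd]
  have hceq : cc y z = ga (tt y) z * Y ^ 2 / d ^ 2 := by rw [cc, hdsq, ← hY]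
  have hV0 : 0 ≤ cV y z := by
    rw [hVeq]
    have : (0 : ℝ) ≤ z.a := by exact_mod_cast hza0
    positivity
  have hVle : |cV y z| ≤ d / (2 * A) := by
    rw [hVeq, abs_div, abs_mul, abs_of_pos (show 0 < d ^ 2 by positivity),
      abs_of_pos (show 0 < Y ^ 2 by positivity), div_le_iff₀ (by positivity)]
    rw [le_div_iff₀ (by positivity)] at hva
    exact hva
  have hxle : |cx y z| ≤ X := by
    rw [hxeq, abs_mul, abs_of_pos hd0]
    rwa [le_div_iff₀ hd0] at hvb
  have hcle : |cc y z| ≤ C := by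
    rw [hceq, abs_div, abs_mul, abs_of_pos (show 0 < d ^ 2 by positivity),
      abs_of_pos (show 0 < Y ^ 2 by positivity), div_le_iff₀ (by positivity)]
    rwa [le_div_iff₀ (by positivity)] at hvc
  have hpx : |p * cx y z| ≤ |p| * X := by
    rw [abs_mul]
    exact mul_le_mul_of_nonneg_left hxle (abs_nonneg _)
  have hqc : |q * cc y z| ≤ |q| * C := by
    rw [abs_mul]
    exact mul_le_mul_of_nonneg_left hcle (abs_nonneg _)
  have he : cV y z = p * cx y z + q * cc y z := by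
    rcases hz z with h | h
    · exact h
    · exfalso
      rw [← hd] at h
      have h1 : |cV y z - p * cx y z - q * cc y z| ≤ d / (2 * A) + |p| * X + |q| * C := by
        calc |cV y z - p * cx y z - q * cc y z| ≤ |cV y z - p * cx y z| + |q * cc y z| :=
              abs_sub _ _
          _ ≤ (|cV y z| + |p * cx y z|) + |q * cc y z| := by
              have := abs_sub (cV y z) (p * cx y z)
              linarith
          _ ≤ _ := by linarith
      have h2 := hP.sum
      linarith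
  have hVs : cV y z ≤ |p| * X + |q| * C := by
    rw [he]
    calc p * cx y z + q * cc y z ≤ |p * cx y z| + |q * cc y z| :=
          add_le_add (le_abs_self _) (le_abs_self _)
      _ ≤ _ := add_le_add hpx hqc
  have hV107 : cV y z ≤ 5 / b ^ 107 := hVs.trans hP.small
  have hV2b : b ^ 2 * cV y z ≤ 1 / 2 := by
    calc b ^ 2 * cV y z ≤ b ^ 2 * (5 / b ^ 107) := mul_le_mul_of_nonneg_left hV107 (by positivity)
      _ = 5 / b ^ 105 := by
        rw [show b ^ 107 = b ^ 105 * b ^ 2 by ring]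
        field_simp
      _ ≤ 1 / 2 := by
        rw [div_le_div_iff₀ (by positivity) (by positivity)]
        have := kb hb 0 1 105 (K := 10) (by norm_num) (by norm_num)
        rw [pow_zero] at this
        linarith
  have hb2 : 1 ≤ b ^ 2 := one_le_pow₀ hb1
  have hV1 : cV y z < 1 := by nlinarith
  have hza_eq : (z.a : ℝ) * d ^ 2 = cV y z * Y ^ 2 := by
    rw [hVeq]
    field_simp
  have hbeq : be (tt y) z = cx y z / d := by
    rw [hxeq]
    field_simp
  have hgaq : ga (tt y) z * Y ^ 2 = cc y z * d ^ 2 := by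
    rw [hceq]
    field_simp
  have hga740 : |ga (tt y) z| * (y.a : ℝ) ^ 2 ≤ b ^ 740 * (det y : ℝ) ^ 2 := by
    rw [← hY, hdsq]
    have e : |ga (tt y) z| * Y ^ 2 = |cc y z| * d ^ 2 := by
      rw [← abs_of_pos (show 0 < Y ^ 2 by positivity), ← abs_mul, hgaq, abs_mul,
        abs_of_pos (show 0 < d ^ 2 by positivity)]
    rw [e]
    apply mul_le_mul_of_nonneg_right _ (by positivity)
    exact hcle.trans (hP.Cle.trans (pow_le_pow_right₀ hb1 (by norm_num)))
  have hdet : det z ≠ 0 := by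
    refine hcl i x y z b hS hz0 ?_ ?_ hga740
    · rw [← hY, hdsq, abs_of_nonneg (by exact_mod_cast hza0), hza_eq]
      have : 0 < Y ^ 2 := by positivity
      nlinarith
    · rw [← hd]
      have : |be (tt y) z| * d = |cx y z| := by rw [hxeq, abs_mul, abs_of_pos hd0]
      rw [this]
      exact hxle.trans hX80
  have hdz1 : (1 : ℝ) ≤ |(det z : ℝ)| := by exact_mod_cast Int.one_le_abs hdet
  have hzag : (z.a : ℝ) * ga (tt y) z = cV y z * cc y z := by
    rw [hVeq, hceq]
    field_simp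
  have hdz : (det z : ℝ) = cV y z * cc y z - be (tt y) z ^ 2 := by
    rw [WHP.det_eq (tt y) z, hzag]
  have hbe1 : |be (tt y) z| ≤ X := by
    rw [hbeq, abs_div, abs_of_pos hd0]
    calc |cx y z| / d ≤ |cx y z| / 1 :=
          div_le_div_of_nonneg_left (abs_nonneg _) (by norm_num) hd1
      _ ≤ X := by rw [div_one]; exact hxle
  have hbesq : be (tt y) z ^ 2 ≤ X ^ 2 := by
    rw [← sq_abs]
    exact pow_le_pow_left₀ (abs_nonneg _) hbe1 2
  have hVc1 : |cV y z * cc y z| = cV y z * |cc y z| := by rw [abs_mul, abs_of_nonneg hV0]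
  have hdabs : |(det z : ℝ)| ≤ cV y z * |cc y z| + be (tt y) z ^ 2 := by
    rw [hdz, ← hVc1]
    calc |cV y z * cc y z - be (tt y) z ^ 2| ≤ |cV y z * cc y z| + |be (tt y) z ^ 2| := abs_sub _ _
      _ = _ := by rw [abs_of_nonneg (sq_nonneg (be (tt y) z))]
  have hVc : 3 / 4 ≤ cV y z * |cc y z| := by nlinarith
  have hVpos : 0 < cV y z := by
    rcases hV0.lt_or_eq with h | h
    · exact h
    · exfalso
      rw [← h] at hVc
      norm_num at hVc
  have hstar := hP.star hV0 hxle hcle he hVc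
  have hza1 : 0 < z.a := by
    rcases hza0.lt_or_eq with h | h
    · exact h
    · exfalso
      rw [hVeq, ← h] at hVpos
      simp at hVpos
  have hdz2 : |(det z : ℝ)| ≤ d ^ 2 / b ^ 80 := by
    refine hdabs.trans (le_trans ?_ hP.detb)
    exact add_le_add (mul_le_mul hVs hcle (abs_nonneg _) (by positivity)) hbesq
  refine ⟨z, ⟨hza1, hdet, ?_, ?_, hga740, ?_⟩, ?_, ?_⟩
  · -- star
    rw [← hd, ← hY, hbeq, abs_div, abs_of_pos hd0]
    have e1 : (z.a : ℝ) = cV y z * Y ^ 2 / d ^ 2 := by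
      rw [← hza_eq]
      field_simp
    rw [e1]
    have e2 : b ^ 2 * Y ^ 4 * (|cx y z| / d) ^ 3 = (b ^ 2 * |cx y z| ^ 3) * (Y ^ 4 / d ^ 3) := by
      rw [div_pow]
      ring
    have e3 : d * (cV y z * Y ^ 2 / d ^ 2) ^ 2 = cV y z ^ 2 * (Y ^ 4 / d ^ 3) := by
      field_simp
    rw [e2, e3]
    exact mul_le_mul_of_nonneg_right hstar (by positivity)
  · rw [← hY, hdsq]
    calc b ^ 2 * d ^ 2 * (z.a : ℝ) = b ^ 2 * ((z.a : ℝ) * d ^ 2) := by ring
      _ = (b ^ 2 * cV y z) * Y ^ 2 := by rw [hza_eq]; ring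
      _ ≤ 1 * Y ^ 2 := by
        apply mul_le_mul_of_nonneg_right _ (by positivity)
        linarith
      _ = Y ^ 2 := one_mul _
  · exact hbe1.trans hX12
  · by_contra hi
    have hi6 : i = 6 := by
      have := hS.hi
      omega
    rw [hi6] at hdi
    norm_num at hdi
    have h1 := hP.dge.trans hdi
    rw [div_le_iff₀ (by norm_num)] at h1
    have h2 := kb hb 24 2 41 (K := 2048) (by norm_num) (by norm_num)
    have h3 : 0 < b ^ 24 := by positivity
    linarith
  · rw [hdsq]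
    rwa [le_div_iff₀ (by positivity)] at hdz2

end WHS
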