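import Pool.Agent.WHS.Stmts

/-!
# DIST: metric facts on a child
-/

namespace WHS

open WHP (V3 det be ga dot cross lin tt Sm NN B0)

namespace DIST

theorem abs_det_ge {i : ℕ} {x y : V3} {b : ℝ} (hs : St i x y b) : 1 ≤ |(det y : ℝ)| := by
  have h : (1 : ℤ) ≤ |det y| := Int.one_le_abs hs.hdet
  exact_mod_cast h

theorem b_ge {i : ℕ} {x y : V3} {b : ℝ} (hs : St i x y b) : (1000000 : ℝ) ≤ b := hs.hb0

theorem b_one {i : ℕ} {x y : V3} {b : ℝ} (hs : St i x y b) : (1 : ℝ) ≤ b := by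
  have := b_ge hs
  linarith

theorem abs_det_le {i : ℕ} {x y : V3} {b : ℝ} (hs : St i x y b) :
    |(det y : ℝ)| ≤ b ^ 240 :=
  hs.hd.trans (pow_le_pow_right₀ (b_one hs) (Nat.sub_le _ _))

/-- `Y² ≤ b^1221 Z` -/
theorem sq_le {i : ℕ} {x y z : V3} {b bz : ℝ} (hs : St i x y b) (hc : Ch y z b bz) :
    (y.a : ℝ) ^ 2 ≤ b ^ 1221 * z.a := by
  have hz : (0 : ℝ) < z.a := by exact_mod_cast hc.cand.hpos
  have hb : (0 : ℝ) < b := lt_of_lt_of_le one_pos (b_one hs)
  have h1 := hc.h1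
  have h2 : (det y : ℝ) ^ 2 ≤ b ^ 480 := by
    have h3 := abs_det_le hs
    have h4 : |(det y : ℝ)| ^ 2 ≤ (b ^ 240) ^ 2 := pow_le_pow_left₀ (abs_nonneg _) h3 2
    rw [sq_abs, ← pow_mul] at h4
    exact h4
  have h5 : b ^ 741 * (det y : ℝ) ^ 2 * z.a ≤ b ^ 741 * b ^ 480 * z.a := by gcongr
  rw [← pow_add] at h5
  exact h1.trans h5

/-- `b^1998779 ≤ Z` -/
theorem z_ge {i : ℕ} {x y z : V3} {b bz : ℝ} (hs : St i x y b) (hc : Ch y z b bz) :
    b ^ 1998779 ≤ (z.a : ℝ) := by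
  have hb : (0 : ℝ) < b := lt_of_lt_of_le one_pos (b_one hs)
  have h1 := sq_le hs hc
  rw [← hs.hby, ← pow_mul] at h1
  have h2 : b ^ (NN * 2) = b ^ 1221 * b ^ 1998779 := by
    rw [← pow_add]
    exact congrArg (fun n : ℕ => b ^ n) (rfl : NN * 2 = 1221 + 1998779)
  rw [h2] at h1
  exact le_of_mul_le_mul_left h1 (pow_pos hb _)

theorem pow1 {i : ℕ} {x y z : V3} {b bz : ℝ} (hs : St i x y b) (hc : Ch y z b bz) :
    b ^ 1998 ≤ bz ^ 1000 := by
  have hb1 := b_one hs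
  have hb : (0 : ℝ) < b := lt_of_lt_of_le one_pos hb1
  have h1 := z_ge hs hc
  rw [← hc.hbz] at h1
  have h2 : (b ^ 1998) ^ 1000 ≤ (bz ^ 1000) ^ 1000 := by
    rw [← pow_mul, ← pow_mul]
    calc b ^ (1998 * 1000) ≤ b ^ 1998779 := pow_le_pow_right₀ hb1 (by norm_num)
      _ ≤ bz ^ NN := h1
      _ = bz ^ (1000 * 1000) := by norm_num
  exact (pow_le_pow_iff_left₀ (pow_nonneg hb.le _) (pow_nonneg hc.hbz0.le _)
    (by norm_num)).1 h2

theorem le_bz {i : ℕ} {x y z : V3} {b bz : ℝ} (hs : St i x y b) (hc : Ch y z b bz) :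
    b ≤ bz := by
  have hb1 := b_one hs
  have hb : (0 : ℝ) < b := lt_of_lt_of_le one_pos hb1
  have h1 := pow1 hs hc
  have h2 : b ^ 1000 ≤ bz ^ 1000 := (pow_le_pow_right₀ hb1 (by norm_num)).trans h1
  exact (pow_le_pow_iff_left₀ hb.le hc.hbz0.le (by norm_num)).1 h2

theorem a_lt {i : ℕ} {x y z : V3} {b bz : ℝ} (hs : St i x y b) (hc : Ch y z b bz) :
    (y.a : ℝ) + 1 ≤ z.a := by
  have hb1 := b_one hs
  have hb : (0 : ℝ) < b := lt_of_lt_of_le one_pos hb1
  have h1 := z_ge hs hc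
  have hy : (1 : ℝ) ≤ y.a := by
    have : (1 : ℤ) ≤ y.a := hc.h0
    exact_mod_cast this
  have h2 : b ^ 1998779 = b ^ NN * b ^ 998779 := by rw [← pow_add]
  rw [h2, hs.hby] at h1
  have h3 : (2 : ℝ) ≤ b ^ 998779 := by
    calc (2 : ℝ) ≤ b := by have := b_ge hs; linarith
      _ = b ^ 1 := (pow_one b).symm
      _ ≤ b ^ 998779 := pow_le_pow_right₀ hb1 (by norm_num)
  nlinarith

/-- `b^(2000001) ≤ bz^1900000` -/
theorem bz_big {i : ℕ} {x y z : V3} {b bz : ℝ} (hs : St i x y b) (hc : Ch y z b bz) :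
    b ^ 2000001 ≤ bz ^ 1900000 := by
  have hb1 := b_one hs
  have hb : (0 : ℝ) < b := lt_of_lt_of_le one_pos hb1
  have h1 := pow1 hs hc
  have h2 : (b ^ 1998) ^ 1900 ≤ (bz ^ 1000) ^ 1900 := pow_le_pow_left₀ (pow_nonneg hb.le _) h1 _
  rw [← pow_mul, ← pow_mul] at h2
  calc b ^ 2000001 ≤ b ^ (1998 * 1900) := pow_le_pow_right₀ hb1 (by norm_num)
    _ ≤ bz ^ (1000 * 1900) := h2
    _ = bz ^ 1900000 := by norm_num

theorem inv_bz_le {i : ℕ} {x y z : V3} {b bz : ℝ} (hs : St i x y b) (hc : Ch y z b bz) :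
    1 / bz ^ 1900000 ≤ 1 / b ^ 2000001 := by
  have hb1 := b_one hs
  have hb : (0 : ℝ) < b := lt_of_lt_of_le one_pos hb1
  exact one_div_le_one_div_of_le (pow_pos hb _) (bz_big hs hc)

theorem tt_sub_le {i : ℕ} {x y z : V3} {b bz : ℝ} (hs : St i x y b) (hc : Ch y z b bz) :
    |tt z - tt y| ≤ 1 / b ^ 1999390 := by
  have hb1 := b_one hs
  have hb : (0 : ℝ) < b := lt_of_lt_of_le one_pos hb1
  have h4 := hc.h4
  have hz : b ^ 999389 ≤ √(z.a : ℝ) := by
    apply Real.le_sqrt_of_sq_le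
    rw [← pow_mul]
    calc b ^ (999389 * 2) ≤ b ^ 1998779 := pow_le_pow_right₀ hb1 (by norm_num)
      _ ≤ z.a := z_ge hs hc
  have h5 : b ^ 1999390 ≤ b * y.a * √(z.a : ℝ) := by
    have h6 : b ^ 1999390 = b * b ^ NN * b ^ 999389 := by
      have : b * b ^ NN = b ^ (NN + 1) := (pow_succ' b NN).symm
      rw [this, ← pow_add]
    rw [h6, hs.hby]
    have hy : (0 : ℝ) ≤ b * y.a := by
      have : (0 : ℝ) < y.a := by exact_mod_cast hc.h0
      positivity
    exact mul_le_mul_of_nonneg_left hz hy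
  rw [le_div_iff₀ (pow_pos hb _)]
  exact (mul_le_mul_of_nonneg_left h5 (abs_nonneg _)).trans h4

theorem sub_II {i : ℕ} {x y z : V3} {b bz : ℝ} (hs : St i x y b) (hc : Ch y z b bz) :
    II z bz ⊆ II y b := by
  have hb1 := b_one hs
  have hb : (0 : ℝ) < b := lt_of_lt_of_le one_pos hb1
  have h1 := tt_sub_le hs hc
  have h2 := inv_bz_le hs hc
  have h3 : (1 : ℝ) / b ^ 1999390 ≤ 1 / b ^ 1900000 / 2 := by
    rw [div_div, div_le_div_iff₀ (pow_pos hb _) (by positivity)]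
    have h4 : b ^ 1999390 = b ^ 1900000 * b ^ 99390 := by rw [← pow_add]
    have h5 : (2 : ℝ) ≤ b ^ 99390 := by
      calc (2 : ℝ) ≤ b := by have := b_ge hs; linarith
        _ = b ^ 1 := (pow_one b).symm
        _ ≤ b ^ 99390 := pow_le_pow_right₀ hb1 (by norm_num)
    rw [h4, one_mul, one_mul]
    exact mul_le_mul_of_nonneg_left h5 (pow_nonneg hb.le _)
  have h6 : (1 : ℝ) / b ^ 2000001 ≤ 1 / b ^ 1999390 :=
    one_div_le_one_div_of_le (pow_pos hb _) (pow_le_pow_right₀ hb1 (by norm_num))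
  have h7 := abs_le.1 h1
  have h8 : 1 / bz ^ 1900000 ≤ 1 / b ^ 1900000 / 2 := (h2.trans h6).trans h3
  have h9 := h7.2.trans h3
  have h10 : -(1 / b ^ 1900000 / 2) ≤ tt z - tt y := le_trans (neg_le_neg h3) h7.1
  intro s hs'
  unfold II at hs' ⊢
  rw [Set.mem_Icc] at hs' ⊢
  generalize (1 : ℝ) / bz ^ 1900000 = A at *
  generalize (1 : ℝ) / b ^ 1900000 = B at *
  constructor <;> linarith [hs'.1, hs'.2]

theorem cV_pos {i : ℕ} {x y z : V3} {b bz : ℝ} (hs : St i x y b) (hc : Ch y z b bz) :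
    0 < cV y z := by
  have hz : (0 : ℝ) < z.a := by exact_mod_cast hc.cand.hpos
  have hy : (0 : ℝ) < y.a := by exact_mod_cast hc.h0
  have hd : (det y : ℝ) ≠ 0 := by exact_mod_cast hs.hdet
  unfold cV
  positivity

theorem be_eq {y z : V3} (hz : (0 : ℝ) < z.a) : be (tt y) z = z.a * (tt z - tt y) := by
  unfold be tt
  field_simp

theorem first {i : ℕ} {x y z : V3} {b bz : ℝ} (hs : St i x y b) (hc : Ch y z b bz) (ξ : ℝ)
    (hξ : ξ ∈ II z bz) : |ξ - tt y| * (y.a : ℝ) ^ 2 * cV y z ≤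
      |(det y : ℝ)| * (|cx y z| + cV y z / 1000) := by
  have hb1 := b_one hs
  have hb : (0 : ℝ) < b := lt_of_lt_of_le one_pos hb1
  have hz : (0 : ℝ) < z.a := by exact_mod_cast hc.cand.hpos
  have hy : (0 : ℝ) < y.a := by exact_mod_cast hc.h0
  have hd1 := abs_det_ge hs
  have hV := cV_pos hs hc
  have h1 : |ξ - tt y| ≤ |tt z - tt y| + 1 / bz ^ 1900000 := by
    unfold II at hξ
    rw [Set.mem_Icc] at hξ
    generalize (1 : ℝ) / bz ^ 1900000 = A at *
    have h2 : |ξ - tt z| ≤ A := by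
      rw [abs_le]
      constructor <;> linarith [hξ.1, hξ.2]
    calc |ξ - tt y| = |(ξ - tt z) + (tt z - tt y)| := by congr 1; ring
      _ ≤ |ξ - tt z| + |tt z - tt y| := abs_add_le _ _
      _ ≤ |tt z - tt y| + A := by linarith
  have h3 : |tt z - tt y| * (y.a : ℝ) ^ 2 * cV y z = |(det y : ℝ)| * |cx y z| := by
    unfold cV cx
    rw [be_eq hz, abs_mul, abs_mul, abs_abs, abs_of_pos hz, ← sq_abs (det y : ℝ)]
    field_simp
  have h4 : 1 / bz ^ 1900000 * (y.a : ℝ) ^ 2 ≤ 1 / 1000 := by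
    have h5 := inv_bz_le hs hc
    have h6 : (y.a : ℝ) ^ 2 = b ^ 2000000 := by
      rw [← hs.hby, ← pow_mul]
      exact congrArg (fun n : ℕ => b ^ n) (rfl : NN * 2 = 2000000)
    rw [h6]
    have h7 : 1 / bz ^ 1900000 * b ^ 2000000 ≤ 1 / b ^ 2000001 * b ^ 2000000 :=
      mul_le_mul_of_nonneg_right h5 (pow_nonneg hb.le _)
    have h8 : 1 / b ^ 2000001 * b ^ 2000000 = 1 / b := by
      have h9 : b ^ 2000001 = b ^ 2000000 * b := pow_succ b 2000000
      rw [h9]
      have h10 : b ^ 2000000 ≠ 0 := pow_ne_zero _ hb.ne'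
      field_simp
    rw [h8] at h7
    refine h7.trans ?_
    apply one_div_le_one_div_of_le (by norm_num)
    have := b_ge hs
    linarith
  have h11 : |ξ - tt y| * (y.a : ℝ) ^ 2 * cV y z ≤
      (|tt z - tt y| + 1 / bz ^ 1900000) * (y.a : ℝ) ^ 2 * cV y z := by gcongr
  have h12 : (1 / bz ^ 1900000 * (y.a : ℝ) ^ 2) * cV y z ≤ 1 / 1000 * cV y z := by gcongr
  have h13 : 1 / 1000 * cV y z ≤ |(det y : ℝ)| * (cV y z / 1000) := by nlinarith
  calc |ξ - tt y| * (y.a : ℝ) ^ 2 * cV y z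
      ≤ (|tt z - tt y| + 1 / bz ^ 1900000) * (y.a : ℝ) ^ 2 * cV y z := h11
    _ = |tt z - tt y| * (y.a : ℝ) ^ 2 * cV y z
        + (1 / bz ^ 1900000 * (y.a : ℝ) ^ 2) * cV y z := by ring
    _ ≤ |(det y : ℝ)| * |cx y z| + |(det y : ℝ)| * (cV y z / 1000) := by
        rw [h3]; linarith
    _ = |(det y : ℝ)| * (|cx y z| + cV y z / 1000) := by ring

/-- `V ≥ b^{-741}` -/
theorem cV_ge {y z : V3} {b bz : ℝ} (hc : Ch y z b bz) :
    1 ≤ b ^ 741 * cV y z := by
  have hy : (0 : ℝ) < y.a := by exact_mod_cast hc.h0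
  have h1 := hc.h1
  unfold cV
  rw [mul_div_assoc', le_div_iff₀ (by positivity)]
  linarith

theorem second {i : ℕ} {x y z : V3} {b bz : ℝ} (hs : St i x y b) (hc : Ch y z b bz) :
    hh (cross y z) * |(det y : ℝ)| ≤ 4 * (y.a : ℝ) * max (|cx y z|) (cV y z) := by
  have hb1 := b_one hs
  have hb0 := b_ge hs
  have hb : (0 : ℝ) < b := lt_of_lt_of_le one_pos hb1
  have hz : (0 : ℝ) < z.a := by exact_mod_cast hc.cand.hpos
  have hy : (0 : ℝ) < y.a := by exact_mod_cast hc.h0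
  have hd1 := abs_det_ge hs
  have hdle := abs_det_le hs
  have hV := cV_pos hs hc
  have hVge := cV_ge hc
  set t := tt y with ht
  set d := |(det y : ℝ)| with hd
  set Y := (y.a : ℝ) with hYdef
  set m := max (|cx y z|) (cV y z) with hm
  have hm1 : |cx y z| ≤ m := le_max_left _ _
  have hm2 : cV y z ≤ m := le_max_right _ _
  have hm0 : 0 < m := hV.trans_le hm2
  have ht0 : 0 ≤ t := by
    have := hs.ht1
    have h2 : 0 < 1 / b := by positivity
    linarith
  have ht1 : t ≤ 3 / 4 := by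
    have := hs.ht2
    have h2 : 0 < 1 / b := by positivity
    linarith
  -- the third coefficient
  have hc' : ((cross y z).c : ℝ) = Y * be t z := by
    rw [WHP.cross_c t y z, ht, WHP.be_self hy.ne', zero_mul, sub_zero]
  have hC : |((cross y z).c : ℝ)| * d ≤ Y * m := by
    rw [hc', abs_mul, abs_of_pos hy]
    have h1 : |be t z| * d = |cx y z| := by
      unfold cx
      rw [abs_mul, abs_abs]
    rw [mul_assoc, h1]
    exact mul_le_mul_of_nonneg_left hm1 hy.le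
  -- the derivative
  have hYb : b ^ NN = Y := hs.hby
  have hYbig : 100 * b ^ 2201 ≤ Y ^ 2 := by
    rw [← hYb, ← pow_mul]
    calc 100 * b ^ 2201 ≤ b * b ^ 2201 := by gcongr; linarith
      _ = b ^ 2202 := by rw [← pow_succ']
      _ ≤ b ^ (NN * 2) := pow_le_pow_right₀ hb1 (by norm_num)
  have hdY : 100 * d ≤ Y := by
    rw [← hYb]
    calc 100 * d ≤ b * b ^ 240 := by gcongr; linarith
      _ = b ^ 241 := by rw [← pow_succ']
      _ ≤ b ^ NN := pow_le_pow_right₀ hb1 (by norm_num)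
  have hder' : ((cross y z).b : ℝ) + 2 * (cross y z).c * t
      = -(Y * ga t z - (det y : ℝ) / Y * z.a) := by
    rw [WHP.cross_der t y z, ht, WHP.ga_self hy.ne']
  have hga : |Y * ga t z| * d ≤ Y * m / 100 := by
    have h1 : |ga t z| * Y ^ 2 ≤ b ^ 740 * d ^ 2 := by
      have := hc.cand.hga
      rw [hd, sq_abs]
      exact this
    -- multiply by 100 d b^741
    have h2 : 100 * (|Y * ga t z| * d) * Y ≤ Y * m * Y := by
      have h3 : |Y * ga t z| * Y = |ga t z| * Y ^ 2 := by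
        rw [abs_mul, abs_of_pos hy]; ring
      have h4 : 100 * (|Y * ga t z| * d) * Y = 100 * d * (|ga t z| * Y ^ 2) := by
        rw [← h3]; ring
      rw [h4]
      have h5 : 100 * d * (|ga t z| * Y ^ 2) ≤ 100 * d * (b ^ 740 * d ^ 2) := by gcongr
      have h6 : 100 * d * (b ^ 740 * d ^ 2) ≤ 100 * b ^ 240 * (b ^ 740 * (b ^ 240) ^ 2) := by
        gcongr
      have h7 : 100 * b ^ 240 * (b ^ 740 * (b ^ 240) ^ 2) = 100 * b ^ 1460 := by ring
      have h8 : 100 * b ^ 1460 * 1 ≤ 100 * b ^ 1460 * (b ^ 741 * cV y z) := by gcongr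
      have h9 : 100 * b ^ 1460 * (b ^ 741 * cV y z) = 100 * b ^ 2201 * cV y z := by ring
      have h10 : 100 * b ^ 2201 * cV y z ≤ Y ^ 2 * m := by gcongr
      calc 100 * d * (|ga t z| * Y ^ 2) ≤ 100 * b ^ 1460 := by rw [← h7]; exact h5.trans h6
        _ = 100 * b ^ 1460 * 1 := (mul_one _).symm
        _ ≤ Y ^ 2 * m := by rw [← h9] at h10; exact h8.trans h10
        _ = Y * m * Y := by ring
    have h11 := le_of_mul_le_mul_right h2 hy
    linarith
  have hde : |(det y : ℝ) / Y * z.a| * d = Y * cV y z := by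
    unfold cV
    rw [abs_mul, abs_div, abs_of_pos hy, abs_of_pos hz, ← hd, ← hYdef, ← sq_abs (det y : ℝ),
      ← hd]
    field_simp
  have hD : |((cross y z).b : ℝ) + 2 * (cross y z).c * t| * d ≤ 101 / 100 * (Y * m) := by
    rw [hder', abs_neg]
    have h1 : |Y * ga t z - (det y : ℝ) / Y * z.a| ≤ |Y * ga t z| + |(det y : ℝ) / Y * z.a| :=
      abs_sub _ _
    have hd0 : 0 ≤ d := abs_nonneg _
    have h2 := mul_le_mul_of_nonneg_right h1 hd0
    rw [add_mul, hde] at h2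
    have h3 : Y * cV y z ≤ Y * m := mul_le_mul_of_nonneg_left hm2 hy.le
    linarith
  -- the value
  have hE : |((cross y z).a : ℝ) + (cross y z).b * t + (cross y z).c * t ^ 2| * d
      ≤ Y * m / 100 := by
    rw [WHP.cross_val t y z, ht, WHP.be_self hy.ne', zero_mul, zero_sub, abs_neg,
      WHP.ga_self hy.ne', abs_mul, abs_div, abs_of_pos hy, ← hd, ← ht]
    have h1 : |be t z| * d = |cx y z| := by
      unfold cx
      rw [abs_mul, abs_abs]
    have h2 : d / Y * |be t z| * d = d * |cx y z| / Y := by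
      rw [← h1]; ring
    rw [h2, div_le_iff₀ hy]
    have h3 : d * |cx y z| ≤ d * m := mul_le_mul_of_nonneg_left hm1 (abs_nonneg _)
    have h4 : 100 * d * m ≤ Y * m := mul_le_mul_of_nonneg_right hdY hm0.le
    have h5 : Y * m ≤ Y * m * Y := by
      have : 1 ≤ Y := by linarith
      have h6 : 0 ≤ Y * m := by positivity
      nlinarith
    have h7 : Y * m / 100 * Y = (Y * m * Y) / 100 := by ring
    rw [h7]
    linarith
  have hd0 : 0 < d := by linarith
  have hYm : 0 ≤ Y * m := by positivity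
  -- conclude: multiply coefficients by d
  have hb' : |((cross y z).b : ℝ)| * d ≤ 251 / 100 * (Y * m) := by
    have h1 : ((cross y z).b : ℝ) = (((cross y z).b : ℝ) + 2 * (cross y z).c * t)
        - 2 * (cross y z).c * t := by ring
    have h2 : |((cross y z).b : ℝ)| ≤ |((cross y z).b : ℝ) + 2 * (cross y z).c * t|
        + |2 * ((cross y z).c : ℝ) * t| := by
      conv_lhs => rw [h1]
      exact abs_sub _ _
    have h3 : |2 * ((cross y z).c : ℝ) * t| * d ≤ 3 / 2 * (Y * m) := by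
      rw [abs_mul, abs_mul, abs_of_nonneg ht0, abs_of_pos (by norm_num : (0 : ℝ) < 2)]
      have h4 : 2 * |((cross y z).c : ℝ)| * t * d = 2 * t * (|((cross y z).c : ℝ)| * d) := by
        ring
      rw [h4]
      have h5 : 2 * t * (|((cross y z).c : ℝ)| * d) ≤ 2 * t * (Y * m) :=
        mul_le_mul_of_nonneg_left hC (by linarith)
      have h6 : 2 * t * (Y * m) ≤ 3 / 2 * (Y * m) := mul_le_mul_of_nonneg_right (by linarith) hYm
      linarith
    have h7 := mul_le_mul_of_nonneg_right h2 hd0.le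
    rw [add_mul] at h7
    linarith
  have ha' : |((cross y z).a : ℝ)| * d ≤ 4 * (Y * m) := by
    have h1 : ((cross y z).a : ℝ) = ((cross y z).a + (cross y z).b * t
        + (cross y z).c * t ^ 2) - (((cross y z).b : ℝ) * t + (cross y z).c * t ^ 2) := by ring
    have h2 : |((cross y z).a : ℝ)| ≤ |((cross y z).a : ℝ) + (cross y z).b * t
        + (cross y z).c * t ^ 2| + (|((cross y z).b : ℝ)| * t + |((cross y z).c : ℝ)| * t ^ 2) := by
      conv_lhs => rw [h1]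
      refine (abs_sub _ _).trans ?_
      have h3 : |((cross y z).b : ℝ) * t + (cross y z).c * t ^ 2|
          ≤ |((cross y z).b : ℝ)| * t + |((cross y z).c : ℝ)| * t ^ 2 := by
        refine (abs_add_le _ _).trans ?_
        rw [abs_mul, abs_mul, abs_of_nonneg ht0, abs_of_nonneg (pow_nonneg ht0 2)]
      linarith
    have h7 := mul_le_mul_of_nonneg_right h2 hd0.le
    have h8 : (|((cross y z).b : ℝ)| * t + |((cross y z).c : ℝ)| * t ^ 2) * d
        = t * (|((cross y z).b : ℝ)| * d) + t ^ 2 * (|((cross y z).c : ℝ)| * d) := by ring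
    rw [add_mul, h8] at h7
    have h9 : t * (|((cross y z).b : ℝ)| * d) ≤ 3 / 4 * (251 / 100 * (Y * m)) := by
      refine mul_le_mul ht1 hb' (by positivity) (by norm_num)
    have h10 : t ^ 2 * (|((cross y z).c : ℝ)| * d) ≤ 9 / 16 * (Y * m) := by
      refine mul_le_mul ?_ hC (by positivity) (by norm_num)
      nlinarith
    linarith
  have hfin : 4 * Y * m = 4 * (Y * m) := by ring
  rw [hfin]
  unfold hh
  rw [max_mul_of_nonneg _ _ hd0.le, max_mul_of_nonneg _ _ hd0.le]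
  refine max_le ha' (max_le ?_ ?_)
  · linarith
  · linarith

end DIST

open DIST in
theorem DIST_thm : Dist := by
  intro i j x y z b bz hs hs' hc
  exact ⟨pow1 hs hc, le_bz hs hc, a_lt hs hc, sub_II hs hc,
    fun ξ hξ => ⟨first hs hc ξ hξ, second hs hc⟩⟩

end WHS
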