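import Pool.Agent.WHS.Stmts

/-!
# FAM: a family of candidates
-/

namespace WHS

open WHP (V3 det be ga dot cross lin tt Sm NN B0)

namespace FAM

theorem b0 {i x y b} (h : St i x y b) : (1000000 : ℝ) ≤ b := by
  have := h.hb0; norm_num [B0] at this; linarith

theorem Ypos {i x y b} (h : St i x y b) : (0 : ℝ) < y.a := by
  rw [← h.hby]
  have := b0 h
  exact pow_pos (by linarith) _

theorem d1 {i x y b} (h : St i x y b) : (1 : ℝ) ≤ |(det y : ℝ)| := by
  have := Int.one_le_abs h.hdet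
  exact_mod_cast this

theorem cV_eq {i x y b} (h : St i x y b) (v : V3) :
    (v.a : ℝ) * |(det y : ℝ)| ^ 2 = cV y v * (y.a : ℝ) ^ 2 := by
  have hY := Ypos h
  unfold cV
  rw [sq_abs]
  field_simp

theorem cx_eq (y v : V3) :
    be (tt y) v * |(det y : ℝ)| = cx y v := rfl

theorem cc_eq {i x y b} (h : St i x y b) (v : V3) :
    ga (tt y) v * (y.a : ℝ) ^ 2 = cc y v * |(det y : ℝ)| ^ 2 := by
  have hd : (det y : ℝ) ≠ 0 := by exact_mod_cast h.hdet
  unfold cc
  rw [sq_abs]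
  field_simp

theorem cV_lin (y v w : V3) (l : ℤ) : cV y (lin l v 1 w) = l * cV y v + cV y w := by
  unfold cV
  rw [WHP.a_lin]
  push_cast
  ring

theorem cx_lin (y v w : V3) (l : ℤ) : cx y (lin l v 1 w) = l * cx y v + cx y w := by
  unfold cx
  rw [WHP.be_lin]
  push_cast
  ring

theorem cc_lin (y v w : V3) (l : ℤ) : cc y (lin l v 1 w) = l * cc y v + cc y w := by
  unfold cc
  rw [WHP.ga_lin]
  push_cast
  ring

theorem nu_le {b : ℝ} {y v : V3} {r : ℝ} (hb : 0 < b) (h : nu b y v ≤ r) :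
    |cV y v| * b ^ 3 ≤ r ∧ |cx y v| * b ^ 90 ≤ r ∧ |cc y v| ≤ r * b ^ 481 := by
  unfold nu at h
  have h1 := (le_max_left _ _).trans h
  have h2 := ((le_max_left _ _).trans (le_max_right _ _)).trans h
  have h3 := ((le_max_right _ _).trans (le_max_right _ _)).trans h
  refine ⟨h1, h2, ?_⟩
  rw [div_le_iff₀ (by positivity)] at h3
  exact h3

/-- powers of `b` -/
theorem pw {b : ℝ} (hb : (1000000 : ℝ) ≤ b) {m n : ℕ} (hmn : m ≤ n) : b ^ m ≤ b ^ n :=
  pow_le_pow_right₀ (by linarith) hmn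

/-- candidates in normalised coordinates -/
theorem cand {i x y b} (hC : Claim1) (h : St i x y b) {z : V3}
    (hV : |cV y z| * b ^ 3 ≤ 2) (hx : |cx y z| * b ^ 90 ≤ 2) (hc : |cc y z| ≤ 2 * b ^ 481)
    (hlow : 3 / b ^ 134 ≤ cV y z) :
    Cand y z b ∧ |(det z : ℝ)| ≤ 5 * b ^ 478 := by
  have hb := b0 h
  have hb1 : (1 : ℝ) ≤ b := by linarith
  have hbp : (0 : ℝ) < b := by linarith
  have hY := Ypos h
  have hd := d1 h
  have eV := cV_eq h z
  have ex := cx_eq y z
  have ec := cc_eq h z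
  have e2 : (det y : ℝ) ^ 2 = |(det y : ℝ)| ^ 2 := (sq_abs _).symm
  have edet := WHP.det_eq (tt y) z
  set d := |(det y : ℝ)| with hdd
  set Y : ℝ := (y.a : ℝ) with hYY
  set t := tt y with htt
  set V := cV y z with hVV
  set X := cx y z with hXX
  set C := cc y z with hCC
  have hdpos : 0 < d := by linarith
  have hY2 : 0 < Y ^ 2 := by positivity
  have hd2 : 0 < d ^ 2 := by positivity
  have hd1sq : 1 ≤ d ^ 2 := one_le_pow₀ hd
  have hVpos : 0 < V := lt_of_lt_of_le (by positivity) hlow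
  rw [abs_of_pos hVpos] at hV
  -- basic bounds
  have hb3 : b ^ 1 ≤ b ^ 3 := pw hb (by norm_num)
  rw [pow_one] at hb3
  have hb90 : b ^ 81 ≤ b ^ 90 := pw hb (by norm_num)
  have hb90' : (4 : ℝ) ≤ b ^ 90 := by
    have : b ^ 1 ≤ b ^ 90 := pw hb (by norm_num)
    rw [pow_one] at this
    linarith
  have hX0 : 0 ≤ |X| := abs_nonneg _
  have hXhalf : |X| ≤ 1 / 2 := by
    nlinarith
  have hV1 : V < 1 := by
    have : V * 1000000 ≤ V * b ^ 3 := by
      apply mul_le_mul_of_nonneg_left _ hVpos.le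
      linarith
    linarith
  -- sign of z.a
  have zpos : (0 : ℝ) < z.a := by
    by_contra hneg
    push Not at hneg
    have h1 : (z.a : ℝ) * d ^ 2 ≤ 0 := mul_nonpos_of_nonpos_of_nonneg hneg hd2.le
    have h2 : 0 < V * Y ^ 2 := by positivity
    linarith
  have zpos' : 0 < z.a := by exact_mod_cast zpos
  have hzne : z ≠ 0 := by
    intro h0
    rw [h0, WHP.zero_a] at zpos'
    exact lt_irrefl _ zpos'
  -- hypotheses of CLAIM1
  have g1 : |(z.a : ℝ)| * (det y : ℝ) ^ 2 < Y ^ 2 := by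
    rw [abs_of_pos zpos, e2, eV]
    have : V * Y ^ 2 < 1 * Y ^ 2 := mul_lt_mul_of_pos_right hV1 hY2
    linarith
  have g2 : |be t z| * d ≤ 1 / b ^ 80 := by
    have e : |be t z| * d = |X| := by
      rw [← ex, abs_mul, abs_of_pos hdpos]
    rw [e, le_div_iff₀ (by positivity)]
    have k1 : |X| * b ^ 80 * b ≤ |X| * b ^ 90 := by
      have : b ^ 81 = b ^ 80 * b := by ring
      rw [mul_assoc, ← this]
      exact mul_le_mul_of_nonneg_left hb90 hX0
    have k3 : 0 ≤ |X| * b ^ 80 := mul_nonneg hX0 (pow_nonneg hbp.le 80)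
    have k2 : |X| * b ^ 80 * 1000000 ≤ |X| * b ^ 80 * b :=
      mul_le_mul_of_nonneg_left hb k3
    linarith
  have g3 : |ga t z| * Y ^ 2 ≤ b ^ 740 * (det y : ℝ) ^ 2 := by
    have e : |ga t z| * Y ^ 2 = |C| * d ^ 2 := by
      have := congrArg abs ec
      rwa [abs_mul, abs_mul, abs_of_pos hY2, abs_of_pos hd2] at this
    rw [e, e2]
    apply mul_le_mul_of_nonneg_right _ hd2.le
    have k1 : b ^ 482 ≤ b ^ 740 := pw hb (by norm_num)
    have k2 : b ^ 482 = b ^ 481 * b := pow_succ b 481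
    have k3 : 0 < b ^ 481 := by positivity
    have k4 : b ^ 481 * 1000000 ≤ b ^ 481 * b := mul_le_mul_of_nonneg_left hb k3.le
    linarith
  have hdetz : det z ≠ 0 := hC i x y z b h hzne g1 g2 g3
  have eX : |be t z| * d = |X| := by
    rw [← ex, abs_mul, abs_of_pos hdpos]
  have hbe : |be t z| ≤ 1 / 2 := by
    have k1 : |be t z| * 1 ≤ |be t z| * d := mul_le_mul_of_nonneg_left hd (abs_nonneg _)
    linarith
  refine ⟨⟨zpos', hdetz, ?_, ?_, g3, hbe⟩, ?_⟩
  · -- star
    have k1 : b ^ 2 * |X| ^ 3 ≤ V ^ 2 := by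
      have l1 : (|X| * b ^ 90) ^ 3 ≤ 2 ^ 3 := by
        gcongr
      have l2 : 3 ≤ V * b ^ 134 := by
        rw [div_le_iff₀ (by positivity)] at hlow
        linarith
      have l3 : (3 : ℝ) ^ 2 ≤ (V * b ^ 134) ^ 2 := by
        gcongr
      have l4 : b ^ 2 * |X| ^ 3 * b ^ 268 ≤ V ^ 2 * b ^ 268 := by
        calc b ^ 2 * |X| ^ 3 * b ^ 268 = (|X| * b ^ 90) ^ 3 := by ring
          _ ≤ 2 ^ 3 := l1
          _ ≤ 3 ^ 2 := by norm_num
          _ ≤ (V * b ^ 134) ^ 2 := l3
          _ = V ^ 2 * b ^ 268 := by ring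
      exact le_of_mul_le_mul_right l4 (by positivity)
    have k2 : b ^ 2 * Y ^ 4 * |be t z| ^ 3 * d ^ 3 ≤ d * (z.a : ℝ) ^ 2 * d ^ 3 := by
      calc b ^ 2 * Y ^ 4 * |be t z| ^ 3 * d ^ 3 = (b ^ 2 * (|be t z| * d) ^ 3) * Y ^ 4 := by ring
        _ = (b ^ 2 * |X| ^ 3) * Y ^ 4 := by rw [eX]
        _ ≤ V ^ 2 * Y ^ 4 := by gcongr
        _ = (V * Y ^ 2) ^ 2 := by ring
        _ = ((z.a : ℝ) * d ^ 2) ^ 2 := by rw [eV]
        _ = d * (z.a : ℝ) ^ 2 * d ^ 3 := by ring
    exact le_of_mul_le_mul_right k2 (by positivity)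
  · -- range
    rw [e2]
    have k1 : b ^ 2 * d ^ 2 * (z.a : ℝ) = b ^ 2 * V * Y ^ 2 := by
      have : b ^ 2 * d ^ 2 * (z.a : ℝ) = b ^ 2 * ((z.a : ℝ) * d ^ 2) := by ring
      rw [this, eV]; ring
    rw [k1]
    have k2 : b ^ 2 * V ≤ 1 := by
      have l1 : b ^ 2 * V * 1000000 ≤ b ^ 2 * V * b :=
        mul_le_mul_of_nonneg_left hb (by positivity)
      have l2 : b ^ 2 * V * b = V * b ^ 3 := by ring
      have l3 : 0 ≤ b ^ 2 * V := by positivity
      nlinarith
    calc b ^ 2 * V * Y ^ 2 ≤ 1 * Y ^ 2 := mul_le_mul_of_nonneg_right k2 hY2.le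
      _ = Y ^ 2 := one_mul _
  · -- determinant
    rw [edet]
    have k0 : (z.a : ℝ) * ga t z = V * C := by
      have l1 : ((z.a : ℝ) * d ^ 2) * (ga t z * Y ^ 2) = (V * Y ^ 2) * (C * d ^ 2) := by
        rw [eV, ec]
      have l2 : ((z.a : ℝ) * ga t z) * (d ^ 2 * Y ^ 2) = (V * C) * (d ^ 2 * Y ^ 2) := by
        calc _ = ((z.a : ℝ) * d ^ 2) * (ga t z * Y ^ 2) := by ring
          _ = (V * Y ^ 2) * (C * d ^ 2) := l1
          _ = _ := by ring
      exact mul_right_cancel₀ (by positivity) l2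
    rw [k0]
    have k1 : |V * C - be t z ^ 2| ≤ V * |C| + be t z ^ 2 := by
      refine (abs_sub _ _).trans ?_
      rw [abs_mul, abs_of_pos hVpos, abs_of_nonneg (sq_nonneg (be t z))]
    have k2 : be t z ^ 2 ≤ 1 / 4 := by
      rw [← sq_abs]
      have := abs_nonneg (be t z)
      nlinarith
    have k3 : V * |C| ≤ 4 * b ^ 478 := by
      have l1 : V * |C| * b ^ 3 ≤ 4 * b ^ 478 * b ^ 3 := by
        calc V * |C| * b ^ 3 = (V * b ^ 3) * |C| := by ring
          _ ≤ 2 * (2 * b ^ 481) := by gcongr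
          _ = _ := by ring
      exact le_of_mul_le_mul_right l1 (by positivity)
    have k5 : (1 : ℝ) ≤ b ^ 478 := one_le_pow₀ hb1
    linarith

end FAM

theorem FAM_thm (h : Claim1) : FamLem := by
  intro i x y v w b l0 hSt hva hvw hv hw hl0 hl hU
  have hb := FAM.b0 hSt
  have hb1 : (1 : ℝ) ≤ b := by linarith
  have hbp : (0 : ℝ) < b := by linarith
  have hY := FAM.Ypos hSt
  have hd := FAM.d1 hSt
  have hdpos : 0 < |(det y : ℝ)| := by linarith
  obtain ⟨v1, v2, v3⟩ := FAM.nu_le hbp hv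
  obtain ⟨w1, w2, w3⟩ := FAM.nu_le hbp hw
  rw [one_mul] at v3 w3
  have hnu0 : 0 ≤ nu b y v := by
    unfold nu
    exact le_max_of_le_left (by positivity)
  refine ⟨v, w, l0, hvw, ?_, ?_, ?_⟩
  · -- A bound
    have ev := FAM.cc_eq hSt v
    have ew := FAM.cc_eq hSt w
    have xv := FAM.cx_eq y v
    have xw := FAM.cx_eq y w
    set d := |(det y : ℝ)| with hdd
    set Y : ℝ := (y.a : ℝ) with hYY
    set t := tt y with htt
    have hY2 : 0 < Y ^ 2 := by positivity
    have hd2 : 0 < d ^ 2 := by positivity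
    have e1 : (be t v * ga t w - ga t v * be t w) * Y ^ 2 * d =
        (cx y v * cc y w - cc y v * cx y w) * d * d := by
      calc (be t v * ga t w - ga t v * be t w) * Y ^ 2 * d =
          (be t v * d) * (ga t w * Y ^ 2) - (ga t v * Y ^ 2) * (be t w * d) := by ring
        _ = cx y v * (cc y w * d ^ 2) - (cc y v * d ^ 2) * cx y w := by rw [xv, xw, ev, ew]
        _ = _ := by ring
    have e2 : (be t v * ga t w - ga t v * be t w) * Y ^ 2 =
        (cx y v * cc y w - cc y v * cx y w) * d := mul_right_cancel₀ hdpos.ne' e1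
    have e3 : |be t v * ga t w - ga t v * be t w| * Y ^ 2 =
        |cx y v * cc y w - cc y v * cx y w| * d := by
      have := congrArg abs e2
      rwa [abs_mul, abs_mul, abs_of_pos hY2, abs_of_pos hdpos] at this
    rw [e3]
    apply mul_le_mul_of_nonneg_right _ hdpos.le
    have k1 : |cx y v * cc y w - cc y v * cx y w| ≤ |cx y v| * |cc y w| + |cc y v| * |cx y w| := by
      refine (abs_sub _ _).trans ?_
      rw [abs_mul, abs_mul]
    have k2 : |cx y v| * |cc y w| * b ^ 90 ≤ b ^ 391 * b ^ 90 := by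
      calc |cx y v| * |cc y w| * b ^ 90 = (|cx y v| * b ^ 90) * |cc y w| := by ring
        _ ≤ 1 * b ^ 481 := by gcongr
        _ = _ := by ring
    have k3 : |cc y v| * |cx y w| * b ^ 90 ≤ b ^ 391 * b ^ 90 := by
      calc |cc y v| * |cx y w| * b ^ 90 = (|cx y w| * b ^ 90) * |cc y v| := by ring
        _ ≤ 1 * b ^ 481 := by gcongr
        _ = _ := by ring
    have k4 := le_of_mul_le_mul_right k2 (by positivity)
    have k5 := le_of_mul_le_mul_right k3 (by positivity)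
    linarith
  · -- B bound
    have ev := FAM.cc_eq hSt v
    have ew := FAM.cc_eq hSt w
    have Vv := FAM.cV_eq hSt v
    have Vw := FAM.cV_eq hSt w
    set d := |(det y : ℝ)| with hdd
    set Y : ℝ := (y.a : ℝ) with hYY
    set t := tt y with htt
    have hY2 : 0 < Y ^ 2 := by positivity
    have hd2 : 0 < d ^ 2 := by positivity
    have e1 : ((v.a : ℝ) * ga t w - ga t v * w.a) * (d ^ 2 * Y ^ 2) =
        (cV y v * cc y w - cc y v * cV y w) * (d ^ 2 * Y ^ 2) := by
      calc ((v.a : ℝ) * ga t w - ga t v * w.a) * (d ^ 2 * Y ^ 2) =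
          ((v.a : ℝ) * d ^ 2) * (ga t w * Y ^ 2) - (ga t v * Y ^ 2) * ((w.a : ℝ) * d ^ 2) := by ring
        _ = (cV y v * Y ^ 2) * (cc y w * d ^ 2) - (cc y v * d ^ 2) * (cV y w * Y ^ 2) := by
            rw [Vv, Vw, ev, ew]
        _ = _ := by ring
    have e2 := mul_right_cancel₀ (by positivity) e1
    rw [e2]
    have k1 : |cV y v * cc y w - cc y v * cV y w| ≤ |cV y v| * |cc y w| + |cc y v| * |cV y w| := by
      refine (abs_sub _ _).trans ?_
      rw [abs_mul, abs_mul]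
    have k2 : |cV y v| * |cc y w| * b ^ 3 ≤ b ^ 478 * b ^ 3 := by
      calc |cV y v| * |cc y w| * b ^ 3 = (|cV y v| * b ^ 3) * |cc y w| := by ring
        _ ≤ 1 * b ^ 481 := by gcongr
        _ = _ := by ring
    have k3 : |cc y v| * |cV y w| * b ^ 3 ≤ b ^ 478 * b ^ 3 := by
      calc |cc y v| * |cV y w| * b ^ 3 = (|cV y w| * b ^ 3) * |cc y v| := by ring
        _ ≤ 1 * b ^ 481 := by gcongr
        _ = _ := by ring
    have k4 := le_of_mul_le_mul_right k2 (by positivity)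
    have k5 := le_of_mul_le_mul_right k3 (by positivity)
    linarith
  · intro l hl1 hl2
    have hl0r : (0 : ℝ) ≤ l0 := by exact_mod_cast hl0
    have hlr : (l0 : ℝ) ≤ l := by exact_mod_cast hl1
    have hlp : (0 : ℝ) ≤ l := by linarith
    have habs : |(l : ℝ)| = l := abs_of_nonneg hlp
    have hlnu : (l : ℝ) * nu b y v ≤ 1 :=
      (mul_le_mul_of_nonneg_right hl2 hnu0).trans hl
    obtain ⟨u1, u2, u3⟩ := FAM.nu_le (r := nu b y v) hbp le_rfl
    have hV0 : 0 ≤ cV y v := by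
      unfold cV
      have : (0 : ℝ) ≤ v.a := by exact_mod_cast hva
      positivity
    apply FAM.cand h hSt
    · rw [FAM.cV_lin]
      have k1 : |(l : ℝ) * cV y v + cV y w| ≤ l * |cV y v| + |cV y w| := by
        refine (abs_add_le _ _).trans ?_
        rw [abs_mul, habs]
      calc |(l : ℝ) * cV y v + cV y w| * b ^ 3 ≤ (l * |cV y v| + |cV y w|) * b ^ 3 := by gcongr
        _ = l * (|cV y v| * b ^ 3) + |cV y w| * b ^ 3 := by ring
        _ ≤ l * nu b y v + 1 := by gcongr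
        _ ≤ 2 := by linarith
    · rw [FAM.cx_lin]
      have k1 : |(l : ℝ) * cx y v + cx y w| ≤ l * |cx y v| + |cx y w| := by
        refine (abs_add_le _ _).trans ?_
        rw [abs_mul, habs]
      calc |(l : ℝ) * cx y v + cx y w| * b ^ 90 ≤ (l * |cx y v| + |cx y w|) * b ^ 90 := by gcongr
        _ = l * (|cx y v| * b ^ 90) + |cx y w| * b ^ 90 := by ring
        _ ≤ l * nu b y v + 1 := by gcongr
        _ ≤ 2 := by linarith
    · rw [FAM.cc_lin]
      have k1 : |(l : ℝ) * cc y v + cc y w| ≤ l * |cc y v| + |cc y w| := by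
        refine (abs_add_le _ _).trans ?_
        rw [abs_mul, habs]
      have hb481 : 0 < b ^ 481 := by positivity
      calc |(l : ℝ) * cc y v + cc y w| ≤ l * |cc y v| + |cc y w| := k1
        _ ≤ l * (nu b y v * b ^ 481) + b ^ 481 := by gcongr
        _ = (l * nu b y v) * b ^ 481 + b ^ 481 := by ring
        _ ≤ 1 * b ^ 481 + b ^ 481 := by gcongr
        _ = 2 * b ^ 481 := by ring
    · rw [FAM.cV_lin]
      have k1 : (l0 : ℝ) * cV y v ≤ l * cV y v := mul_le_mul_of_nonneg_right hlr hV0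
      linarith

end WHS
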