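import Pool.Agent.WHS.Stmts

/-!
# The tree of states has positive dimension (module FINAL of `PAPER.md`)
-/

set_option autoImplicit false

namespace WHS

open WHP (V3 det be ga dot cross lin tt Sm NN B0)

/-- a vector which is not small has large height -/
theorem FINAL.lt_hh {P : V3} {R : ℝ} (h : ¬ Sm P R) : R < hh P := by
  by_contra hc
  rw [not_lt] at hc
  refine h ⟨?_, ?_, ?_⟩
  · exact (le_max_left _ _).trans hc
  · exact ((le_max_left _ _).trans (le_max_right _ _)).trans hc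
  · exact ((le_max_right _ _).trans (le_max_right _ _)).trans hc

theorem FINAL.hh_nonneg (P : V3) : 0 ≤ hh P :=
  (abs_nonneg (P.a : ℝ)).trans (le_max_left _ _)

/-- the height of `x × y` is large -/
theorem FINAL.hh_cross {x y : V3} {b : ℝ} (h : St 0 x y b) :
    (y.a : ℝ) < hh (cross x y) ^ 5 := by
  have hb0 : (0 : ℝ) < b := by
    have := h.hb0
    linarith
  have h1 : ¬ Sm (cross x y) (b ^ 200000) := by
    intro hs
    exact h.hxy (h.hS4 _ hs (WHP.dot_cross_right x y))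
  have h2 := FINAL.lt_hh h1
  have h3 : (b ^ 200000) ^ 5 < hh (cross x y) ^ 5 :=
    pow_lt_pow_left₀ h2 (by positivity) (by norm_num)
  rw [← pow_mul] at h3
  rw [← h.hby]
  exact h3

theorem FINAL_thm (hT : WHP.TreeDim) (hS : Start2) (hU : Super) : Final := by
  obtain ⟨x0, y0, b0, h0, h0'⟩ := hS
  -- the states
  let S : Type := {q : V3 × V3 × ℝ // St 0 q.1 q.2.1 q.2.2 ∧ Ful q.1 q.2.1 q.2.2}
  let I : S → Set ℝ := fun s => II s.1.2.1 s.1.2.2
  let Y : S → ℝ := fun s => (s.1.2.1.a : ℝ)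
  let G : S → ℝ := fun s => hh (cross s.1.1 s.1.2.1)
  let R : S → S → Prop := fun s s' => Y s + 1 ≤ Y s' ∧ ∀ ξ ∈ I s', Served (G s) (G s') ξ
  let s0 : S := ⟨(x0, y0, b0), h0, h0'⟩
  have hb : ∀ s : S, (1000000 : ℝ) ≤ s.1.2.2 := fun s => s.2.1.hb0
  have hY : ∀ s : S, s.1.2.2 ^ NN = Y s := fun s => s.2.1.hby
  have hY2 : ∀ s : S, 2 ≤ Y s := by
    intro s
    rw [← hY s]
    have h1 := hb s
    have h2 : s.1.2.2 ≤ s.1.2.2 ^ NN := le_self_pow₀ (by linarith) (by norm_num)
    linarith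
  obtain ⟨E, hE, hp⟩ := hT S I Y R s0 NN 256 hY2 (fun s => isCompact_Icc) (fun s => by
    refine Set.nonempty_Icc.2 ?_
    have h1 := hb s
    have h2 : 0 < 1 / s.1.2.2 ^ 1900000 := by
      have : 0 < s.1.2.2 := by linarith
      positivity
    linarith) (fun s => by
    obtain ⟨F, hF1, hF2, hF3⟩ := hU s.1.1 s.1.2.1 s.1.2.2 s.2.1 s.2.2
    have h1 := hb s
    have hbp : 0 < s.1.2.2 := by linarith
    have hFc : F.card ≠ 0 := by
      intro h
      rw [h] at hF1
      have : 0 < s.1.2.2 ^ 10 := by positivity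
      simp at hF1
      linarith
    set e := Nat.log 2 F.card with he
    have he1 : 2 ^ e ≤ F.card := Nat.pow_log_le_self 2 hFc
    have he2 : F.card < 2 ^ (e + 1) := Nat.lt_pow_succ_log_self (by norm_num) _
    have he3 : s.1.2.2 ≤ (2 : ℝ) ^ e := by
      have h2 : (F.card : ℝ) < 2 ^ (e + 1) := by exact_mod_cast he2
      have h3 : 2 * s.1.2.2 ≤ s.1.2.2 ^ 10 := by
        have h4 : s.1.2.2 ^ 2 ≤ s.1.2.2 ^ 10 := pow_le_pow_right₀ (by linarith) (by norm_num)
        nlinarith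
      rw [pow_succ] at h2
      linarith
    refine ⟨e, fun j => if h : j < F.card then
      ⟨(F.equivFin.symm ⟨j, h⟩).1, (hF2 _ (F.equivFin.symm ⟨j, h⟩).2).1,
        (hF2 _ (F.equivFin.symm ⟨j, h⟩).2).2.1⟩ else s, ?_, ?_, ?_, ?_⟩
    · by_contra hc
      have h2 : e = 0 := by omega
      rw [h2, pow_zero] at he3
      linarith
    · rw [← hY s, mul_comm, pow_mul]
      exact pow_le_pow_left₀ hbp.le he3 NN
    · intro j hj
      have hj' : j < F.card := lt_of_lt_of_le hj he1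
      simp only [hj', dif_pos]
      obtain ⟨g1, g1', g2, g3, g4, g5⟩ := hF2 _ (F.equivFin.symm ⟨j, hj'⟩).2
      refine ⟨⟨g3, g5⟩, g2, g4.trans ?_⟩
      exact pow_le_pow_right₀ (by
        have := hY2 s
        simp only [Y] at this
        linarith) (by norm_num)
    · intro j hj j' hj' hne ξ hξ ξ' hξ'
      have hj1 : j < F.card := lt_of_lt_of_le hj he1
      have hj1' : j' < F.card := lt_of_lt_of_le hj' he1
      simp only [hj1, hj1', dif_pos] at hξ hξ'
      refine hF3 _ (F.equivFin.symm ⟨j, hj1⟩).2 _ (F.equivFin.symm ⟨j', hj1'⟩).2 ?_ ξ hξ ξ' hξ'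
      intro h
      have h2 := F.equivFin.symm.injective (Subtype.ext h)
      exact hne (by simpa using h2))
  refine ⟨E, hE, fun ξ hξ => ?_⟩
  obtain ⟨p, -, hp2, hp3⟩ := hp ξ hξ
  refine ⟨G (p 0), fun H hH => ?_⟩
  have hH0 : 0 ≤ H := (FINAL.hh_nonneg _).trans hH
  have hgrow : ∀ k : ℕ, Y (p 0) + k ≤ Y (p k) := by
    intro k
    induction k with
    | zero => simp
    | succ k ih =>
      have := (hp2 k).1
      push_cast
      linarith
  have hex : ∃ n : ℕ, H < G (p n) := by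
    obtain ⟨n, hn⟩ := exists_nat_ge (H ^ 5)
    refine ⟨n, ?_⟩
    have h1 := hgrow n
    have h2 := hY2 (p 0)
    have h3 : Y (p n) < G (p n) ^ 5 := FINAL.hh_cross (p n).2.1
    exact lt_of_pow_lt_pow_left₀ 5 (FINAL.hh_nonneg _) (by linarith)
  classical
  set n := Nat.find hex with hn
  have hn1 : H < G (p n) := Nat.find_spec hex
  have hn0 : n ≠ 0 := by
    intro h
    rw [h] at hn1
    linarith
  obtain ⟨k, hk⟩ := Nat.exists_eq_succ_of_ne_zero hn0
  have hk1 : G (p k) ≤ H := by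
    have := Nat.find_min hex (m := k) (by omega)
    exact not_lt.1 this
  rw [hk] at hn1
  exact (hp2 k).2 ξ (hp3 (k + 1)) H hk1 hn1

end WHS
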