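import Pool.Agent.WHS.Stmts

/-!
# FUL: the extra properties of the pair `(y,z)`
-/

namespace WHS

open WHP (V3 det be ga dot cross lin tt Sm NN B0)

namespace FUL

/-- The derivative inequality in real variables. -/
theorem der_bound {p q e f δ D Dz Y Z d : ℝ} (hY : 0 < Y) (hZ : 0 < Z) (hd : 1 ≤ d)
    (hD : |D| = d) (hf : f = -p * D / Y ^ 2) (he : e = -p * Dz / Z ^ 2)
    (hT : f = e - q * δ + p * δ ^ 2) (h1 : 4 * |Dz| * Y ^ 2 ≤ Z ^ 2)
    (h2 : 4 * δ ^ 2 * Y ^ 2 ≤ 1) : |p| * d ≤ 2 * Y ^ 2 * |δ| * |q| := by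
  have hY2 : 0 < Y ^ 2 := by positivity
  have hZ2 : 0 < Z ^ 2 := by positivity
  have hQ : q * δ = p * (D / Y ^ 2 - Dz / Z ^ 2 + δ ^ 2) := by
    have : q * δ = e - f + p * δ ^ 2 := by linarith
    rw [this, he, hf]
    ring
  have hQ2 : |q| * |δ| = |p| * |D / Y ^ 2 - Dz / Z ^ 2 + δ ^ 2| := by
    rw [← abs_mul, hQ, abs_mul]
  have b1 : |Dz / Z ^ 2| ≤ 1 / (4 * Y ^ 2) := by
    rw [abs_div, abs_of_pos hZ2, div_le_div_iff₀ hZ2 (by positivity)]
    linarith
  have b2 : δ ^ 2 ≤ 1 / (4 * Y ^ 2) := by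
    rw [le_div_iff₀ (by positivity)]
    linarith
  have b3 : |D / Y ^ 2| = d / Y ^ 2 := by
    rw [abs_div, abs_of_pos hY2, hD]
  have b4 : d / (2 * Y ^ 2) ≤ |D / Y ^ 2 - Dz / Z ^ 2 + δ ^ 2| := by
    have c1 : |D / Y ^ 2| ≤ |D / Y ^ 2 - Dz / Z ^ 2 + δ ^ 2| + |Dz / Z ^ 2 - δ ^ 2| := by
      have := abs_add_le (D / Y ^ 2 - Dz / Z ^ 2 + δ ^ 2) (Dz / Z ^ 2 - δ ^ 2)
      have e1 : D / Y ^ 2 - Dz / Z ^ 2 + δ ^ 2 + (Dz / Z ^ 2 - δ ^ 2) = D / Y ^ 2 := by ring
      rwa [e1] at this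
    have c2 : |Dz / Z ^ 2 - δ ^ 2| ≤ |Dz / Z ^ 2| + |δ ^ 2| := abs_sub _ _
    have c3 : |δ ^ 2| = δ ^ 2 := abs_of_nonneg (sq_nonneg _)
    have c4 : 1 / (4 * Y ^ 2) + 1 / (4 * Y ^ 2) = 1 / (2 * Y ^ 2) := by
      field_simp
      ring
    have c5 : 1 / (2 * Y ^ 2) ≤ d / (2 * Y ^ 2) :=
      div_le_div_of_nonneg_right hd (by positivity)
    have c6 : d / Y ^ 2 = d / (2 * Y ^ 2) + d / (2 * Y ^ 2) := by
      field_simp
      ring
    rw [b3] at c1
    linarith
  have b5 : |p| * (d / (2 * Y ^ 2)) ≤ |q| * |δ| := by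
    rw [hQ2]
    exact mul_le_mul_of_nonneg_left b4 (abs_nonneg _)
  have b6 : |p| * d = |p| * (d / (2 * Y ^ 2)) * (2 * Y ^ 2) := by
    field_simp
  rw [b6]
  calc |p| * (d / (2 * Y ^ 2)) * (2 * Y ^ 2) ≤ |q| * |δ| * (2 * Y ^ 2) :=
        mul_le_mul_of_nonneg_right b5 (by positivity)
    _ = 2 * Y ^ 2 * |δ| * |q| := by ring

theorem cube_le {u v : ℝ} (hv : 0 ≤ v) (h : u ^ 3 ≤ v ^ 3) : u ≤ v := by
  by_contra hcon
  push Not at hcon
  have := pow_lt_pow_left₀ hcon hv (n := 3) (by norm_num)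
  linarith

end FUL

open FUL in
theorem FUL_thm : FulStep := by
  intro i x y z b bz hS hC hB hb1 hb2 hDz
  obtain ⟨hi, hb0, hby, hdet, hd, ht1, ht2, -, -, -, -⟩ := hS
  obtain ⟨hYp, ⟨hZp, hdz, hstar, hrange, hga, hbe⟩, h1, h2, h4, hbz, hbz0⟩ := hC
  have hb0' : (1000000 : ℝ) ≤ b := hb0
  have hb8 : (8 : ℝ) ≤ b := by linarith
  have hb1' : (1 : ℝ) ≤ b := by linarith
  have hbpos : (0 : ℝ) < b := by linarith
  have hbz1 : (1 : ℝ) ≤ bz := by
    have : (1000000 : ℝ) ≤ bz := hB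
    linarith
  -- variables
  have hY00 : (0 : ℝ) < (y.a : ℝ) := by exact_mod_cast hYp
  have hZ00 : (0 : ℝ) < (z.a : ℝ) := by exact_mod_cast hZp
  set Y : ℝ := (y.a : ℝ) with hY
  set Z : ℝ := (z.a : ℝ) with hZ
  have hY0 : 0 < Y := hY00
  have hZ0 : 0 < Z := hZ00
  set D : ℝ := (det y : ℝ) with hD
  set Dz : ℝ := (det z : ℝ) with hDzdef
  set t : ℝ := tt y with ht
  set β : ℝ := be t z with hβ
  set γ : ℝ := ga t z with hγ
  set d : ℝ := |D| with hdd
  have hd1 : 1 ≤ d := by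
    have h : 1 ≤ |det y| := Int.one_le_abs hdet
    rw [hdd, hD]
    exact_mod_cast h
  have hd0 : 0 < d := by linarith
  have hD2 : D ^ 2 = d ^ 2 := (sq_abs D).symm
  have hd240 : d ≤ b ^ 240 := hd.trans (pow_le_pow_right₀ hb1' (by omega))
  rw [hD2] at hrange hga h1
  have hYbig : ∀ k : ℕ, k ≤ 1000000 → b ^ k ≤ Y := by
    intro k hk
    rw [← hby]
    exact pow_le_pow_right₀ hb1' hk
  have hY1 : 1 ≤ Y := by
    have := hYbig 0 (by norm_num)
    simpa using this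
  have hYY : Y ≤ Y ^ 2 := le_self_pow₀ hY1 (by norm_num)
  -- lower bound for Z
  have hd2 : d ^ 2 ≤ b ^ 480 := by
    calc d ^ 2 ≤ (b ^ 240) ^ 2 := pow_le_pow_left₀ hd0.le hd240 2
      _ = b ^ 480 := by rw [← pow_mul]
  have hYZ : Y ^ 2 ≤ b ^ 1221 * Z := by
    calc Y ^ 2 ≤ b ^ 741 * d ^ 2 * Z := h1
      _ ≤ b ^ 741 * b ^ 480 * Z := by gcongr
      _ = b ^ 1221 * Z := by rw [← pow_add]
  have hZbig : b ^ 1700 ≤ Z := by
    have c1 : b ^ 1221 * b ^ 1700 ≤ b ^ 1221 * Z := by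
      calc b ^ 1221 * b ^ 1700 = b ^ 2921 := by rw [← pow_add]
        _ ≤ Y := hYbig _ (by norm_num)
        _ ≤ Y ^ 2 := hYY
        _ ≤ b ^ 1221 * Z := hYZ
    exact le_of_mul_le_mul_left c1 (by positivity)
  -- |β| d b² ≤ 1
  have hxb : |β| * d * b ^ 2 ≤ 1 := by
    apply cube_le (by norm_num)
    have c1 : (b ^ 2 * d ^ 2 * Z) ^ 2 ≤ (Y ^ 2) ^ 2 := pow_le_pow_left₀ (by positivity) hrange 2
    have c2 : (|β| * d * b ^ 2) ^ 3 * Y ^ 4 ≤ 1 ^ 3 * Y ^ 4 := by
      calc (|β| * d * b ^ 2) ^ 3 * Y ^ 4 = d ^ 3 * b ^ 4 * (b ^ 2 * Y ^ 4 * |β| ^ 3) := by ring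
        _ ≤ d ^ 3 * b ^ 4 * (d * Z ^ 2) := by
            apply mul_le_mul_of_nonneg_left hstar (by positivity)
        _ = (b ^ 2 * d ^ 2 * Z) ^ 2 := by ring
        _ ≤ (Y ^ 2) ^ 2 := c1
        _ = 1 ^ 3 * Y ^ 4 := by ring
    exact le_of_mul_le_mul_right c2 (by positivity)
  -- δ
  have hδ : (tt z - t) * Z = β := by
    rw [hβ, be, tt]
    have hne : (z.a : ℝ) ≠ 0 := hZ00.ne'
    rw [sub_mul, hZ, div_mul_cancel₀ _ hne]
  set δ : ℝ := tt z - t with hδdef
  have hδabs : |δ| * Z = |β| := by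
    rw [← hδ, abs_mul, abs_of_pos hZ0]
  constructor
  · -- h5
    intro P hPz hPy
    have e1 : ev P t = -(P.c : ℝ) * D / Y ^ 2 := by
      have h := WHP.dot_eq t P y
      rw [hPy, ht, WHP.be_self hY0.ne', WHP.ga_self hY0.ne', ← ht] at h
      push_cast at h
      rw [ev]
      have h' : ((P.a : ℝ) + P.b * t + P.c * t ^ 2) * Y = -(P.c : ℝ) * D / Y := by
        have h3 : (P.c : ℝ) * ((det y : ℝ) / (y.a : ℝ)) = (P.c : ℝ) * D / Y := by
          rw [← hD, ← hY, mul_div_assoc]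
        rw [h3] at h
        have h4' : -(P.c : ℝ) * D / Y = -((P.c : ℝ) * D / Y) := by ring
        rw [h4']
        linarith
      field_simp at h' ⊢
      linarith
    have e2 : ev P (tt z) = -(P.c : ℝ) * Dz / Z ^ 2 := by
      have h := WHP.dot_eq (tt z) P z
      rw [hPz, WHP.be_self hZ0.ne', WHP.ga_self hZ0.ne'] at h
      push_cast at h
      rw [ev]
      have h' : ((P.a : ℝ) + P.b * (tt z) + P.c * (tt z) ^ 2) * Z = -(P.c : ℝ) * Dz / Z := by
        have h3 : (P.c : ℝ) * ((det z : ℝ) / (z.a : ℝ)) = (P.c : ℝ) * Dz / Z := by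
          rw [← hDzdef, ← hZ, mul_div_assoc]
        rw [h3] at h
        have h4' : -(P.c : ℝ) * Dz / Z = -((P.c : ℝ) * Dz / Z) := by ring
        rw [h4']
        linarith
      field_simp at h' ⊢
      linarith
    have e3 : ev P t = ev P (tt z) - der P (tt z) * δ + P.c * δ ^ 2 := by
      rw [ev, ev, der, hδdef]
      ring
    have c1 : 4 * |Dz| * Y ^ 2 ≤ Z ^ 2 := by
      calc 4 * |Dz| * Y ^ 2 ≤ 4 * (5 * b ^ 478) * (b ^ 1221 * Z) := by gcongr
        _ = 20 * b ^ 1699 * Z := by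
            have : b ^ 478 * b ^ 1221 = b ^ 1699 := by rw [← pow_add]
            rw [← this]
            ring
        _ ≤ b * b ^ 1699 * Z := by
            have : (20 : ℝ) ≤ b := by linarith
            gcongr
        _ = b ^ 1700 * Z := by rw [← pow_succ']
        _ ≤ Z * Z := by gcongr
        _ = Z ^ 2 := by ring
    have c2 : 4 * δ ^ 2 * Y ^ 2 ≤ 1 := by
      have d1 : Y ^ 2 ≤ Z ^ 2 := by
        calc Y ^ 2 ≤ b ^ 1221 * Z := hYZ
          _ ≤ b ^ 1700 * Z :=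
              mul_le_mul_of_nonneg_right (pow_le_pow_right₀ hb1' (by norm_num)) hZ0.le
          _ ≤ Z * Z := by gcongr
          _ = Z ^ 2 := by ring
      have d2 : (δ * Z) ^ 2 ≤ (1 / 2) ^ 2 := by
        rw [hδ, ← sq_abs]
        exact pow_le_pow_left₀ (abs_nonneg _) hbe 2
      calc 4 * δ ^ 2 * Y ^ 2 ≤ 4 * δ ^ 2 * Z ^ 2 := by gcongr
        _ = 4 * (δ * Z) ^ 2 := by ring
        _ ≤ 4 * (1 / 2) ^ 2 := by gcongr
        _ = 1 := by norm_num
    have c3 := der_bound (p := P.c) (q := der P (tt z)) hY0 hZ0 hd1 rfl e1 e2 e3 c1 c2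
    -- 2 Y² |δ| ≤ bz^400 d
    have c4 : b ^ 741 ≤ bz ^ 400 := by
      have d1 : (b ^ 741) ^ 5 ≤ (bz ^ 400) ^ 5 := by
        calc (b ^ 741) ^ 5 = b ^ 3705 := by rw [← pow_mul]
          _ ≤ b ^ 3996 := pow_le_pow_right₀ hb1' (by norm_num)
          _ = (b ^ 1998) ^ 2 := by rw [← pow_mul]
          _ ≤ (bz ^ 1000) ^ 2 := pow_le_pow_left₀ (by positivity) hb1 2
          _ = (bz ^ 400) ^ 5 := by rw [← pow_mul, ← pow_mul]
      exact le_of_pow_le_pow_left₀ (by norm_num) (by positivity) d1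
    have c5 : 2 * Y ^ 2 * |δ| ≤ bz ^ 400 * d := by
      have d1 : 2 * Y ^ 2 * |δ| ≤ 2 * (b ^ 741 * d ^ 2 * Z) * |δ| := by gcongr
      have d2 : 2 * (b ^ 741 * d ^ 2 * Z) * |δ| = b ^ 739 * (2 * (|β| * d * b ^ 2)) * d := by
        rw [← hδabs]
        have : b ^ 741 = b ^ 739 * b ^ 2 := by rw [← pow_add]
        rw [this]
        ring
      have d3 : b ^ 739 * (2 * (|β| * d * b ^ 2)) * d ≤ b ^ 739 * (2 * 1) * d := by gcongr
      have d4 : b ^ 739 * (2 * 1) * d ≤ b ^ 741 * d := by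
        have e5 : b ^ 741 = b ^ 739 * b ^ 2 := by rw [← pow_add]
        have e6 : (2 : ℝ) * 1 ≤ b ^ 2 := by
          calc (2 : ℝ) * 1 ≤ 8 ^ 2 := by norm_num
            _ ≤ b ^ 2 := pow_le_pow_left₀ (by norm_num) hb8 2
        rw [e5]
        gcongr
      have d5 : b ^ 741 * d ≤ bz ^ 400 * d := by gcongr
      linarith
    have c6 : |(P.c : ℝ)| * d ≤ bz ^ 400 * |der P (tt z)| * d := by
      calc |(P.c : ℝ)| * d ≤ 2 * Y ^ 2 * |δ| * |der P (tt z)| := c3
        _ ≤ bz ^ 400 * d * |der P (tt z)| := by gcongr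
        _ = bz ^ 400 * |der P (tt z)| * d := by ring
    exact le_of_mul_le_mul_right c6 hd0
  · -- h6
    set s : ℝ := bz ^ 500000 with hs
    have hs2 : s ^ 2 = Z := by
      rw [hs, ← pow_mul]
      exact hbz
    have hs1 : 1 ≤ s := one_le_pow₀ hbz1
    have hs0 : 0 < s := by linarith
    -- b d s ≤ Y
    have g1 : b * d * s ≤ Y := by
      have : (b * d * s) ^ 2 ≤ Y ^ 2 := by
        calc (b * d * s) ^ 2 = b ^ 2 * d ^ 2 * s ^ 2 := by ring
          _ = b ^ 2 * d ^ 2 * Z := by rw [hs2]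
          _ ≤ Y ^ 2 := hrange
      exact le_of_pow_le_pow_left₀ (by norm_num) hY0.le this
    have m1 : Y * |β| ≤ s / 8 := by
      have h8 : 8 * (Y * |β|) ≤ s := by
        apply cube_le hs0.le
        have k1 : (8 * (Y * |β|)) ^ 3 * (b ^ 2 * Y) ≤ s ^ 3 * (b ^ 2 * Y) := by
          calc (8 * (Y * |β|)) ^ 3 * (b ^ 2 * Y) = 512 * (b ^ 2 * Y ^ 4 * |β| ^ 3) := by ring
            _ ≤ 512 * (d * Z ^ 2) := by gcongr
            _ = 512 * (d * s) * s ^ 3 := by rw [← hs2]; ring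
            _ ≤ b ^ 2 * (b * d * s) * s ^ 3 := by
                have k2 : (512 : ℝ) ≤ b ^ 3 := by
                  calc (512 : ℝ) = 8 ^ 3 := by norm_num
                    _ ≤ b ^ 3 := pow_le_pow_left₀ (by norm_num) hb8 3
                have k3 : b ^ 2 * (b * d * s) = b ^ 3 * (d * s) := by ring
                rw [k3]
                gcongr
            _ ≤ b ^ 2 * Y * s ^ 3 := by gcongr
            _ = s ^ 3 * (b ^ 2 * Y) := by ring
        exact le_of_mul_le_mul_right k1 (by positivity)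
      linarith
    have m2 : |D * Z / Y| ≤ s / 8 := by
      rw [abs_div, abs_mul, abs_of_pos hY0, abs_of_pos hZ0, div_le_iff₀ hY0, ← hs2, ← hdd]
      have : 8 * (d * s) ≤ Y := by
        calc 8 * (d * s) ≤ b * (d * s) := by gcongr
          _ = b * d * s := by ring
          _ ≤ Y := g1
      calc d * s ^ 2 = s / 8 * (8 * (d * s)) := by ring
        _ ≤ s / 8 * Y := mul_le_mul_of_nonneg_left this (by positivity)
    have m3 : Y * |γ| ≤ s / 16 := by
      have k1 : Y * |γ| * Y ≤ 1 / 16 * Y := by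
        calc Y * |γ| * Y = |γ| * Y ^ 2 := by ring
          _ ≤ b ^ 740 * d ^ 2 := hga
          _ ≤ b ^ 740 * b ^ 480 := by gcongr
          _ = b ^ 1220 := by rw [← pow_add]
          _ = 1 / 16 * (16 * b ^ 1220) := by ring
          _ ≤ 1 / 16 * (b * b ^ 1220) := by
              have : (16 : ℝ) ≤ b := by linarith
              gcongr
          _ = 1 / 16 * b ^ 1221 := by rw [← pow_succ']
          _ ≤ 1 / 16 * Y := by
              have := hYbig 1221 (by norm_num)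
              gcongr
      have k2 := le_of_mul_le_mul_right k1 hY0
      linarith
    have m4 : |D / Y * β| ≤ s / 16 := by
      rw [abs_mul, abs_div, abs_of_pos hY0, ← hdd]
      have k1 : d / Y ≤ 1 / 16 := by
        rw [div_le_iff₀ hY0]
        calc d ≤ b ^ 240 := hd240
          _ = 1 / 16 * (16 * b ^ 240) := by ring
          _ ≤ 1 / 16 * (b * b ^ 240) := by
              have : (16 : ℝ) ≤ b := by linarith
              gcongr
          _ = 1 / 16 * b ^ 241 := by rw [← pow_succ']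
          _ ≤ 1 / 16 * Y := by
              have := hYbig 241 (by norm_num)
              gcongr
      calc d / Y * |β| ≤ 1 / 16 * (1 / 2) := by gcongr
        _ ≤ s / 16 := by linarith
    -- the three coordinates
    have w1 := WHP.cross_c t y z
    have w2 := WHP.cross_der t y z
    have w3 := WHP.cross_val t y z
    rw [ht, WHP.be_self hY0.ne', ← ht] at w1 w3
    rw [ht, WHP.ga_self hY0.ne', ← ht] at w2 w3
    rw [← hβ, ← hY, ← hZ] at w1
    rw [← hγ, ← hY, ← hZ, ← hD] at w2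
    rw [← hβ, ← hγ, ← hY, ← hD] at w3
    have hbinv : 0 < 1 / b := by positivity
    have ht0 : 0 ≤ t := by linarith
    have ht1' : t ≤ 1 := by linarith
    set pa : ℝ := ((cross y z).a : ℝ) with hpa
    set pb : ℝ := ((cross y z).b : ℝ) with hpb
    set pc' : ℝ := ((cross y z).c : ℝ) with hpc
    have v1 : |pc'| ≤ s / 8 := by
      rw [w1]
      have : Y * β - 0 * Z = Y * β := by ring
      rw [this, abs_mul, abs_of_pos hY0]
      exact m1
    have v2 : |pb| ≤ 7 * s / 16 := by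
      have : pb = -(Y * γ) + D * Z / Y - 2 * (pc' * t) := by
        have e7 : D / Y * Z = D * Z / Y := by ring
        rw [e7] at w2
        linarith
      rw [this]
      have k1 : |pc' * t| ≤ s / 8 := by
        rw [abs_mul, abs_of_nonneg ht0]
        calc |pc'| * t ≤ |pc'| * 1 := by gcongr
          _ ≤ s / 8 := by linarith
      have k2 : |Y * γ| ≤ s / 16 := by
        rw [abs_mul, abs_of_pos hY0]
        exact m3
      have a1 := abs_le.1 k1
      have a2 := abs_le.1 k2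
      have a3 := abs_le.1 m2
      rw [abs_le]
      constructor <;> linarith
    have v3 : |pa| ≤ s := by
      have : pa = -(D / Y * β) - pb * t - pc' * t ^ 2 := by
        have e8 : (0 : ℝ) * γ - D / Y * β = -(D / Y * β) := by ring
        rw [e8] at w3
        linarith
      rw [this]
      have k1 : |pb * t| ≤ 7 * s / 16 := by
        rw [abs_mul, abs_of_nonneg ht0]
        calc |pb| * t ≤ |pb| * 1 := by gcongr
          _ ≤ 7 * s / 16 := by linarith
      have k2 : |pc' * t ^ 2| ≤ s / 8 := by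
        have ht2' : t ^ 2 ≤ 1 := pow_le_one₀ ht0 ht1'
        rw [abs_mul, abs_of_nonneg (sq_nonneg t)]
        calc |pc'| * t ^ 2 ≤ |pc'| * 1 := by gcongr
          _ ≤ s / 8 := by linarith
      have a1 := abs_le.1 k1
      have a2 := abs_le.1 k2
      have a3 := abs_le.1 m4
      rw [abs_le]
      constructor <;> linarith
    refine ⟨v3, ?_, ?_⟩
    · exact v2.trans (by linarith)
    · exact v1.trans (by linarith)

end WHS
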