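import Pool.Agent.WHS.Norm

/-!
# GEO: the geometric step
-/

namespace WHS

open WHP (V3 det be ga dot cross lin tt Sm NN B0)

namespace GEO

/-- choice of the sign -/
theorem sign (b : ℝ) (y v u : V3) (h1 : cross v u ≠ 0) (h2 : nu b y u ≤ 1) :
    ∃ u' : V3, cross v u' ≠ 0 ∧ nu b y u' ≤ 1 ∧ cV y u' = |cV y u| := by
  rcases le_total 0 (cV y u) with h | h
  · exact ⟨u, h1, h2, (abs_of_nonneg h).symm⟩
  · refine ⟨ng u, ?_, ?_, ?_⟩
    · rw [cross_ng]
      exact ng_ne h1
    · rw [nu_ng]
      exact h2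
    · rw [cV_ng, abs_of_nonpos h]

end GEO

theorem GEO_thm (h1 : Pair) (h2 : CaseA) (h3 : FamLem) (h4 : Red) (h5 : Area) (h6 : Dir) :
    GeoStep := by
  intro i x y b hS
  obtain ⟨v, hv0, hva, hmin, hnu, hQ, hcase⟩ := h1 i x y b hS
  have hb := hS.b0
  have hb1 := hS.b1
  have hbig := hS.big
  have hb11 : (1000000 : ℝ) ≤ b ^ 11 := by
    calc (1000000 : ℝ) ≤ b := hbig
      _ = b ^ 1 := (pow_one b).symm
      _ ≤ b ^ 11 := hS.pw (by norm_num)
  have hb11' : (1 : ℝ) ≤ b ^ 11 := by linarith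
  have hn0 : 0 ≤ nu b y v := nu_nonneg hb y v
  have hn1 : nu b y v ≤ 1 := by nlinarith
  rcases hcase with hpar | ⟨w, hcw, hw1, hwmin, n, u, hn_1, hn_2, hdot⟩
  · exact Or.inl (h2 i x y v b hS hv0 hva hQ hpar hmin hnu)
  · by_cases ha : ∃ u : V3, nu b y u ≤ 1 ∧ cross v u ≠ 0 ∧ 3 / b ^ 134 ≤ |cV y u|
    · obtain ⟨u₁, hu1, hu2, hu3⟩ := ha
      obtain ⟨w', hw'1, hw'2, hw'3⟩ := GEO.sign b y v u₁ hu2 hu1
      refine Or.inr (h3 i x y v w' b 0 hS hva hw'1 hn1 hw'2 le_rfl ?_ ?_)
      · push_cast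
        nlinarith
      · push_cast
        rw [hw'3]
        linarith
    · push Not at ha
      have hVv : 0 ≤ cV y v := by
        unfold cV
        have : (0 : ℝ) ≤ v.a := by exact_mod_cast hva
        positivity
      by_cases hbj : ∃ j : ℕ, (j : ℝ) * nu b y v ≤ 1 ∧ 12 / b ^ 134 ≤ (j : ℝ) * cV y v
      · obtain ⟨j, hj1, hj2⟩ := hbj
        obtain ⟨w', hw'1, hw'2, hw'3⟩ := GEO.sign b y v w hcw hw1
        set F : ℕ := ⌊b ^ 11⌋₊ with hF
        have hF1 : (F : ℝ) ≤ b ^ 11 := Nat.floor_le (by positivity)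
        have hF2 : b ^ 11 < (F : ℝ) + 1 := Nat.lt_floor_add_one _
        set J : ℕ := max j F with hJ
        have hJj : (j : ℝ) ≤ (J : ℝ) := by exact_mod_cast le_max_left j F
        have hJF : (F : ℝ) ≤ (J : ℝ) := by exact_mod_cast le_max_right j F
        have hJnu : (J : ℝ) * nu b y v ≤ 1 := by
          rcases max_choice j F with h | h
          · rw [hJ, h]
            exact hj1
          · rw [hJ, h]
            nlinarith
        have hJV : 12 / b ^ 134 ≤ (J : ℝ) * cV y v :=
          hj2.trans (mul_le_mul_of_nonneg_right hJj hVv)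
        set l0 : ℕ := (J + 1) / 2 with hl0
        have hl1 : (J : ℝ) ≤ 2 * (l0 : ℝ) := by
          have : J ≤ 2 * l0 := by omega
          exact_mod_cast this
        have hl2 : 2 * (l0 : ℝ) ≤ (J : ℝ) + 1 := by
          have : 2 * l0 ≤ J + 1 := by omega
          exact_mod_cast this
        refine Or.inr (h3 i x y v w' b (l0 : ℤ) hS hva hw'1 hn1 hw'2 (Int.natCast_nonneg _) ?_ ?_)
        · rw [Int.cast_natCast]
          have hle : (l0 : ℝ) + b ^ 11 / 4 ≤ (J : ℝ) := by linarith
          exact (mul_le_mul_of_nonneg_right hle hn0).trans hJnu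
        · rw [Int.cast_natCast, hw'3]
          have e1 := abs_nonneg (cV y w)
          have e2 : (J : ℝ) * cV y v ≤ 2 * (l0 : ℝ) * cV y v :=
            mul_le_mul_of_nonneg_right hl1 hVv
          have e3 : (12 : ℝ) / b ^ 134 = 4 * (3 / b ^ 134) := by ring
          have e4 : 0 < 3 / b ^ 134 := by positivity
          rw [e3] at hJV
          linarith
      · push Not at hbj
        left
        obtain ⟨hA1, p, q, hp, hq, hpv, hpw⟩ :=
          h4 i x y v w b hS hv0 hva hmin hnu hcw hw1 hwmin ha hbj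
        have hA0 : 0 < a2 y v w := lt_of_lt_of_le (by positivity) hA1
        have hA2 := h5 i x y v w u b p q n hS hn1 hw1 ha hA0 hp hq hpv hpw hn_1 hn_2 hdot
        refine h6 i x y b p q (a2 y v w) hS hp hq hA1 hA2 fun z => ?_
        have ht := triple_pq hS z v w p q hpv hpw
        have hD : |cx y v * cc y w - cc y v * cx y w| = a2 y v w := rfl
        by_cases hz : dot (cross v w) z = 0
        · left
          rw [hz, Int.cast_zero, mul_zero] at ht
          rcases mul_eq_zero.1 ht with h | h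
          · exfalso
            rw [h, abs_zero] at hD
            linarith
          · linarith
        · right
          rw [div_le_iff₀ hA0]
          have hz1 : (1 : ℤ) ≤ |dot (cross v w) z| := Int.one_le_abs hz
          have hz2 : (1 : ℝ) ≤ |(dot (cross v w) z : ℝ)| := by exact_mod_cast hz1
          have ht2 := congrArg abs ht
          rw [abs_mul, abs_mul, hD, abs_abs] at ht2
          have hd0 := hS.d0
          nlinarith

end WHS
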