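import Pool.Agent.WHS.Norm
import Pool.Agent.WHP.Main

/-!
# MAIN: from good polynomials to the exponents
-/

set_option autoImplicit false

namespace WHS

open WHP (V3 det be ga dot cross lin tt Sm NN B0)

namespace MAIN

open Polynomial
open WHP (AlgDegLeTwo height admissible uniformExponent polyV poly_ne poly_deg poly_aeval
  poly_height alg_countable)

/-- The real numbers `w` such that, for every sufficiently large real `H`, there is a real
algebraic number `α` of degree at most two (the root of an irreducible integer polynomial `P` of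
degree at most two) with `H(α) = H(P) ≤ H` and `0 < |ξ - α| ≤ H(α)⁻¹ H ^ (-w)`. -/
def admissibleStar (ξ : ℝ) : Set ℝ :=
  {w | ∃ H₀ : ℝ, ∀ H : ℝ, H₀ ≤ H → ∃ (α : ℝ) (P : ℤ[X]), Irreducible P ∧ P.natDegree ≤ 2 ∧
    aeval α P = 0 ∧ (height P : ℝ) ≤ H ∧ 0 < |ξ - α| ∧
    |ξ - α| ≤ (height P : ℝ)⁻¹ * H ^ (-w)}

/-- The uniform exponent `ŵ₂*(ξ)`. -/
noncomputable def uniformExponentStar (ξ : ℝ) : EReal := ⨆ w ∈ admissibleStar ξ, (w : EReal)

theorem coeff_le_height (P : ℤ[X]) (i : ℕ) : |((P.coeff i : ℤ) : ℝ)| ≤ (height P : ℝ) := by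
  rw [← Int.cast_abs, ← Nat.cast_natAbs]
  by_cases hi : i ∈ P.support
  · have h := Finset.le_sup (f := fun i => (P.coeff i).natAbs) hi
    exact_mod_cast h
  · rw [notMem_support_iff] at hi
    rw [hi]
    simp

theorem aeval_eq {P : ℤ[X]} (hP : P.natDegree ≤ 2) (x : ℝ) :
    aeval x P = (P.coeff 0 : ℝ) + P.coeff 1 * x + P.coeff 2 * x ^ 2 := by
  rw [aeval_eq_sum_range' (by omega : P.natDegree < 3)]
  simp [Finset.sum_range_succ]

theorem ne_zero_of_not_alg {ξ : ℝ} (hξ : ¬ AlgDegLeTwo ξ) {P : ℤ[X]} (hP : P ≠ 0)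
    (hd : P.natDegree ≤ 2) : 0 < |aeval ξ P| := by
  rw [abs_pos]
  exact fun h => hξ ⟨P, hP, hd, h⟩

/-- Good approximation by algebraic numbers gives good approximation by polynomials. -/
theorem star_lt {ξ w : ℝ} (hξ : ¬ AlgDegLeTwo ξ) (hw : 0 ≤ w)
    (h : (w : EReal) < uniformExponentStar ξ) : (w : EReal) < uniformExponent ξ := by
  unfold uniformExponentStar at h
  rw [lt_iSup_iff] at h
  obtain ⟨w', h⟩ := h
  rw [lt_iSup_iff] at h
  obtain ⟨⟨H₀, hH₀⟩, hww⟩ := h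
  rw [EReal.coe_lt_coe_iff] at hww
  have h1 : Filter.Tendsto (fun H : ℝ => H ^ ((w' - w) / 2)) Filter.atTop Filter.atTop :=
    tendsto_rpow_atTop (by linarith)
  obtain ⟨H₁, hH₁⟩ := Filter.eventually_atTop.mp (h1.eventually_ge_atTop (2 * |ξ| + 2))
  have hmem : (w + w') / 2 ∈ admissible ξ := by
    refine ⟨max (max H₀ H₁) 1, ?_⟩
    intro H hH
    have g1 : H₀ ≤ H := (le_max_left _ _).trans ((le_max_left _ _).trans hH)
    have g2 : H₁ ≤ H := (le_max_right _ _).trans ((le_max_left _ _).trans hH)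
    have g3 : 1 ≤ H := (le_max_right _ _).trans hH
    have hHpos : 0 < H := by linarith
    obtain ⟨α, P, hirr, hd, hroot, hht, -, hdist⟩ := hH₀ H g1
    refine ⟨P, hirr.ne_zero, hd, hht, ne_zero_of_not_alg hξ hirr.ne_zero hd, ?_⟩
    have hHw : 0 < H ^ (-w') := Real.rpow_pos_of_pos hHpos _
    have hHw1 : H ^ (-w') ≤ 1 := Real.rpow_le_one_of_one_le_of_nonpos g3 (by linarith)
    have hh0 : (0 : ℝ) ≤ (height P : ℝ) := Nat.cast_nonneg _
    have hinv : ((height P : ℝ))⁻¹ ≤ 1 := Nat.cast_inv_le_one _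
    have hinv0 : 0 ≤ ((height P : ℝ))⁻¹ := inv_nonneg.mpr hh0
    have hle1 : |ξ - α| ≤ 1 := by
      refine hdist.trans ?_
      calc ((height P : ℝ))⁻¹ * H ^ (-w') ≤ 1 * 1 := by gcongr
        _ = 1 := one_mul 1
    have hsum : |ξ + α| ≤ 2 * |ξ| + 1 := by
      have e : ξ + α = 2 * ξ - (ξ - α) := by ring
      rw [e]
      refine (abs_sub _ _).trans ?_
      rw [abs_mul, abs_two]
      linarith
    have hslope : |(P.coeff 1 : ℝ) + P.coeff 2 * (ξ + α)| ≤ height P * (2 * |ξ| + 2) := by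
      refine (abs_add_le _ _).trans ?_
      rw [abs_mul]
      have k1 := coeff_le_height P 1
      have k2 : |((P.coeff 2 : ℤ) : ℝ)| * |ξ + α| ≤ height P * (2 * |ξ| + 1) := by
        gcongr
        exact coeff_le_height P 2
      linarith
    have heq : aeval ξ P = (ξ - α) * ((P.coeff 1 : ℝ) + P.coeff 2 * (ξ + α)) := by
      have e1 := aeval_eq hd ξ
      have e2 := aeval_eq hd α
      rw [hroot] at e2
      rw [e1]
      linear_combination -e2
    rw [heq, abs_mul]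
    have hK : 0 ≤ 2 * |ξ| + 2 := by have := abs_nonneg ξ; linarith
    calc |ξ - α| * |(P.coeff 1 : ℝ) + P.coeff 2 * (ξ + α)|
        ≤ ((height P : ℝ)⁻¹ * H ^ (-w')) * (height P * (2 * |ξ| + 2)) := by gcongr
      _ = ((height P : ℝ)⁻¹ * height P) * (H ^ (-w') * (2 * |ξ| + 2)) := by ring
      _ ≤ 1 * (H ^ (-w') * (2 * |ξ| + 2)) := by
          gcongr
          exact inv_mul_le_one
      _ ≤ 1 * (H ^ (-w') * H ^ ((w' - w) / 2)) := by
          gcongr
          exact hH₁ H g2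
      _ = H ^ (-((w + w') / 2)) := by
          rw [one_mul, ← Real.rpow_add hHpos]
          congr 1
          ring
  have hsup : (((w + w') / 2 : ℝ) : EReal) ≤ uniformExponent ξ :=
    le_iSup₂ (f := fun (v : ℝ) (_ : v ∈ admissible ξ) => (v : EReal)) ((w + w') / 2) hmem
  refine lt_of_lt_of_le ?_ hsup
  rw [EReal.coe_lt_coe_iff]
  linarith


/-! ### Irreducible factors -/

theorem exists_irr (α : ℝ) (P : ℤ[X]) (hP : P ≠ 0) (h : aeval α P = 0) :
    ∃ Q R : ℤ[X], Irreducible Q ∧ P = Q * R ∧ aeval α Q = 0 := by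
  induction P using WfDvdMonoid.induction_on_irreducible with
  | zero => exact absurd rfl hP
  | unit u hu =>
    exfalso
    have h1 : IsUnit (aeval α u) := hu.map (aeval α)
    rw [h] at h1
    exact not_isUnit_zero h1
  | mul a i ha hi ih =>
    rw [map_mul] at h
    rcases mul_eq_zero.1 h with h1 | h1
    · exact ⟨i, a, hi, rfl, h1⟩
    · obtain ⟨Q, R, hQ, hR, hα⟩ := ih ha h1
      exact ⟨Q, i * R, hQ, by rw [hR]; ring, hα⟩

theorem natAbs_le_mul (a b : ℤ) (hb : b ≠ 0) : a.natAbs ≤ (a * b).natAbs := by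
  rw [Int.natAbs_mul]
  exact Nat.le_mul_of_pos_right _ (Int.natAbs_pos.2 hb)

theorem coeff_le (P : ℤ[X]) (i : ℕ) : (P.coeff i).natAbs ≤ height P := by
  by_cases hi : i ∈ P.support
  · exact Finset.le_sup (f := fun i => (P.coeff i).natAbs) hi
  · rw [notMem_support_iff] at hi
    rw [hi]
    simp

theorem height_factor {P Q R : ℤ[X]} (hP : P ≠ 0) (hd : P.natDegree ≤ 2) (h : P = Q * R)
    (hQ : 1 ≤ Q.natDegree) : height Q ≤ height P := by
  have hQ0 : Q ≠ 0 := by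
    rintro rfl
    simp at hQ
  have hR0 : R ≠ 0 := by
    rintro rfl
    apply hP
    rw [h, mul_zero]
  have hdeg : P.natDegree = Q.natDegree + R.natDegree := by
    rw [h, natDegree_mul hQ0 hR0]
  unfold height
  refine Finset.sup_le fun i hi => ?_
  change _ ≤ height P
  have hiQ : i ≤ Q.natDegree := le_natDegree_of_mem_supp i hi
  rcases Nat.eq_zero_or_pos R.natDegree with h0 | h1
  · have hRC : R = C (R.coeff 0) := eq_C_of_natDegree_eq_zero h0
    have hr : R.coeff 0 ≠ 0 := by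
      intro hr
      apply hR0
      rw [hRC, hr, C_0]
    have e : P.coeff i = Q.coeff i * R.coeff 0 := by
      rw [h]
      conv_lhs => rw [hRC]
      rw [coeff_mul_C]
    refine le_trans (natAbs_le_mul _ _ hr) ?_
    rw [← e]
    exact coeff_le P i
  · have hR1 : R.natDegree = 1 := by omega
    have hQ1 : Q.natDegree = 1 := by omega
    have hr1 : R.coeff 1 ≠ 0 := by
      have := leadingCoeff_ne_zero.2 hR0
      rwa [leadingCoeff, hR1] at this
    have hQ2 : Q = C (Q.coeff 1) * X + C (Q.coeff 0) :=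
      eq_X_add_C_of_natDegree_le_one hQ1.le
    have hR2 : R = C (R.coeff 1) * X + C (R.coeff 0) :=
      eq_X_add_C_of_natDegree_le_one hR1.le
    have hprod : P = C (Q.coeff 1 * R.coeff 1) * X ^ 2 +
        C (Q.coeff 1 * R.coeff 0 + Q.coeff 0 * R.coeff 1) * X + C (Q.coeff 0 * R.coeff 0) := by
      rw [h]
      conv_lhs => rw [hQ2, hR2]
      simp only [C_mul, C_add]
      ring
    have e0 : P.coeff 0 = Q.coeff 0 * R.coeff 0 := by
      rw [h, mul_coeff_zero]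
    have e2 : P.coeff 2 = Q.coeff 1 * R.coeff 1 := by
      rw [hprod, coeff_add, coeff_add, coeff_C_mul, coeff_C_mul, coeff_X_pow, coeff_X, coeff_C]
      norm_num
    have e1 : P.coeff 1 = Q.coeff 1 * R.coeff 0 + Q.coeff 0 * R.coeff 1 := by
      rw [hprod, coeff_add, coeff_add, coeff_C_mul, coeff_C_mul, coeff_X_pow, coeff_X, coeff_C]
      norm_num
    have hi2 : i = 0 ∨ i = 1 := by omega
    rcases hi2 with rfl | rfl
    · by_cases hr0 : R.coeff 0 = 0
      · have e3 : P.coeff 1 = Q.coeff 0 * R.coeff 1 := by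
          rw [e1, hr0]
          ring
        refine le_trans (natAbs_le_mul _ _ hr1) ?_
        rw [← e3]
        exact coeff_le P 1
      · refine le_trans (natAbs_le_mul _ _ hr0) ?_
        rw [← e0]
        exact coeff_le P 0
    · refine le_trans (natAbs_le_mul _ _ hr1) ?_
      rw [← e2]
      exact coeff_le P 2

theorem natDegree_pos_of_root {Q : ℤ[X]} {α : ℝ} (hQ : Q ≠ 0) (h : aeval α Q = 0) :
    1 ≤ Q.natDegree := by
  by_contra hc
  have h0 : Q.natDegree = 0 := by omega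
  have h1 : Q = C (Q.coeff 0) := eq_C_of_natDegree_eq_zero h0
  rw [h1, aeval_C] at h
  have h2 : Q.coeff 0 = 0 := by
    have h3 : ((Q.coeff 0 : ℤ) : ℝ) = 0 := by simpa using h
    exact_mod_cast h3
  apply hQ
  rw [h1, h2, C_0]

theorem height_pos {Q : ℤ[X]} (hQ : Q ≠ 0) : 0 < height Q := by
  have h1 : Q.leadingCoeff ≠ 0 := leadingCoeff_ne_zero.2 hQ
  have h2 := coeff_le Q Q.natDegree
  have h3 : 0 < (Q.coeff Q.natDegree).natAbs := Int.natAbs_pos.2 h1
  omega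

/-- a numerical step -/
theorem main_num (n : ℕ) (hn : n ≠ 0) (v H : ℝ) (hv : 0 ≤ v) (hH : 1 ≤ H)
    (hH2 : 2 ≤ H ^ (1 / (2 * (n : ℝ)))) (h : (v * H ^ 2) ^ n * H ≤ 2 ^ n) :
    v ≤ H ^ (-(2 + 1 / (2 * (n : ℝ)))) := by
  have hH0 : 0 < H := by linarith
  have hn0 : (0 : ℝ) < n := by exact_mod_cast Nat.pos_of_ne_zero hn
  set u : ℝ := H ^ (1 / (2 * (n : ℝ))) with hu
  have hu0 : 0 < u := Real.rpow_pos_of_pos hH0 _
  have hun : (u ^ 2) ^ n = H := by
    rw [← pow_mul, ← Real.rpow_natCast u (2 * n), hu, ← Real.rpow_mul hH0.le]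
    have : 1 / (2 * (n : ℝ)) * ((2 * n : ℕ) : ℝ) = 1 := by
      push_cast
      field_simp
    rw [this, Real.rpow_one]
  have hw : H ^ (2 + 1 / (2 * (n : ℝ))) = H ^ 2 * u := by
    rw [Real.rpow_add hH0, Real.rpow_two]
  have h1 : (v * H ^ 2 * u ^ 2) ^ n ≤ 2 ^ n := by
    rw [mul_pow (v * H ^ 2), hun]
    exact h
  have h5 : v * H ^ 2 * u ^ 2 ≤ 2 :=
    (pow_le_pow_iff_left₀ (by positivity) (by norm_num) hn).mp h1
  have h6 : v * (H ^ 2 * u) ≤ 1 := by
    have h7 : (v * (H ^ 2 * u)) * u ≤ 1 * u := by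
      calc (v * (H ^ 2 * u)) * u = v * H ^ 2 * u ^ 2 := by ring
        _ ≤ 2 := h5
        _ ≤ 1 * u := by rw [one_mul]; exact hH2
    exact le_of_mul_le_mul_right h7 hu0
  rw [Real.rpow_neg hH0.le, hw, ← one_div, le_div_iff₀ (by positivity)]
  exact h6

theorem adm_of (hR : Root) {ξ : ℝ} (hξ : ¬ AlgDegLeTwo ξ)
    (h : ∃ H0 : ℝ, ∀ H : ℝ, H0 ≤ H → Good H ξ) :
    2 + 1 / (2 * ((NN : ℕ) : ℝ)) ∈ admissibleStar ξ := by
  obtain ⟨H0, hH0⟩ := h
  have hn : (NN : ℕ) ≠ 0 := by norm_num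
  have hn0 : (0 : ℝ) < ((NN : ℕ) : ℝ) := by exact_mod_cast Nat.pos_of_ne_zero hn
  have hpos : 0 < 1 / (2 * ((NN : ℕ) : ℝ)) := by positivity
  obtain ⟨H₁, hH₁⟩ := Filter.eventually_atTop.mp
    ((tendsto_rpow_atTop hpos).eventually_ge_atTop 2)
  refine ⟨max (max H₁ 1) H0, fun H hH => ?_⟩
  have g1 : H₁ ≤ H := (le_max_left _ _).trans ((le_max_left _ _).trans hH)
  have g2 : 1 ≤ H := (le_max_right _ _).trans ((le_max_left _ _).trans hH)
  have g3 : H0 ≤ H := (le_max_right _ _).trans hH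
  obtain ⟨P, hP, hPH, hder, h8, hbig⟩ := hH0 H g3
  obtain ⟨α, hα, hdist⟩ := hR P ξ hder h8
  have hder0 : 0 < |der P ξ| := abs_pos.2 hder
  have hroot : aeval α (polyV P) = 0 := by
    rw [poly_aeval]
    exact hα
  obtain ⟨Q, R, hQ, hPQ, hQα⟩ := exists_irr α (polyV P) (poly_ne hP) hroot
  have hQ1 := natDegree_pos_of_root hQ.ne_zero hQα
  have hR0 : R ≠ 0 := by
    rintro rfl
    exact poly_ne hP (by rw [hPQ, mul_zero])
  have hQ2 : Q.natDegree ≤ 2 := by
    have h1 := poly_deg P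
    rw [hPQ, natDegree_mul hQ.ne_zero hR0] at h1
    omega
  have hQh : (height Q : ℝ) ≤ hh P := by
    have h1 : height Q ≤ height (polyV P) := height_factor (poly_ne hP) (poly_deg P) hPQ hQ1
    have h2 : (height (polyV P) : ℝ) ≤ hh P := poly_height ((sm_iff P _).2 le_rfl)
    exact (Nat.cast_le.2 h1).trans h2
  have hQp : (0 : ℝ) < (height Q : ℝ) := by exact_mod_cast height_pos hQ.ne_zero
  have hhp : 0 < hh P := hQp.trans_le hQh
  refine ⟨α, Q, hQ, hQ2, hQα, hQh.trans hPH, ?_, ?_⟩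
  · rw [abs_pos, sub_ne_zero]
    rintro rfl
    exact hξ ⟨Q, hQ.ne_zero, hQ2, hQα⟩
  · have h1 : (|ξ - α| * hh P * H ^ 2) ^ NN * H ≤ 2 ^ NN := by
      have h2 : |ξ - α| * hh P * H ^ 2 * |der P ξ| ≤ 2 * (|ev P ξ| * hh P * H ^ 2) := by
        have h3 := mul_le_mul_of_nonneg_right hdist (by positivity : 0 ≤ hh P * H ^ 2)
        linarith
      have h4 : (|ξ - α| * hh P * H ^ 2 * |der P ξ|) ^ NN ≤
          (2 * (|ev P ξ| * hh P * H ^ 2)) ^ NN := pow_le_pow_left₀ (by positivity) h2 _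
      rw [mul_pow, mul_pow 2] at h4
      have h5 : (|ξ - α| * hh P * H ^ 2) ^ NN * H * |der P ξ| ^ NN ≤ 2 ^ NN * |der P ξ| ^ NN := by
        calc (|ξ - α| * hh P * H ^ 2) ^ NN * H * |der P ξ| ^ NN
            = ((|ξ - α| * hh P * H ^ 2) ^ NN * |der P ξ| ^ NN) * H := by ring
          _ ≤ (2 ^ NN * (|ev P ξ| * hh P * H ^ 2) ^ NN) * H :=
              mul_le_mul_of_nonneg_right h4 (by linarith)
          _ = 2 ^ NN * ((|ev P ξ| * hh P * H ^ 2) ^ NN * H) := by ring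
          _ ≤ 2 ^ NN * |der P ξ| ^ NN := mul_le_mul_of_nonneg_left hbig (by positivity)
      exact le_of_mul_le_mul_right h5 (pow_pos hder0 _)
    have h2 := main_num NN hn (|ξ - α| * hh P) H (by positivity) g2 (hH₁ H g1) h1
    have h3 : |ξ - α| ≤ (hh P)⁻¹ * H ^ (-(2 + 1 / (2 * ((NN : ℕ) : ℝ)))) := by
      rw [← div_eq_inv_mul, le_div_iff₀ hhp]
      exact h2
    refine h3.trans ?_
    apply mul_le_mul_of_nonneg_right _ (Real.rpow_nonneg (by linarith) _)
    exact inv_anti₀ hQp hQh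

theorem star_of (hR : Root) {ξ : ℝ} (hξ : ¬ AlgDegLeTwo ξ)
    (h : ∃ H0 : ℝ, ∀ H : ℝ, H0 ≤ H → Good H ξ) : 2 < uniformExponentStar ξ := by
  have hadm := adm_of hR hξ h
  have hsup : ((2 + 1 / (2 * ((NN : ℕ) : ℝ)) : ℝ) : EReal) ≤ uniformExponentStar ξ :=
    le_iSup₂ (f := fun (v : ℝ) (_ : v ∈ admissibleStar ξ) => (v : EReal))
      (2 + 1 / (2 * ((NN : ℕ) : ℝ))) hadm
  refine lt_of_lt_of_le ?_ hsup
  have h2 : (2 : EReal) = ((2 : ℝ) : EReal) := rfl
  rw [h2, EReal.coe_lt_coe_iff]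
  have : (0 : ℝ) < 1 / (2 * ((NN : ℕ) : ℝ)) := by
    have hN : (0 : ℝ) < ((NN : ℕ) : ℝ) := by norm_num
    positivity
  linarith

end MAIN

open MAIN in
open WHP (AlgDegLeTwo uniformExponent) in
/-- Both sets have positive dimension. -/
theorem MAIN_thm (hR : Root) (h : Final) :
    0 < dimH {ξ : ℝ | ¬ AlgDegLeTwo ξ ∧ 2 < uniformExponentStar ξ} ∧
      0 < dimH {ξ : ℝ | ¬ AlgDegLeTwo ξ ∧ 2 < uniformExponent ξ} := by
  have key : 0 < dimH {ξ : ℝ | ¬ AlgDegLeTwo ξ ∧ 2 < uniformExponentStar ξ} := by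
    obtain ⟨E, hE, hall⟩ := h
    have hsub : E ⊆ {ξ : ℝ | ¬ AlgDegLeTwo ξ ∧ 2 < uniformExponentStar ξ} ∪
        {ξ : ℝ | AlgDegLeTwo ξ} := by
      intro ξ hξ
      by_cases ha : AlgDegLeTwo ξ
      · exact Or.inr ha
      · exact Or.inl ⟨ha, star_of hR ha (hall ξ hξ)⟩
    have h1 := dimH_mono hsub
    rw [dimH_union, WHP.alg_countable.dimH_zero] at h1
    have h2 := hE.trans_le h1
    rcases lt_max_iff.mp h2 with h3 | h3
    · exact h3
    · exact absurd h3 (lt_irrefl _)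
  refine ⟨key, key.trans_le (dimH_mono ?_)⟩
  rintro ξ ⟨h1, h2⟩
  refine ⟨h1, ?_⟩
  have e : (2 : EReal) = ((2 : ℝ) : EReal) := rfl
  rw [e] at h2 ⊢
  exact star_lt h1 (by norm_num) h2

end WHS
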