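import Pool.Agent.WHS.Stmts
import Pool.Agent.WHP.Box
import Pool.Agent.WHP.GeoA

/-!
# PAIR: minimal vectors (MP_c538e3_nt)
-/

namespace WHS

namespace PAIR

open WHP (V3 det be ga dot cross lin tt Sm NN B0)

theorem cV_lin (y : V3) (i k : ℤ) (v w : V3) :
    cV y (lin i v k w) = i * cV y v + k * cV y w := by
  simp only [cV, WHP.a_lin]
  push_cast
  ring

theorem cx_lin (y : V3) (i k : ℤ) (v w : V3) :
    cx y (lin i v k w) = i * cx y v + k * cx y w := by
  simp only [cx, WHP.be_lin]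
  ring

theorem cc_lin (y : V3) (i k : ℤ) (v w : V3) :
    cc y (lin i v k w) = i * cc y v + k * cc y w := by
  simp only [cc, WHP.ga_lin]
  ring

theorem nu_nonneg {b : ℝ} (hb : 0 < b) (y v : V3) : 0 ≤ nu b y v :=
  le_max_of_le_left (mul_nonneg (abs_nonneg _) (pow_nonneg hb.le _))

theorem nu_le_iff (b : ℝ) (y v : V3) (s : ℝ) : nu b y v ≤ s ↔
    |cV y v| * b ^ 3 ≤ s ∧ |cx y v| * b ^ 90 ≤ s ∧ |cc y v| / b ^ 481 ≤ s := by
  simp only [nu, max_le_iff]

theorem nu_le_self (b : ℝ) (y v : V3) : |cV y v| * b ^ 3 ≤ nu b y v ∧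
    |cx y v| * b ^ 90 ≤ nu b y v ∧ |cc y v| / b ^ 481 ≤ nu b y v :=
  (nu_le_iff b y v _).mp le_rfl

theorem abs_lin_le (i k p q : ℝ) : |i * p + k * q| ≤ |i| * |p| + |k| * |q| := by
  rw [← abs_mul, ← abs_mul]
  exact abs_add_le _ _

theorem nu_lin_le {b : ℝ} (hb : 0 < b) (y : V3) (i k : ℤ) (v w : V3) :
    nu b y (lin i v k w) ≤ |(i : ℝ)| * nu b y v + |(k : ℝ)| * nu b y w := by
  obtain ⟨h1, h2, h3⟩ := nu_le_self b y v
  obtain ⟨g1, g2, g3⟩ := nu_le_self b y w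
  have hi := abs_nonneg (i : ℝ)
  have hk := abs_nonneg (k : ℝ)
  rw [nu_le_iff, cV_lin, cx_lin, cc_lin]
  refine ⟨?_, ?_, ?_⟩
  · calc |(i : ℝ) * cV y v + k * cV y w| * b ^ 3
        ≤ (|(i : ℝ)| * |cV y v| + |(k : ℝ)| * |cV y w|) * b ^ 3 :=
          mul_le_mul_of_nonneg_right (abs_lin_le _ _ _ _) (pow_nonneg hb.le _)
      _ = |(i : ℝ)| * (|cV y v| * b ^ 3) + |(k : ℝ)| * (|cV y w| * b ^ 3) := by ring
      _ ≤ _ := add_le_add (mul_le_mul_of_nonneg_left h1 hi) (mul_le_mul_of_nonneg_left g1 hk)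
  · calc |(i : ℝ) * cx y v + k * cx y w| * b ^ 90
        ≤ (|(i : ℝ)| * |cx y v| + |(k : ℝ)| * |cx y w|) * b ^ 90 :=
          mul_le_mul_of_nonneg_right (abs_lin_le _ _ _ _) (pow_nonneg hb.le _)
      _ = |(i : ℝ)| * (|cx y v| * b ^ 90) + |(k : ℝ)| * (|cx y w| * b ^ 90) := by ring
      _ ≤ _ := add_le_add (mul_le_mul_of_nonneg_left h2 hi) (mul_le_mul_of_nonneg_left g2 hk)
  · calc |(i : ℝ) * cc y v + k * cc y w| / b ^ 481
        ≤ (|(i : ℝ)| * |cc y v| + |(k : ℝ)| * |cc y w|) / b ^ 481 :=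
          div_le_div_of_nonneg_right (abs_lin_le _ _ _ _) (pow_nonneg hb.le _)
      _ = |(i : ℝ)| * (|cc y v| / b ^ 481) + |(k : ℝ)| * (|cc y w| / b ^ 481) := by ring
      _ ≤ _ := add_le_add (mul_le_mul_of_nonneg_left h3 hi) (mul_le_mul_of_nonneg_left g3 hk)

theorem nu_smul (b : ℝ) (y : V3) (n : ℤ) (v w : V3) :
    nu b y (lin n v 0 w) = |(n : ℝ)| * nu b y v := by
  simp only [nu, cV_lin, cx_lin, cc_lin]
  rw [mul_max_of_nonneg _ _ (abs_nonneg (n : ℝ)), mul_max_of_nonneg _ _ (abs_nonneg (n : ℝ))]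
  push_cast
  simp only [zero_mul, add_zero, abs_mul]
  rw [mul_assoc, mul_assoc, mul_div_assoc]

theorem nu_neg (b : ℝ) (y v : V3) : nu b y (WHP.neg v) = nu b y v := by
  have h : WHP.neg v = lin (-1) v 0 v := by
    ext <;> simp [WHP.neg, lin]
  rw [h, nu_smul]
  simp

/-- facts on a state -/
theorem facts {i : ℕ} {x y : V3} {b : ℝ} (h : St i x y b) :
    1000000 ≤ b ∧ (0 : ℝ) < y.a ∧ (1 : ℝ) ≤ |(det y : ℝ)| ∧ |(det y : ℝ)| ≤ b ^ 240 ∧
      b ^ 1000000 = (y.a : ℝ) := by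
  have hb : (1000000 : ℝ) ≤ b := h.hb0
  have hb1 : (1 : ℝ) ≤ b := by linarith
  have hby : b ^ 1000000 = (y.a : ℝ) := h.hby
  refine ⟨hb, ?_, ?_, ?_, hby⟩
  · rw [← hby]
    exact pow_pos (by linarith) _
  · have h1 := Int.one_le_abs h.hdet
    exact_mod_cast h1
  · exact h.hd.trans (pow_le_pow_right₀ hb1 (Nat.sub_le _ _))

theorem nu_pos {i : ℕ} {x y : V3} {b : ℝ} (h : St i x y b) (u : V3) (hu : u ≠ 0) :
    0 < nu b y u := by
  obtain ⟨hb, hY, hd, -, -⟩ := facts h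
  have hb0 : 0 < b := by linarith
  rcases (nu_nonneg hb0 y u).lt_or_eq with h1 | h1
  · exact h1
  exfalso
  obtain ⟨h2, h3, h4⟩ := nu_le_self b y u
  rw [← h1] at h2 h3 h4
  have hdet : (det y : ℝ) ≠ 0 := by
    intro h0
    rw [h0, abs_zero] at hd
    linarith
  have e1 : cV y u = 0 := by
    have h5 : |cV y u| ≤ 0 := nonpos_of_mul_nonpos_left h2 (pow_pos hb0 3)
    exact abs_nonpos_iff.mp h5
  have e2 : cx y u = 0 := by
    have h5 : |cx y u| ≤ 0 := nonpos_of_mul_nonpos_left h3 (pow_pos hb0 90)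
    exact abs_nonpos_iff.mp h5
  have e3 : cc y u = 0 := by
    rw [div_le_iff₀ (pow_pos hb0 481), zero_mul] at h4
    exact abs_nonpos_iff.mp h4
  have f1 : (u.a : ℝ) = 0 := by
    simp only [cV, div_eq_zero_iff, mul_eq_zero] at e1
    rcases e1 with (e1 | e1) | e1
    · exact e1
    · exact absurd e1 (pow_ne_zero _ hdet)
    · exact absurd e1 (pow_ne_zero _ hY.ne')
  have f2 : be (tt y) u = 0 := by
    simp only [cx, mul_eq_zero] at e2
    rcases e2 with e2 | e2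
    · exact e2
    · rw [e2] at hd
      linarith
  have f3 : ga (tt y) u = 0 := by
    simp only [cc, div_eq_zero_iff, mul_eq_zero] at e3
    rcases e3 with (e3 | e3) | e3
    · exact e3
    · exact absurd e3 (pow_ne_zero _ hY.ne')
    · exact absurd e3 (pow_ne_zero _ hdet)
  have g2 : (u.b : ℝ) = 0 := by
    simp only [be] at f2
    rw [f1] at f2
    linarith
  have g3 : (u.c : ℝ) = 0 := by
    simp only [ga] at f3
    rw [f1, g2] at f3
    linarith
  apply hu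
  ext
  · exact_mod_cast f1
  · exact_mod_cast g2
  · exact_mod_cast g3

theorem finite_K {i : ℕ} {x y : V3} {b : ℝ} (h : St i x y b) : {u : V3 | nu b y u ≤ 1}.Finite := by
  obtain ⟨hb, hY, hd, hd2, hby⟩ := facts h
  have hb0 : 0 < b := by linarith
  have hb1 : 1 ≤ b := by linarith
  set t := tt y with ht
  set Y : ℝ := (y.a : ℝ) with hYd
  set d : ℝ := |(det y : ℝ)| with hdd
  have hd0 : 0 < d := by linarith
  have hsq : (det y : ℝ) ^ 2 = d ^ 2 := by rw [hdd, sq_abs]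
  have hYd2 : b ^ 481 * d ^ 2 ≤ Y ^ 2 := by
    calc b ^ 481 * d ^ 2 ≤ b ^ 481 * (b ^ 240) ^ 2 := by gcongr
      _ = b ^ 961 := by rw [← pow_mul, ← pow_add]
      _ ≤ b ^ 2000000 := pow_le_pow_right₀ hb1 (by norm_num)
      _ = Y ^ 2 := by rw [← hby, ← pow_mul]
  set A : ℝ := Y ^ 2 with hA
  set B : ℝ := 1 + |t| * A with hB
  set C : ℝ := 1 + 2 * |t| * B + t ^ 2 * A with hC
  have key : ∀ u : V3, nu b y u ≤ 1 → |(u.a : ℝ)| ≤ A ∧ |(u.b : ℝ)| ≤ B ∧ |(u.c : ℝ)| ≤ C := by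
    intro u hu
    rw [nu_le_iff] at hu
    obtain ⟨h1, h2, h3⟩ := hu
    have a1 : |(u.a : ℝ)| ≤ A := by
      have e : |cV y u| = |(u.a : ℝ)| * d ^ 2 / Y ^ 2 := by
        simp only [cV]
        rw [hsq, abs_div, abs_mul, abs_of_pos (show (0 : ℝ) < d ^ 2 by positivity),
          abs_of_pos (show (0 : ℝ) < (y.a : ℝ) ^ 2 by positivity)]
      have h4 : |cV y u| ≤ 1 := by
        calc |cV y u| = |cV y u| * 1 := (mul_one _).symm
          _ ≤ |cV y u| * b ^ 3 := mul_le_mul_of_nonneg_left (one_le_pow₀ hb1) (abs_nonneg _)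
          _ ≤ 1 := h1
      rw [e, div_le_iff₀ (by positivity), one_mul] at h4
      calc |(u.a : ℝ)| = |(u.a : ℝ)| * 1 := (mul_one _).symm
        _ ≤ |(u.a : ℝ)| * d ^ 2 := mul_le_mul_of_nonneg_left (one_le_pow₀ hd) (abs_nonneg _)
        _ ≤ A := h4
    have a2 : |be t u| ≤ 1 := by
      have e : |cx y u| = |be t u| * d := by
        simp only [cx]
        rw [abs_mul, abs_abs]
      rw [e] at h2
      calc |be t u| = |be t u| * 1 * 1 := by ring
        _ ≤ |be t u| * d * b ^ 90 :=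
          mul_le_mul (mul_le_mul_of_nonneg_left hd (abs_nonneg _)) (one_le_pow₀ hb1) zero_le_one
            (by positivity)
        _ ≤ 1 := h2
    have a3 : |ga t u| ≤ 1 := by
      have e : |cc y u| = |ga t u| * Y ^ 2 / d ^ 2 := by
        simp only [cc]
        rw [hsq, abs_div, abs_mul, abs_of_pos (show (0 : ℝ) < d ^ 2 by positivity),
          abs_of_pos (show (0 : ℝ) < (y.a : ℝ) ^ 2 by positivity)]
      rw [e, div_div, div_le_iff₀ (by positivity), one_mul] at h3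
      by_contra hcon
      push Not at hcon
      have h5 : Y ^ 2 < |ga t u| * Y ^ 2 := by
        have : 0 < Y ^ 2 := by positivity
        nlinarith
      have h6 : d ^ 2 * b ^ 481 ≤ Y ^ 2 := by linarith
      linarith
    have b1 : |(u.b : ℝ)| ≤ B := by
      have e : (u.b : ℝ) = be t u + t * u.a := by simp only [be]; ring
      rw [e]
      calc |be t u + t * u.a| ≤ |be t u| + |t * u.a| := abs_add_le _ _
        _ = |be t u| + |t| * |(u.a : ℝ)| := by rw [abs_mul]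
        _ ≤ B := add_le_add a2 (mul_le_mul_of_nonneg_left a1 (abs_nonneg _))
    refine ⟨a1, b1, ?_⟩
    have e : (u.c : ℝ) = ga t u + 2 * t * u.b + (-(t ^ 2 * u.a)) := by simp only [ga]; ring
    rw [e]
    calc |ga t u + 2 * t * u.b + (-(t ^ 2 * u.a))|
        ≤ |ga t u| + |2 * t * u.b| + |-(t ^ 2 * u.a)| := abs_add_three _ _ _
      _ = |ga t u| + 2 * |t| * |(u.b : ℝ)| + t ^ 2 * |(u.a : ℝ)| := by
        rw [abs_neg, abs_mul, abs_mul, abs_mul, abs_of_pos (show (0 : ℝ) < 2 by norm_num),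
          abs_of_nonneg (sq_nonneg t)]
      _ ≤ C := add_le_add (add_le_add a3 (mul_le_mul_of_nonneg_left b1 (by positivity)))
        (mul_le_mul_of_nonneg_left a1 (sq_nonneg t))
  set f : V3 → ℤ × ℤ × ℤ := fun u => (u.a, u.b, u.c) with hf
  have hinj : Function.Injective f := by
    intro u v huv
    simp only [hf, Prod.mk.injEq] at huv
    exact V3.ext huv.1 huv.2.1 huv.2.2
  have hfin : (Set.Icc (-⌈A⌉) ⌈A⌉ ×ˢ (Set.Icc (-⌈B⌉) ⌈B⌉ ×ˢ Set.Icc (-⌈C⌉) ⌈C⌉) :
      Set (ℤ × ℤ × ℤ)).Finite :=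
    (Set.finite_Icc _ _).prod ((Set.finite_Icc _ _).prod (Set.finite_Icc _ _))
  refine (hfin.preimage hinj.injOn).subset ?_
  intro u hu
  obtain ⟨h1, h2, h3⟩ := key u hu
  have aux : ∀ (m : ℤ) (R : ℝ), |(m : ℝ)| ≤ R → m ∈ Set.Icc (-⌈R⌉) ⌈R⌉ := by
    intro m R hm
    rw [abs_le] at hm
    have h4 : m ≤ ⌈R⌉ := by
      have : (m : ℝ) ≤ ⌈R⌉ := hm.2.trans (Int.le_ceil R)
      exact_mod_cast this
    have h5 : -⌈R⌉ ≤ m := by
      have : (-(⌈R⌉ : ℝ)) ≤ m := le_trans (neg_le_neg (Int.le_ceil R)) hm.1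
      exact_mod_cast this
    exact ⟨h5, h4⟩
  exact ⟨aux _ _ h1, aux _ _ h2, aux _ _ h3⟩

theorem exists_min {i : ℕ} {x y : V3} {b : ℝ} (h : St i x y b) (S : Set V3) (u0 : V3)
    (hu0 : u0 ∈ S) (hn : nu b y u0 ≤ 1) : ∃ v ∈ S, ∀ u ∈ S, nu b y v ≤ nu b y u := by
  have hfin : (S ∩ {u : V3 | nu b y u ≤ 1}).Finite := (finite_K h).subset Set.inter_subset_right
  obtain ⟨v, hv, hmin⟩ := Set.exists_min_image (S ∩ {u : V3 | nu b y u ≤ 1}) (nu b y) hfin
    ⟨u0, hu0, hn⟩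
  refine ⟨v, hv.1, fun u hu => ?_⟩
  by_cases h1 : nu b y u ≤ 1
  · exact hmin u ⟨hu, h1⟩
  · have h2 : nu b y v ≤ 1 := hv.2
    linarith [not_le.mp h1]

/-- a short vector -/
theorem short {i : ℕ} {x y : V3} {b : ℝ} (h : St i x y b) :
    ∃ v : V3, v ≠ 0 ∧ nu b y v * b ^ 11 ≤ 1 := by
  obtain ⟨hb, hY, hd, hd2, hby⟩ := facts h
  have hb0 : 0 < b := by linarith
  have hb1 : 1 ≤ b := by linarith
  set Y : ℝ := (y.a : ℝ) with hYd
  set d : ℝ := |(det y : ℝ)| with hdd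
  have hd0 : 0 < d := by linarith
  have hsq : (det y : ℝ) ^ 2 = d ^ 2 := by rw [hdd, sq_abs]
  have hY2 : b ^ 470 * d ^ 2 ≤ Y ^ 2 := by
    calc b ^ 470 * d ^ 2 ≤ b ^ 470 * (b ^ 240) ^ 2 := by gcongr
      _ = b ^ 950 := by rw [← pow_mul, ← pow_add]
      _ ≤ b ^ 2000000 := pow_le_pow_right₀ hb1 (by norm_num)
      _ = Y ^ 2 := by rw [← hby, ← pow_mul]
  have hprod : 4 ≤ (Y ^ 2 / (b ^ 14 * d ^ 2)) * (1 / (b ^ 101 * d)) * (b ^ 470 * d ^ 2 / Y ^ 2) := by
    have e : (Y ^ 2 / (b ^ 14 * d ^ 2)) * (1 / (b ^ 101 * d)) * (b ^ 470 * d ^ 2 / Y ^ 2) =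
        b ^ 355 / d := by
      field_simp
    rw [e, le_div_iff₀ hd0]
    calc 4 * d ≤ b * b ^ 240 := mul_le_mul (by linarith) hd2 hd0.le hb0.le
      _ = b ^ 241 := by rw [← pow_succ']
      _ ≤ b ^ 355 := pow_le_pow_right₀ hb1 (by norm_num)
  obtain ⟨v, hv0, hva, hvb, hvc⟩ := WHP.box (tt y) (Y ^ 2 / (b ^ 14 * d ^ 2))
    (1 / (b ^ 101 * d)) (b ^ 470 * d ^ 2 / Y ^ 2) (by positivity)
    (by
      rw [div_le_one (by positivity)]
      calc (1 : ℝ) = 1 * 1 := (mul_one _).symm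
        _ ≤ b ^ 101 * d := mul_le_mul (one_le_pow₀ hb1) hd zero_le_one (by positivity))
    (by positivity)
    (by rw [div_le_one (by positivity)]; exact hY2) hprod
  refine ⟨v, hv0, ?_⟩
  rw [← le_div_iff₀ (pow_pos hb0 11), nu_le_iff]
  refine ⟨?_, ?_, ?_⟩
  · have e : |cV y v| = |(v.a : ℝ)| * d ^ 2 / Y ^ 2 := by
      simp only [cV]
      rw [hsq, abs_div, abs_mul, abs_of_pos (show (0 : ℝ) < d ^ 2 by positivity),
        abs_of_pos (show (0 : ℝ) < (y.a : ℝ) ^ 2 by positivity)]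
    rw [e]
    calc |(v.a : ℝ)| * d ^ 2 / Y ^ 2 * b ^ 3
        ≤ (Y ^ 2 / (b ^ 14 * d ^ 2)) * d ^ 2 / Y ^ 2 * b ^ 3 := by gcongr
      _ = 1 / b ^ 11 := by field_simp
  · have e : |cx y v| = |be (tt y) v| * d := by
      simp only [cx]
      rw [abs_mul, abs_abs]
    rw [e]
    calc |be (tt y) v| * d * b ^ 90 ≤ (1 / (b ^ 101 * d)) * d * b ^ 90 := by gcongr
      _ = 1 / b ^ 11 := by field_simp
  · have e : |cc y v| = |ga (tt y) v| * Y ^ 2 / d ^ 2 := by
      simp only [cc]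
      rw [hsq, abs_div, abs_mul, abs_of_pos (show (0 : ℝ) < d ^ 2 by positivity),
        abs_of_pos (show (0 : ℝ) < (y.a : ℝ) ^ 2 by positivity)]
    rw [e]
    calc |ga (tt y) v| * Y ^ 2 / d ^ 2 / b ^ 481
        ≤ (b ^ 470 * d ^ 2 / Y ^ 2) * Y ^ 2 / d ^ 2 / b ^ 481 := by gcongr
      _ = 1 / b ^ 11 := by field_simp

theorem cross_neg_left (v u : V3) (h : cross (WHP.neg v) u = 0) : cross v u = 0 := by
  have h1 := congrArg V3.a h
  have h2 := congrArg V3.b h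
  have h3 := congrArg V3.c h
  simp only [cross, WHP.neg, WHP.zero_a, WHP.zero_b, WHP.zero_c] at h1 h2 h3
  ext
  · simp only [cross, WHP.zero_a]; linarith
  · simp only [cross, WHP.zero_b]; linarith
  · simp only [cross, WHP.zero_c]; linarith

theorem cross_self (v : V3) (m : ℤ) (u : V3) : cross v (lin m v 0 u) = 0 := by
  ext
  · simp only [cross, lin, WHP.zero_a]; ring
  · simp only [cross, lin, WHP.zero_b]; ring
  · simp only [cross, lin, WHP.zero_c]; ring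

theorem index_le {i : ℕ} {x y : V3} {b : ℝ} (h : St i x y b) (v w Q : V3) (hQ : dot Q v = 1)
    (hmin : ∀ u : V3, u ≠ 0 → nu b y v ≤ nu b y u) (hvw : cross v w ≠ 0)
    (hmin2 : ∀ u : V3, cross v u ≠ 0 → nu b y w ≤ nu b y u) (n : ℤ) (P : V3) (hn : 1 ≤ n)
    (hP : cross v w = lin n P 0 P) : n ≤ 2 := by
  obtain ⟨hb, hY, hd, hd2, hby⟩ := facts h
  have hb0 : 0 < b := by linarith
  by_contra hcon
  push Not at hcon
  have hn3 : 3 ≤ n := by omega
  have hw0 : w ≠ 0 := by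
    rintro rfl
    apply hvw
    ext
    · simp [cross, WHP.zero_a, WHP.zero_b, WHP.zero_c]
    · simp [cross, WHP.zero_a, WHP.zero_b, WHP.zero_c]
    · simp [cross, WHP.zero_a, WHP.zero_b, WHP.zero_c]
  have p1 : v.b * w.c - v.c * w.b = n * P.a := by
    have := congrArg V3.a hP
    simpa [cross, lin] using this
  have p2 : v.c * w.a - v.a * w.c = n * P.b := by
    have := congrArg V3.b hP
    simpa [cross, lin] using this
  have p3 : v.a * w.b - v.b * w.a = n * P.c := by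
    have := congrArg V3.c hP
    simpa [cross, lin] using this
  have hQ' : Q.a * v.a + Q.b * v.b + Q.c * v.c = 1 := hQ
  set k0 : ℤ := dot Q w with hk0
  have hk0' : k0 = Q.a * w.a + Q.b * w.b + Q.c * w.c := rfl
  -- division with small remainder
  obtain ⟨r, hr⟩ : ∃ r : ℤ, |((k0 - n * r : ℤ) : ℝ)| ≤ (n : ℝ) / 2 := by
    refine ⟨round ((k0 : ℝ) / n), ?_⟩
    have hnR : (0 : ℝ) < n := by exact_mod_cast (by omega : (0 : ℤ) < n)
    have h1 := abs_sub_round ((k0 : ℝ) / n)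
    have e : ((k0 - n * round ((k0 : ℝ) / n) : ℤ) : ℝ) = n * ((k0 : ℝ) / n - round ((k0 : ℝ) / n)) := by
      push_cast
      field_simp
    rw [e, abs_mul, abs_of_pos hnR]
    calc (n : ℝ) * |(k0 : ℝ) / n - round ((k0 : ℝ) / n)| ≤ n * (1 / 2) :=
          mul_le_mul_of_nonneg_left h1 hnR.le
      _ = (n : ℝ) / 2 := by ring
  set k : ℤ := k0 - n * r with hk
  -- the vector `(w - k v) / n`
  set u : V3 := ⟨Q.c * P.b - Q.b * P.c + r * v.a, Q.a * P.c - Q.c * P.a + r * v.b,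
    Q.b * P.a - Q.a * P.b + r * v.c⟩ with hu
  have hu' : lin n u 0 u = lin 1 w (-k) v := by
    ext
    · simp only [lin, hu, hk, hk0']
      linear_combination (Q.b) * p3 - (Q.c) * p2 + w.a * hQ'
    · simp only [lin, hu, hk, hk0']
      linear_combination (Q.c) * p1 - (Q.a) * p3 + w.b * hQ'
    · simp only [lin, hu, hk, hk0']
      linear_combination (Q.a) * p2 - (Q.b) * p1 + w.c * hQ'
  have hcr : cross v u ≠ 0 := by
    intro h0
    have q1 : v.b * u.c - v.c * u.b = 0 := by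
      have := congrArg V3.a h0
      simpa [cross, WHP.zero_a] using this
    have q2 : v.c * u.a - v.a * u.c = 0 := by
      have := congrArg V3.b h0
      simpa [cross, WHP.zero_b] using this
    have q3 : v.a * u.b - v.b * u.a = 0 := by
      have := congrArg V3.c h0
      simpa [cross, WHP.zero_c] using this
    have e1 : n * u.a = w.a - k * v.a := by
      have := congrArg V3.a hu'
      simp only [lin] at this
      linarith
    have e2 : n * u.b = w.b - k * v.b := by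
      have := congrArg V3.b hu'
      simp only [lin] at this
      linarith
    have e3 : n * u.c = w.c - k * v.c := by
      have := congrArg V3.c hu'
      simp only [lin] at this
      linarith
    apply hvw
    ext
    · simp only [cross, WHP.zero_a]
      linear_combination n * q1 - v.b * e3 + v.c * e2
    · simp only [cross, WHP.zero_b]
      linear_combination n * q2 - v.c * e1 + v.a * e3
    · simp only [cross, WHP.zero_c]
      linear_combination n * q3 - v.a * e2 + v.b * e1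
  have h1 := hmin2 u hcr
  have h2 := hmin w hw0
  have h3 := nu_pos h w hw0
  have h4 : |(n : ℝ)| * nu b y u = nu b y (lin 1 w (-k) v) := by rw [← nu_smul b y n u u, hu']
  have h5 := nu_lin_le hb0 y 1 (-k) w v
  have hnR : (3 : ℝ) ≤ n := by exact_mod_cast hn3
  have hkR : |((-k : ℤ) : ℝ)| ≤ (n : ℝ) / 2 := by
    push_cast
    rw [abs_neg]
    exact hr
  have hv0 := nu_nonneg hb0 y v
  rw [abs_of_pos (by linarith : (0 : ℝ) < n)] at h4
  have h6 : (n : ℝ) * nu b y u ≤ nu b y w + (n : ℝ) / 2 * nu b y w := by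
    calc (n : ℝ) * nu b y u = nu b y (lin 1 w (-k) v) := h4
      _ ≤ |((1 : ℤ) : ℝ)| * nu b y w + |((-k : ℤ) : ℝ)| * nu b y v := h5
      _ ≤ nu b y w + (n : ℝ) / 2 * nu b y w := by
        have e : |((1 : ℤ) : ℝ)| = 1 := by norm_num
        rw [e, one_mul]
        have := mul_le_mul hkR h2 hv0 (by linarith : (0 : ℝ) ≤ (n : ℝ) / 2)
        linarith
  nlinarith

end PAIR

open WHP (V3 det be ga dot cross lin tt Sm NN B0)

theorem PAIR_thm : Pair := by
  intro i x y b h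
  obtain ⟨hb, hY, hd, hd2, hby⟩ := PAIR.facts h
  have hb0 : 0 < b := by linarith
  have hb1 : 1 ≤ b := by linarith
  obtain ⟨s, hs0, hs⟩ := PAIR.short h
  have hs1 : nu b y s ≤ 1 := by
    calc nu b y s = nu b y s * 1 := (mul_one _).symm
      _ ≤ nu b y s * b ^ 11 :=
        mul_le_mul_of_nonneg_left (one_le_pow₀ hb1) (PAIR.nu_nonneg hb0 y s)
      _ ≤ 1 := hs
  obtain ⟨v', hv'0, hmin'⟩ := PAIR.exists_min h {u : V3 | u ≠ 0} s hs0 hs1
  -- choice of the sign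
  obtain ⟨v, hv0, hva, hmin⟩ : ∃ v : V3, v ≠ 0 ∧ 0 ≤ v.a ∧ ∀ u : V3, u ≠ 0 → nu b y v ≤ nu b y u := by
    rcases le_total 0 v'.a with h1 | h1
    · exact ⟨v', hv'0, h1, fun u hu => hmin' u hu⟩
    · refine ⟨WHP.neg v', ?_, ?_, fun u hu => ?_⟩
      · intro h2
        apply hv'0
        have e1 := congrArg V3.a h2
        have e2 := congrArg V3.b h2
        have e3 := congrArg V3.c h2
        simp only [WHP.neg, WHP.zero_a, WHP.zero_b, WHP.zero_c] at e1 e2 e3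
        ext
        · rw [WHP.zero_a]; omega
        · rw [WHP.zero_b]; omega
        · rw [WHP.zero_c]; omega
      · simp only [WHP.neg]
        omega
      · rw [PAIR.nu_neg]
        exact hmin' u hu
  have hvpos := PAIR.nu_pos h v hv0
  have hshort : nu b y v * b ^ 11 ≤ 1 :=
    (mul_le_mul_of_nonneg_right (hmin s hs0) (pow_nonneg hb0.le _)).trans hs
  obtain ⟨Q, hQ⟩ : ∃ Q : V3, dot Q v = 1 := by
    obtain ⟨n, v1, hn, hnv, p, q, r, hpqr⟩ := WHP.geo_prim v hv0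
    have hv1 : v1 ≠ 0 := by
      rintro rfl
      simp [WHP.zero_a, WHP.zero_b, WHP.zero_c] at hpqr
    have hv1pos := PAIR.nu_pos h v1 hv1
    have h1 : nu b y v = |(n : ℝ)| * nu b y v1 := by
      conv_lhs => rw [hnv]
      exact PAIR.nu_smul b y n v1 v1
    have h2 := hmin v1 hv1
    have hnR : (1 : ℝ) ≤ n := by exact_mod_cast hn
    rw [abs_of_pos (by linarith : (0 : ℝ) < n)] at h1
    have h3 : (n : ℝ) ≤ 1 := by
      by_contra hc
      push Not at hc
      nlinarith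
    have h4 : n = 1 := by
      have : n ≤ 1 := by exact_mod_cast h3
      omega
    refine ⟨⟨p, q, r⟩, ?_⟩
    rw [hnv, h4]
    simp only [dot, lin]
    linarith
  refine ⟨v, hv0, hva, hmin, hshort, ⟨Q, hQ⟩, ?_⟩
  by_cases hall : ∀ u : V3, nu b y u ≤ 1 → cross v u = 0
  · exact Or.inl hall
  · right
    push Not at hall
    obtain ⟨u0, hu0, hu0c⟩ := hall
    obtain ⟨w, hw, hminw⟩ := PAIR.exists_min h {u : V3 | cross v u ≠ 0} u0 hu0c hu0
    refine ⟨w, hw, (hminw u0 hu0c).trans hu0, fun u hu => hminw u hu, ?_⟩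
    obtain ⟨n, P, hn, hP, p, q, r, hpqr⟩ := WHP.geo_prim (cross v w) hw
    refine ⟨n, ⟨p, q, r⟩, hn, ?_, ?_⟩
    · exact PAIR.index_le h v w Q hQ hmin hw (fun u hu => hminw u hu) n P hn hP
    · rw [hP]
      simp only [dot, lin]
      linear_combination n * hpqr

end WHS
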