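import Pool.Agent.WHS.Norm

/-!
# RED: the reduced pair in case (c)
-/

namespace WHS

open WHP (V3 det be ga dot cross lin tt Sm NN B0)

namespace RED

theorem rnd (a a' : ℝ) (ha : a ≠ 0) : ∃ k : ℤ, |a' - k * a| ≤ |a| / 2 ∧
    |(k : ℝ)| * |a| ≤ |a'| + |a| / 2 := by
  have h1 := abs_sub_round (a' / a)
  have ha' : 0 < |a| := abs_pos.2 ha
  have h2 : |a' - round (a' / a) * a| ≤ |a| / 2 := by
    have e : a' - round (a' / a) * a = (a' / a - round (a' / a)) * a := by
      field_simp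
    rw [e, abs_mul]
    calc |a' / a - round (a' / a)| * |a| ≤ 1 / 2 * |a| :=
          mul_le_mul_of_nonneg_right h1 ha'.le
      _ = |a| / 2 := by ring
  refine ⟨round (a' / a), h2, ?_⟩
  have h3 : |(round (a' / a) : ℝ)| * |a| = |a' - (a' - round (a' / a) * a)| := by
    rw [← abs_mul]
    congr 1
    ring
  rw [h3]
  exact (abs_sub _ _).trans (by linarith)

theorem cross_red (v w : V3) (k : ℤ) : cross v (lin k v 1 w) = cross v w := by
  ext <;> simp only [cross, lin] <;> ring

theorem cross_mul_ne {v w : V3} (h : cross v w ≠ 0) {j : ℤ} (hj : j ≠ 0) :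
    cross v (lin j w 0 w) ≠ 0 := by
  rw [WHP.ne_zero_iff] at *
  rintro ⟨h1, h2, h3⟩
  apply h
  simp only [cross, lin] at h1 h2 h3 ⊢
  refine ⟨?_, ?_, ?_⟩
  · have : j * (v.b * w.c - v.c * w.b) = 0 := by linear_combination h1
    exact (mul_eq_zero.1 this).resolve_left hj
  · have : j * (v.c * w.a - v.a * w.c) = 0 := by linear_combination h2
    exact (mul_eq_zero.1 this).resolve_left hj
  · have : j * (v.a * w.b - v.b * w.a) = 0 := by linear_combination h3
    exact (mul_eq_zero.1 this).resolve_left hj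

/-- a floor -/
theorem flr {l : ℝ} (h0 : 0 < l) (h1 : l ≤ 1) : ∃ j : ℕ, (j : ℝ) * l ≤ 1 ∧ 1 ≤ 2 * l * j ∧
    0 < j := by
  refine ⟨⌊1 / l⌋₊, ?_, ?_, ?_⟩
  · have := Nat.floor_le (by positivity : 0 ≤ 1 / l)
    rwa [le_div_iff₀ h0] at this
  · have h2 := Nat.lt_floor_add_one (1 / l)
    rw [div_lt_iff₀ h0] at h2
    have h3 : (1 : ℝ) ≤ ⌊1 / l⌋₊ := by
      have : 1 ≤ ⌊1 / l⌋₊ := by
        rw [Nat.one_le_floor_iff, le_div_iff₀ h0]
        linarith
      exact_mod_cast this
    nlinarith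
  · rw [Nat.floor_pos, le_div_iff₀ h0]
    linarith

/-- the final estimates -/
theorem fin {b Vv Vw xv xw cv cw l1 l2 : ℝ} (hb : 1 ≤ b) (h1 : 0 < l1) (h2 : l1 ≤ l2)
    (hVv : |Vv| * b ^ 134 ≤ 24 * l1) (hVw : |Vw| * b ^ 134 ≤ 6 * l2)
    (hxv : |xv| * b ^ 90 ≤ l1) (hxw : |xw| * b ^ 90 ≤ l2)
    (hcv : |cv| ≤ l1 * b ^ 481) (hcw : |cw| ≤ l2 * b ^ 481)
    (hd : 1 ≤ 32 * l1 ^ 2 * b ^ 347)
    (ha : l1 * l2 * b ^ 391 ≤ 2 * |xv * cw - cv * xw|) :
    b ^ 44 / 64 ≤ |xv * cw - cv * xw| ∧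
    ∃ p q : ℝ, |p| ≤ 60 / b ^ 44 ∧ |q| ≤ 60 / b ^ 615 ∧
      Vv = p * xv + q * cv ∧ Vw = p * xw + q * cw := by
  have hb0 : 0 < b := by linarith
  have hl2 : 0 < l2 := by linarith
  have hD : b ^ 44 / 64 ≤ |xv * cw - cv * xw| := by
    have e : b ^ 44 ≤ 64 * |xv * cw - cv * xw| := by
      calc b ^ 44 = b ^ 44 * 1 := by ring
        _ ≤ b ^ 44 * (32 * l1 ^ 2 * b ^ 347) := mul_le_mul_of_nonneg_left hd (by positivity)
        _ = 32 * (l1 * l1 * b ^ 391) := by ring
        _ ≤ 32 * (l1 * l2 * b ^ 391) := by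
          refine mul_le_mul_of_nonneg_left ?_ (by norm_num)
          refine mul_le_mul_of_nonneg_right ?_ (by positivity)
          exact mul_le_mul_of_nonneg_left h2 h1.le
        _ ≤ 32 * (2 * |xv * cw - cv * xw|) := mul_le_mul_of_nonneg_left ha (by norm_num)
        _ = _ := by ring
    linarith
  have hDp : 0 < |xv * cw - cv * xw| := lt_of_lt_of_le (by positivity) hD
  have hDne : xv * cw - cv * xw ≠ 0 := abs_pos.1 hDp
  refine ⟨hD, (Vv * cw - Vw * cv) / (xv * cw - cv * xw), (xv * Vw - xw * Vv) / (xv * cw - cv * xw),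
    ?_, ?_, ?_, ?_⟩
  · rw [abs_div, div_le_div_iff₀ hDp (by positivity)]
    have e1 : |Vv * cw - Vw * cv| * b ^ 134 ≤ 30 * (l1 * l2 * b ^ 391) * b ^ 90 := by
      calc |Vv * cw - Vw * cv| * b ^ 134 ≤ (|Vv| * |cw| + |Vw| * |cv|) * b ^ 134 := by
            refine mul_le_mul_of_nonneg_right ?_ (by positivity)
            refine (abs_sub _ _).trans ?_
            rw [abs_mul, abs_mul]
        _ = (|Vv| * b ^ 134) * |cw| + (|Vw| * b ^ 134) * |cv| := by ring
        _ ≤ (24 * l1) * (l2 * b ^ 481) + (6 * l2) * (l1 * b ^ 481) :=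
          add_le_add (mul_le_mul hVv hcw (abs_nonneg _) (by positivity))
            (mul_le_mul hVw hcv (abs_nonneg _) (by positivity))
        _ = 30 * (l1 * l2 * b ^ 391) * b ^ 90 := by ring
    have e2 : (|Vv * cw - Vw * cv| * b ^ 44) * b ^ 90 ≤ (60 * |xv * cw - cv * xw|) * b ^ 90 := by
      calc (|Vv * cw - Vw * cv| * b ^ 44) * b ^ 90 = |Vv * cw - Vw * cv| * b ^ 134 := by ring
        _ ≤ 30 * (l1 * l2 * b ^ 391) * b ^ 90 := e1
        _ ≤ 30 * (2 * |xv * cw - cv * xw|) * b ^ 90 := by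
          refine mul_le_mul_of_nonneg_right ?_ (by positivity)
          exact mul_le_mul_of_nonneg_left ha (by norm_num)
        _ = _ := by ring
    exact le_of_mul_le_mul_right e2 (by positivity)
  · rw [abs_div, div_le_div_iff₀ hDp (by positivity)]
    have e1 : |xv * Vw - xw * Vv| * b ^ 224 ≤ 30 * (l1 * l2) := by
      calc |xv * Vw - xw * Vv| * b ^ 224 ≤ (|xv| * |Vw| + |xw| * |Vv|) * b ^ 224 := by
            refine mul_le_mul_of_nonneg_right ?_ (by positivity)
            refine (abs_sub _ _).trans ?_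
            rw [abs_mul, abs_mul]
        _ = (|xv| * b ^ 90) * (|Vw| * b ^ 134) + (|xw| * b ^ 90) * (|Vv| * b ^ 134) := by ring
        _ ≤ l1 * (6 * l2) + l2 * (24 * l1) :=
          add_le_add (mul_le_mul hxv hVw (by positivity) h1.le)
            (mul_le_mul hxw hVv (by positivity) hl2.le)
        _ = 30 * (l1 * l2) := by ring
    calc |xv * Vw - xw * Vv| * b ^ 615 = (|xv * Vw - xw * Vv| * b ^ 224) * b ^ 391 := by ring
      _ ≤ (30 * (l1 * l2)) * b ^ 391 := mul_le_mul_of_nonneg_right e1 (by positivity)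
      _ = 30 * (l1 * l2 * b ^ 391) := by ring
      _ ≤ 30 * (2 * |xv * cw - cv * xw|) := mul_le_mul_of_nonneg_left ha (by norm_num)
      _ = _ := by ring
  · rw [div_mul_eq_mul_div, div_mul_eq_mul_div, ← add_div, eq_div_iff hDne]
    ring
  · rw [div_mul_eq_mul_div, div_mul_eq_mul_div, ← add_div, eq_div_iff hDne]
    ring

/-- the reduced pair: one of two coordinates is large -/
theorem big {xv cv xw' cw' l1 l2 s r : ℝ} (h1 : 0 < l1) (h2 : l1 ≤ l2) (hs : 0 < s) (hr : 0 < r)
    (hxv : |xv| * s = l1) (hcv : |cv| ≤ l1 * r) (hxw : |xw'| * s ≤ l1 / 2) (hcw : l2 * r ≤ |cw'|) :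
    l1 * l2 * (r / s) ≤ 2 * |xv * cw' - cv * xw'| := by
  have e1 : |xv| * |cw'| - |cv| * |xw'| ≤ |xv * cw' - cv * xw'| := by
    rw [← abs_mul, ← abs_mul]
    exact abs_sub_abs_le_abs_sub _ _
  have e2 : |xv| = l1 / s := by
    rw [eq_div_iff hs.ne']
    exact hxv
  have e3 : |xw'| ≤ l1 / 2 / s := by
    rw [le_div_iff₀ hs]
    exact hxw
  have e4 : l1 / s * (l2 * r) ≤ |xv| * |cw'| := by
    rw [e2]
    exact mul_le_mul_of_nonneg_left hcw (by positivity)
  have e5 : |cv| * |xw'| ≤ l1 * r * (l1 / 2 / s) := mul_le_mul hcv e3 (abs_nonneg _) (by positivity)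
  have e6 : l1 * r * (l1 / 2 / s) ≤ l1 * r * (l2 / 2 / s) := by
    refine mul_le_mul_of_nonneg_left ?_ (by positivity)
    rw [div_le_div_iff_of_pos_right hs]
    linarith
  have e7 : l1 / s * (l2 * r) = l1 * l2 * (r / s) := by
    field_simp
  have e8 : l1 * r * (l2 / 2 / s) = l1 * l2 * (r / s) / 2 := by
    field_simp
  linarith

end RED

open RED in
theorem RED_thm (hC : Claim1) : Red := by
  intro i x y v w b h hv hva hmin hb11 hvw hw1 hmin2 hU hj
  have hb := h.b1
  have hb0 := h.b0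
  have hbig := h.big
  have hw0 : w ≠ 0 := by
    rintro rfl
    apply hvw
    ext <;> simp [cross, WHP.zero_a, WHP.zero_b, WHP.zero_c]
  have hl1 : 0 < nu b y v := nu_pos h hv
  have hl12 : nu b y v ≤ nu b y w := hmin w hw0
  have hl2 : 0 < nu b y w := hl1.trans_le hl12
  have hl1' : nu b y v ≤ 1 := hl12.trans hw1
  have hVv0 : 0 ≤ cV y v := by
    unfold cV
    have : (0 : ℝ) ≤ v.a := by exact_mod_cast hva
    positivity
  have nV := nu_V b y v
  have nx := nu_x b y v
  have nc := nu_c b y v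
  have mV := nu_V b y w
  have mx := nu_x b y w
  have mc := nu_c b y w
  rw [div_le_iff₀ (h.pp 481)] at nc mc
  -- the bound for `V_v`
  have hVv : |cV y v| * b ^ 134 ≤ 24 * nu b y v := by
    obtain ⟨j, j1, j2, -⟩ := flr hl1 hl1'
    have h3 := hj j j1
    rw [lt_div_iff₀ (h.pp 134)] at h3
    rw [abs_of_nonneg hVv0]
    have h4 : 0 ≤ cV y v * b ^ 134 := mul_nonneg hVv0 (h.pp 134).le
    calc cV y v * b ^ 134 = 1 * (cV y v * b ^ 134) := (one_mul _).symm
      _ ≤ (2 * nu b y v * j) * (cV y v * b ^ 134) := mul_le_mul_of_nonneg_right j2 h4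
      _ = 2 * nu b y v * (j * cV y v * b ^ 134) := by ring
      _ ≤ 2 * nu b y v * 12 := mul_le_mul_of_nonneg_left h3.le (by positivity)
      _ = _ := by ring
  have hVw : |cV y w| * b ^ 134 ≤ 6 * nu b y w := by
    obtain ⟨j, j1, j2, j3⟩ := flr hl2 hw1
    have h3 : nu b y (lin j w 0 w) ≤ 1 := by
      refine (nu_lin_le hb0 y j 0 w w).trans ?_
      simp only [Int.cast_natCast, Nat.abs_cast, Int.cast_zero, abs_zero, zero_mul, add_zero]
      exact j1
    have h4 := hU _ h3 (cross_mul_ne hvw (by exact_mod_cast j3.ne'))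
    rw [cV_lin, lt_div_iff₀ (h.pp 134)] at h4
    simp only [Int.cast_natCast, Int.cast_zero, zero_mul, add_zero] at h4
    rw [abs_mul, Nat.abs_cast] at h4
    have h5 : 0 ≤ |cV y w| * b ^ 134 := mul_nonneg (abs_nonneg _) (h.pp 134).le
    calc |cV y w| * b ^ 134 = 1 * (|cV y w| * b ^ 134) := (one_mul _).symm
      _ ≤ (2 * nu b y w * j) * (|cV y w| * b ^ 134) := mul_le_mul_of_nonneg_right j2 h5
      _ = 2 * nu b y w * (j * |cV y w| * b ^ 134) := by ring
      _ ≤ 2 * nu b y w * 3 := mul_le_mul_of_nonneg_left h4.le (by positivity)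
      _ = _ := by ring
  -- powers
  have hb131 : 42 < b ^ 131 := by
    calc (42 : ℝ) < b := by linarith
      _ = b ^ 1 := (pow_one b).symm
      _ ≤ b ^ 131 := h.pw (by norm_num)
  -- the determinant
  have hdet : det v ≠ 0 := by
    refine claim1_norm hC h hv ?_ ?_ ?_
    · have h3 : |cV y v| * b ^ 134 ≤ 24 := hVv.trans (by linarith)
      have h4 : 24 < b ^ 134 := by
        calc (24 : ℝ) < b := by linarith
          _ = b ^ 1 := (pow_one b).symm
          _ ≤ b ^ 134 := h.pw (by norm_num)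
      by_contra hc
      push Not at hc
      have := mul_le_mul_of_nonneg_right hc (h.pp 134).le
      linarith
    · rw [le_div_iff₀ (h.pp 80)]
      calc |cx y v| * b ^ 80 ≤ |cx y v| * b ^ 90 :=
            mul_le_mul_of_nonneg_left (h.pw (by norm_num)) (abs_nonneg _)
        _ ≤ 1 := nx.trans hl1'
    · calc |cc y v| ≤ nu b y v * b ^ 481 := nc
        _ ≤ 1 * b ^ 740 := mul_le_mul hl1' (h.pw (by norm_num)) (h.pp _).le zero_le_one
        _ = _ := one_mul _
  have hd : 1 ≤ 32 * nu b y v ^ 2 * b ^ 347 := by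
    have h3 : (1 : ℝ) ≤ |(det v : ℝ)| := by
      have h1 : (1 : ℤ) ≤ |det v| := Int.one_le_abs hdet
      exact_mod_cast h1
    rw [det_norm h v] at h3
    have h4 : cx y v ^ 2 / (det y : ℝ) ^ 2 ≤ 1 / 4 := by
      have h5 : cx y v ^ 2 ≤ 1 / 4 := by
        have h6 : |cx y v| ≤ 1 / 2 := by
          have h7 : |cx y v| * 2 ≤ |cx y v| * b ^ 90 := by
            refine mul_le_mul_of_nonneg_left ?_ (abs_nonneg _)
            calc (2 : ℝ) ≤ b := by linarith
              _ = b ^ 1 := (pow_one b).symm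
              _ ≤ b ^ 90 := h.pw (by norm_num)
          linarith
        rw [← sq_abs]
        nlinarith [abs_nonneg (cx y v)]
      have h8 : (1 : ℝ) ≤ (det y : ℝ) ^ 2 := by
        rw [← sq_abs]
        exact one_le_pow₀ h.d1
      calc cx y v ^ 2 / (det y : ℝ) ^ 2 ≤ cx y v ^ 2 := div_le_self (sq_nonneg _) h8
        _ ≤ 1 / 4 := h5
    have h9 : 0 ≤ cx y v ^ 2 / (det y : ℝ) ^ 2 := by
      have := h.dsq
      positivity
    have h10 : 3 / 4 ≤ |cV y v| * |cc y v| := by
      have h11 := h3.trans (abs_sub _ _)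
      rw [abs_mul, abs_of_nonneg h9] at h11
      linarith
    have h12 : 3 / 4 * b ^ 134 ≤ 24 * nu b y v ^ 2 * b ^ 347 * b ^ 134 := by
      calc 3 / 4 * b ^ 134 ≤ |cV y v| * |cc y v| * b ^ 134 :=
            mul_le_mul_of_nonneg_right h10 (h.pp _).le
        _ = (|cV y v| * b ^ 134) * |cc y v| := by ring
        _ ≤ (24 * nu b y v) * (nu b y v * b ^ 481) :=
          mul_le_mul hVv nc (abs_nonneg _) (by positivity)
        _ = _ := by ring
    have h13 := le_of_mul_le_mul_right h12 (h.pp 134)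
    linarith
  -- main estimate
  have key : ∀ k : ℤ, |(k : ℝ)| * nu b y v ≤ nu b y w + nu b y v / 2 →
      |cV y (lin (-k) v 1 w)| * b ^ 3 < nu b y w := by
    intro k hk
    rw [cV_lin]
    push_cast
    have h3 : |-(k : ℝ) * cV y v + 1 * cV y w| ≤ |(k : ℝ)| * |cV y v| + |cV y w| := by
      refine (abs_add_le _ _).trans ?_
      rw [abs_mul, abs_neg, one_mul]
    have h4 : |-(k : ℝ) * cV y v + 1 * cV y w| * b ^ 3 * b ^ 131 ≤ 42 * nu b y w := by
      calc |-(k : ℝ) * cV y v + 1 * cV y w| * b ^ 3 * b ^ 131 =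
            |-(k : ℝ) * cV y v + 1 * cV y w| * b ^ 134 := by ring
        _ ≤ (|(k : ℝ)| * |cV y v| + |cV y w|) * b ^ 134 :=
          mul_le_mul_of_nonneg_right h3 (h.pp _).le
        _ = |(k : ℝ)| * (|cV y v| * b ^ 134) + |cV y w| * b ^ 134 := by ring
        _ ≤ |(k : ℝ)| * (24 * nu b y v) + 6 * nu b y w :=
          add_le_add (mul_le_mul_of_nonneg_left hVv (abs_nonneg _)) hVw
        _ = 24 * (|(k : ℝ)| * nu b y v) + 6 * nu b y w := by ring
        _ ≤ 24 * (nu b y w + nu b y v / 2) + 6 * nu b y w := by linarith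
        _ ≤ 42 * nu b y w := by linarith
    have h5 : 42 * nu b y w < nu b y w * b ^ 131 := by
      rw [mul_comm]
      exact mul_lt_mul_of_pos_left hb131 hl2
    exact lt_of_mul_lt_mul_right (h4.trans_lt h5) (h.pp 131).le
  have ha : nu b y v * nu b y w * b ^ 391 ≤ 2 * |cx y v * cc y w - cc y v * cx y w| := by
    rcases nu_cases b y v with hc | hc | hc
    · exfalso
      have h3 : |cV y v| * b ^ 3 * b ^ 131 ≤ 24 * nu b y v := by
        calc |cV y v| * b ^ 3 * b ^ 131 = |cV y v| * b ^ 134 := by ring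
          _ ≤ _ := hVv
      rw [← hc] at h3
      have h4 : 24 * nu b y v < nu b y v * b ^ 131 := by
        rw [mul_comm]
        exact mul_lt_mul_of_pos_left (by linarith) hl1
      linarith
    · have hxne : cx y v ≠ 0 := by
        intro h0
        rw [h0, abs_zero, zero_mul] at hc
        exact hl1.ne' hc
      obtain ⟨k, k1, k2⟩ := rnd (cx y v) (cx y w) hxne
      have k3 : |(k : ℝ)| * nu b y v ≤ nu b y w + nu b y v / 2 := by
        rw [hc]
        calc |(k : ℝ)| * (|cx y v| * b ^ 90) = (|(k : ℝ)| * |cx y v|) * b ^ 90 := by ring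
          _ ≤ (|cx y w| + |cx y v| / 2) * b ^ 90 := mul_le_mul_of_nonneg_right k2 (h.pp _).le
          _ = |cx y w| * b ^ 90 + |cx y v| * b ^ 90 / 2 := by ring
          _ ≤ nu b y w + |cx y v| * b ^ 90 / 2 := by linarith
      have k4 := key k k3
      have k5 := hmin2 (lin (-k) v 1 w) (by rw [cross_red]; exact hvw)
      have k6 : |cx y (lin (-k) v 1 w)| * b ^ 90 ≤ nu b y v / 2 := by
        rw [cx_lin]
        push_cast
        rw [show -(k : ℝ) * cx y v + 1 * cx y w = cx y w - k * cx y v by ring, hc]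
        calc |cx y w - k * cx y v| * b ^ 90 ≤ |cx y v| / 2 * b ^ 90 :=
              mul_le_mul_of_nonneg_right k1 (h.pp _).le
          _ = _ := by ring
      have k7 : nu b y w * b ^ 481 ≤ |cc y (lin (-k) v 1 w)| := by
        rw [← le_div_iff₀ (h.pp 481)]
        rcases nu_cases b y (lin (-k) v 1 w) with hc' | hc' | hc'
        · rw [hc'] at k5
          linarith
        · rw [hc'] at k5
          linarith
        · rw [hc'] at k5
          exact k5
      have k8 := big hl1 hl12 (h.pp 90) (h.pp 481) hc.symm nc k6 k7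
      have e1 : b ^ 481 / b ^ 90 = b ^ 391 := by
        rw [div_eq_iff (h.pp 90).ne', ← pow_add]
      have e2 : cx y v * cc y (lin (-k) v 1 w) - cc y v * cx y (lin (-k) v 1 w) =
          cx y v * cc y w - cc y v * cx y w := by
        rw [cx_lin, cc_lin]
        push_cast
        ring
      rw [e1, e2] at k8
      exact k8
    · have hcne : cc y v ≠ 0 := by
        intro h0
        rw [h0, abs_zero, zero_div] at hc
        exact hl1.ne' hc
      obtain ⟨k, k1, k2⟩ := rnd (cc y v) (cc y w) hcne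
      have k3 : |(k : ℝ)| * nu b y v ≤ nu b y w + nu b y v / 2 := by
        rw [hc]
        calc |(k : ℝ)| * (|cc y v| / b ^ 481) = (|(k : ℝ)| * |cc y v|) / b ^ 481 := by ring
          _ ≤ (|cc y w| + |cc y v| / 2) / b ^ 481 := div_le_div_of_nonneg_right k2 (h.pp _).le
          _ = |cc y w| / b ^ 481 + |cc y v| / b ^ 481 / 2 := by ring
          _ ≤ nu b y w + |cc y v| / b ^ 481 / 2 := by
            have := nu_c b y w
            linarith
      have k4 := key k k3
      have k5 := hmin2 (lin (-k) v 1 w) (by rw [cross_red]; exact hvw)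
      have k6 : |cc y (lin (-k) v 1 w)| / b ^ 481 ≤ nu b y v / 2 := by
        rw [cc_lin]
        push_cast
        rw [show -(k : ℝ) * cc y v + 1 * cc y w = cc y w - k * cc y v by ring, hc]
        calc |cc y w - k * cc y v| / b ^ 481 ≤ |cc y v| / 2 / b ^ 481 :=
              div_le_div_of_nonneg_right k1 (h.pp _).le
          _ = _ := by ring
      have k7 : nu b y w ≤ |cx y (lin (-k) v 1 w)| * b ^ 90 := by
        rcases nu_cases b y (lin (-k) v 1 w) with hc' | hc' | hc'
        · rw [hc'] at k5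
          linarith
        · rw [hc'] at k5
          exact k5
        · rw [hc'] at k5
          linarith
      have k8 := big (xv := cc y v) (cv := cx y v) (xw' := cc y (lin (-k) v 1 w))
        (cw' := cx y (lin (-k) v 1 w)) (s := 1 / b ^ 481) (r := 1 / b ^ 90) hl1 hl12
        (one_div_pos.2 (h.pp 481)) (one_div_pos.2 (h.pp 90)) (by rw [mul_one_div]; exact hc.symm)
        (by rw [mul_one_div, le_div_iff₀ (h.pp 90)]; exact nx)
        (by rw [mul_one_div]; exact k6)
        (by rw [mul_one_div, div_le_iff₀ (h.pp 90)]; exact k7)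
      have e1 : 1 / b ^ 90 / (1 / b ^ 481) = b ^ 391 := by
        rw [div_div_div_cancel_left' _ _ one_ne_zero]
        rw [div_eq_iff (h.pp 90).ne', ← pow_add]
      have e2 : cc y v * cx y (lin (-k) v 1 w) - cx y v * cc y (lin (-k) v 1 w) =
          -(cx y v * cc y w - cc y v * cx y w) := by
        rw [cx_lin, cc_lin]
        push_cast
        ring
      rw [e1, e2, abs_neg] at k8
      exact k8
  have res := fin hb hl1 hl12 hVv hVw nx mx nc mc hd ha
  exact res

end WHS
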