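import Pool.Agent.WHS.Stmts

/-!
# ROOT: a good polynomial has a near root
-/

namespace WHS

open WHP (V3 det be ga dot cross lin tt Sm NN B0)

namespace ROOT

theorem taylor (P : V3) (ξ h : ℝ) : ev P (ξ + h) = ev P ξ + der P ξ * h + (P.c : ℝ) * h ^ 2 := by
  unfold ev der
  ring

theorem quad (c D E s : ℝ) (hD : D ≠ 0) (hs : 0 ≤ s) (hs2 : s ^ 2 = 1 - 4 * c * E / D ^ 2) :
    E + D * (-2 * E / (D * (1 + s))) + c * (-2 * E / (D * (1 + s))) ^ 2 = 0 := by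
  have h1 : (1 + s) ≠ 0 := by positivity
  have h2 : D ^ 2 * s ^ 2 = D ^ 2 - 4 * c * E := by
    rw [hs2]
    field_simp
  field_simp
  linear_combination E * h2

end ROOT

theorem ROOT_thm : Root := by
  intro P ξ hD h
  have hD2 : 0 < der P ξ ^ 2 := by positivity
  have h1 : 4 * (P.c : ℝ) * ev P ξ / der P ξ ^ 2 ≤ 1 := by
    rw [div_le_one hD2]
    have h2 : (P.c : ℝ) * ev P ξ ≤ |(P.c : ℝ)| * |ev P ξ| := by
      rw [← abs_mul]
      exact le_abs_self _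
    nlinarith [abs_nonneg (P.c : ℝ), abs_nonneg (ev P ξ)]
  obtain ⟨s, hs⟩ : ∃ s, s = √(1 - 4 * (P.c : ℝ) * ev P ξ / der P ξ ^ 2) := ⟨_, rfl⟩
  have hs0 : 0 ≤ s := by
    rw [hs]
    exact Real.sqrt_nonneg _
  have hs2 : s ^ 2 = 1 - 4 * (P.c : ℝ) * ev P ξ / der P ξ ^ 2 := by
    rw [hs, Real.sq_sqrt (by linarith)]
  refine ⟨ξ + -2 * ev P ξ / (der P ξ * (1 + s)), ?_, ?_⟩
  · rw [ROOT.taylor]
    exact ROOT.quad _ _ _ _ hD hs0 hs2
  · have h3 : |ξ - (ξ + -2 * ev P ξ / (der P ξ * (1 + s)))| * |der P ξ| =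
        2 * |ev P ξ| / (1 + s) := by
      rw [← abs_mul]
      have h4 : (ξ - (ξ + -2 * ev P ξ / (der P ξ * (1 + s)))) * der P ξ =
          2 * ev P ξ / (1 + s) := by
        have h5 : (1 + s) ≠ 0 := by positivity
        field_simp
        ring
      rw [h4, abs_div, abs_mul, abs_two, abs_of_pos (by linarith : 0 < 1 + s)]
    rw [h3]
    exact div_le_self (by positivity) (by linarith)

end WHS
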