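import Pool.Agent.WHS.Stmts

/-!
# SERVE: one child step (MP_c538e3_nt)
-/

namespace WHS

/-- Every `H` between the heights of `x × y` and `y × z` is served. -/
theorem SERVE_thm (h1 : Dist) (h2 : Srv1) (h3 : Srv2) : ServedStep := by
  intro i j x y z b bz hx hf hz hc
  obtain ⟨-, hb, hy, hI, -⟩ := h1 i j x y z b bz hx hz hc
  refine ⟨hI, hb, hy, fun ξ hξ H hH hH' => ?_⟩
  rcases le_total H (b ^ 650000) with h | h
  · exact h2 i j x y z b bz ξ H hx hf hz hc hξ hH h
  · exact h3 i j x y z b bz ξ H hx hf hz hc hξ h hH'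

end WHS
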