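import Pool.Agent.WHS.Stmts

/-!
# Module SRV2: large `H`
-/

namespace WHS

open WHP (V3 det be ga dot cross lin tt Sm NN B0)

namespace SRV2

theorem gen_pow (n : ℕ) (p b H q : ℝ) (hp : 0 ≤ p) (hb : 0 ≤ b) (hH : H ≤ b ^ n)
    (h : p * b ≤ q) : p ^ n * H ≤ q ^ n := by
  calc p ^ n * H ≤ p ^ n * b ^ n := mul_le_mul_of_nonneg_left hH (pow_nonneg hp n)
    _ = (p * b) ^ n := (mul_pow p b n).symm
    _ ≤ q ^ n := pow_le_pow_left₀ (mul_nonneg hp hb) h n

theorem hh_nonneg (P : V3) : 0 ≤ hh P := (abs_nonneg _).trans (le_max_left _ _)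

theorem a_le (P : V3) : |(P.a : ℝ)| ≤ hh P := le_max_left _ _

theorem b_le (P : V3) : |(P.b : ℝ)| ≤ hh P := (le_max_left _ _).trans (le_max_right _ _)

theorem c_le (P : V3) : |(P.c : ℝ)| ≤ hh P := (le_max_right _ _).trans (le_max_right _ _)

theorem hh_ge_one {P : V3} (hP : P ≠ 0) : 1 ≤ hh P := by
  have h := (WHP.ne_zero_iff P).1 hP
  have one (n : ℤ) (hn : n ≠ 0) : (1 : ℝ) ≤ |(n : ℝ)| := by
    rw [← Int.cast_abs]
    exact_mod_cast Int.one_le_abs hn
  by_cases ha : P.a = 0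
  · by_cases hb : P.b = 0
    · have hc : P.c ≠ 0 := fun hc => h ⟨ha, hb, hc⟩
      exact (one _ hc).trans (c_le P)
    · exact (one _ hb).trans (b_le P)
  · exact (one _ ha).trans (a_le P)

theorem good_of {P : V3} {H ξ b : ℝ} (hP : P ≠ 0) (hH : hh P ≤ H) (hb : 0 < b)
    (hHb : H ≤ b ^ NN) (h1 : 0 < |der P ξ|) (h2 : 8 * |(P.c : ℝ)| * |ev P ξ| ≤ der P ξ ^ 2)
    (h3 : |ev P ξ| * hh P * H ^ 2 * b ≤ |der P ξ|) : Good H ξ := by
  refine ⟨P, hP, hH, abs_pos.1 h1, h2, ?_⟩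
  exact gen_pow NN _ b H _ (mul_nonneg (mul_nonneg (abs_nonneg _) (hh_nonneg P)) (sq_nonneg _))
    hb.le hHb h3

theorem taylor_ev (P : V3) (t ξ : ℝ) :
    ev P ξ = ev P t + der P t * (ξ - t) + P.c * (ξ - t) ^ 2 := by
  simp only [ev, der]; ring

theorem taylor_der (P : V3) (t ξ : ℝ) : der P ξ = der P t + 2 * P.c * (ξ - t) := by
  simp only [der]; ring

/-- case A -/
theorem caseA {P : V3} {H ξ b t d r m Y : ℝ} (hP : P ≠ 0) (hH : hh P ≤ H) (hb : 1000000 ≤ b)
    (hHb : H ≤ b ^ NN) (hr : 1 ≤ r) (hd : 1 ≤ d) (hY : 0 < Y) (hm : 0 ≤ m)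
    (hY1 : 57800 * (r ^ 3 * d) ≤ Y)
    (hstar : b ^ 2 * (m * r ^ 2) ≤ 1) (hHd : H * d ≤ 4 * Y * m)
    (hx : |ξ - t| * Y ^ 2 ≤ 1001 / 1000 * (d * r))
    (he : |ev P ξ| * H * Y ≤ 25 * (d * r))
    (hA : hh P ≤ 16 * r * |der P t|) : Good H ξ := by
  have hR := hh_ge_one hP
  set R := hh P with hRdef
  have hbp : 0 < b := by linarith
  have hrp : 0 < r := by linarith
  have hdp : 0 < d := by linarith
  have hH1 : 1 ≤ H := hR.trans hH
  have hHp : 0 < H := by linarith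
  have hRp : 0 < R := by linarith
  -- lower bound for the derivative
  have hder : R ≤ 17 * r * |der P ξ| := by
    have h1 : |der P t| ≤ |der P ξ| + 2 * R * |ξ - t| := by
      have e : der P t = der P ξ - 2 * P.c * (ξ - t) := by rw [taylor_der P t ξ]; ring
      rw [e]
      refine (abs_sub _ _).trans ?_
      have : |2 * (P.c : ℝ) * (ξ - t)| = 2 * |(P.c : ℝ)| * |ξ - t| := by
        rw [abs_mul, abs_mul, abs_two]
      rw [this]
      have := mul_le_mul_of_nonneg_right (c_le P) (abs_nonneg (ξ - t))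
      linarith
    have h2 : 545 * r * (r * |ξ - t|) ≤ 1001 / 1000 := by
      have h3 : 545 * r * (r * |ξ - t|) * Y ^ 2 ≤ 1001 / 1000 * Y ^ 2 := by
        calc 545 * r * (r * |ξ - t|) * Y ^ 2 = 545 * r ^ 2 * (|ξ - t| * Y ^ 2) := by ring
          _ ≤ 545 * r ^ 2 * (1001 / 1000 * (d * r)) := by
              apply mul_le_mul_of_nonneg_left hx (by positivity)
          _ ≤ 1001 / 1000 * Y ^ 2 := by
              have h57 : 57800 * (r ^ 3 * d) * 1 ≤ Y * Y := by
                have h58 : 1 ≤ Y := by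
                  have : 1 ≤ r ^ 3 * d := by
                    have := one_le_pow₀ hr (n := 3)
                    nlinarith
                  linarith
                exact mul_le_mul hY1 h58 zero_le_one hY.le
              nlinarith
      exact le_of_mul_le_mul_right h3 (by positivity)
    have h4 : 16 * r * (2 * R * |ξ - t|) ≤ R / 17 := by
      have : 16 * r * (2 * R * |ξ - t|) * 545 ≤ R * 32 * (1001 / 1000) := by
        have h5 : r * |ξ - t| * 545 ≤ 1001 / 1000 := by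
          have h6 : 0 ≤ r * |ξ - t| := by positivity
          nlinarith
        calc 16 * r * (2 * R * |ξ - t|) * 545 = R * 32 * (r * |ξ - t| * 545) := by ring
          _ ≤ R * 32 * (1001 / 1000) := mul_le_mul_of_nonneg_left h5 (by positivity)
      nlinarith
    have h7 : R ≤ 16 * r * |der P ξ| + R / 17 := by
      calc R ≤ 16 * r * |der P t| := hA
        _ ≤ 16 * r * (|der P ξ| + 2 * R * |ξ - t|) :=
            mul_le_mul_of_nonneg_left h1 (by positivity)
        _ ≤ 16 * r * |der P ξ| + R / 17 := by linarith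
    nlinarith
  have hderp : 0 < |der P ξ| := by
    by_contra hc
    push Not at hc
    have : |der P ξ| = 0 := le_antisymm hc (abs_nonneg _)
    rw [this] at hder
    linarith
  refine good_of hP hH hbp hHb hderp ?_ ?_
  · -- 8 |c| e ≤ der²
    have h1 : R ^ 2 ≤ 289 * r ^ 2 * der P ξ ^ 2 := by
      have := mul_self_le_mul_self hRp.le hder
      have e2 : |der P ξ| * |der P ξ| = der P ξ ^ 2 := by rw [← sq, sq_abs]
      calc R ^ 2 = R * R := by ring
        _ ≤ 17 * r * |der P ξ| * (17 * r * |der P ξ|) := this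
        _ = 289 * r ^ 2 * (|der P ξ| * |der P ξ|) := by ring
        _ = 289 * r ^ 2 * der P ξ ^ 2 := by rw [e2]
    have h2 : 2312 * r ^ 2 * |ev P ξ| ≤ 1 := by
      have h3 : 2312 * r ^ 2 * |ev P ξ| * Y ≤ 1 * Y := by
        have h4 : |ev P ξ| * Y ≤ 25 * (d * r) := by
          refine le_trans ?_ he
          have : |ev P ξ| * Y * 1 ≤ |ev P ξ| * Y * H :=
            mul_le_mul_of_nonneg_left hH1 (by positivity)
          linarith [this, (by ring : |ev P ξ| * Y * H = |ev P ξ| * H * Y)]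
        calc 2312 * r ^ 2 * |ev P ξ| * Y = 2312 * r ^ 2 * (|ev P ξ| * Y) := by ring
          _ ≤ 2312 * r ^ 2 * (25 * (d * r)) := mul_le_mul_of_nonneg_left h4 (by positivity)
          _ = 57800 * (r ^ 3 * d) := by ring
          _ ≤ 1 * Y := by linarith
      exact le_of_mul_le_mul_right h3 hY
    have h5 : 8 * |(P.c : ℝ)| * |ev P ξ| * (289 * r ^ 2) ≤ der P ξ ^ 2 * (289 * r ^ 2) := by
      calc 8 * |(P.c : ℝ)| * |ev P ξ| * (289 * r ^ 2) = |(P.c : ℝ)| * (2312 * r ^ 2 * |ev P ξ|) := by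
            ring
        _ ≤ R * 1 := mul_le_mul (c_le P) h2 (by positivity) hRp.le
        _ ≤ R ^ 2 := by nlinarith
        _ ≤ _ := by linarith
    exact le_of_mul_le_mul_right h5 (by positivity)
  · -- main inequality
    have h1 : |ev P ξ| * R * H ^ 2 * b * Y ≤ 100 * r * m * b * R * Y := by
      calc |ev P ξ| * R * H ^ 2 * b * Y = (|ev P ξ| * H * Y) * (R * H * b) := by ring
        _ ≤ 25 * (d * r) * (R * H * b) := mul_le_mul_of_nonneg_right he (by positivity)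
        _ = 25 * r * R * b * (H * d) := by ring
        _ ≤ 25 * r * R * b * (4 * Y * m) := mul_le_mul_of_nonneg_left hHd (by positivity)
        _ = 100 * r * m * b * R * Y := by ring
    have h2 : |ev P ξ| * R * H ^ 2 * b ≤ 100 * r * m * b * R := le_of_mul_le_mul_right h1 hY
    have h3 : 1700 * (b * (m * r ^ 2)) ≤ 1 := by
      have : 1700 * (b * (m * r ^ 2)) ≤ b * (b * (m * r ^ 2)) :=
        mul_le_mul_of_nonneg_right (by linarith) (by positivity)
      nlinarith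
    calc |ev P ξ| * R * H ^ 2 * b ≤ 100 * r * m * b * R := h2
      _ ≤ 100 * r * m * b * (17 * r * |der P ξ|) := mul_le_mul_of_nonneg_left hder (by positivity)
      _ = 1700 * (b * (m * r ^ 2)) * |der P ξ| := by ring
      _ ≤ 1 * |der P ξ| := mul_le_mul_of_nonneg_right h3 (abs_nonneg _)
      _ = |der P ξ| := one_mul _

/-- case B, first part -/
theorem caseB1 {P : V3} {H ξ t d r Y : ℝ} (hP : P ≠ 0)
    (hr : 1 ≤ r) (hd : 1 ≤ d) (hY : 0 < Y) (ht0 : 0 ≤ t) (ht1 : t ≤ 3 / 4)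
    (hH : 1 ≤ H) (hY2 : 1000 * (r ^ 2 * d) ≤ Y ^ 2)
    (hx : |ξ - t| * Y ^ 2 ≤ 1001 / 1000 * (d * r))
    (he : |ev P ξ| * H * Y ≤ 25 * (d * r))
    (het : |ev P t| * Y ^ 2 = |(P.c : ℝ)| * d)
    (hB : 16 * r * |der P t| < hh P) : hh P ≤ 2 * |(P.c : ℝ)| ∧ hh P * H ≤ 75 * (Y * r) := by
  have hR := hh_ge_one hP
  have hrp : 0 < r := by linarith
  have hdp : 0 < d := by linarith
  have hRp : 0 < hh P := by linarith
  have hY2p : 0 < Y ^ 2 := by positivity
  have hdt : |der P t| ≤ hh P / 16 := by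
    have : |der P t| * 1 ≤ |der P t| * r := mul_le_mul_of_nonneg_left hr (abs_nonneg _)
    linarith
  have hd1 : d ≤ Y ^ 2 / 1000 := by
    have : 1 ≤ r ^ 2 := one_le_pow₀ hr
    nlinarith
  have het2 : |ev P t| ≤ hh P / 1000 := by
    have h1 : |ev P t| * Y ^ 2 ≤ hh P / 1000 * Y ^ 2 := by
      rw [het]
      calc |(P.c : ℝ)| * d ≤ hh P * (Y ^ 2 / 1000) :=
            mul_le_mul (c_le P) hd1 hdp.le hRp.le
        _ = hh P / 1000 * Y ^ 2 := by ring
    exact le_of_mul_le_mul_right h1 hY2p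
  have hc : hh P ≤ 2 * |(P.c : ℝ)| := by
    by_contra hcon
    push Not at hcon
    have hb : |(P.b : ℝ)| < hh P := by
      have e : (P.b : ℝ) = der P t - 2 * P.c * t := by simp only [der]; ring
      rw [e]
      refine lt_of_le_of_lt (abs_sub _ _) ?_
      have : |2 * (P.c : ℝ) * t| = 2 * |(P.c : ℝ)| * t := by
        rw [abs_mul, abs_mul, abs_two, abs_of_nonneg ht0]
      rw [this]
      have : 2 * |(P.c : ℝ)| * t ≤ 2 * |(P.c : ℝ)| * (3 / 4) :=
        mul_le_mul_of_nonneg_left ht1 (by positivity)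
      linarith
    have ha : |(P.a : ℝ)| < hh P := by
      have e : (P.a : ℝ) = (ev P t - der P t * t) + P.c * t ^ 2 := by
        simp only [der, ev]; ring
      rw [e]
      refine lt_of_le_of_lt (abs_add_le _ _) ?_
      have h1 := abs_sub (ev P t) (der P t * t)
      have h2 : |der P t * t| ≤ hh P / 16 * (3 / 4) := by
        rw [abs_mul, abs_of_nonneg ht0]
        exact mul_le_mul hdt ht1 ht0 (by positivity)
      have h3 : |(P.c : ℝ) * t ^ 2| ≤ |(P.c : ℝ)| * 1 := by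
        rw [abs_mul, abs_of_nonneg (sq_nonneg t)]
        apply mul_le_mul_of_nonneg_left _ (abs_nonneg _)
        nlinarith
      linarith
    have hcc : |(P.c : ℝ)| < hh P := by linarith
    have : hh P < hh P := max_lt ha (max_lt hb hcc)
    exact lt_irrefl _ this
  refine ⟨hc, ?_⟩
  have hx' : |ξ - t| ≤ 1 := by
    have h1 : |ξ - t| * Y ^ 2 ≤ 1 * Y ^ 2 := by
      refine hx.trans ?_
      have : d * r ≤ r ^ 2 * d := by nlinarith [mul_le_mul_of_nonneg_left hr (mul_pos hdp hrp).le]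
      nlinarith
    exact le_of_mul_le_mul_right h1 hY2p
  -- lower bound for |ev P ξ|
  have hlow : hh P * d ≤ 3 * (|ev P ξ| * Y ^ 2) := by
    have h1 : |ev P t| ≤ |ev P ξ| + |der P t| * |ξ - t| + |(P.c : ℝ)| * |ξ - t| ^ 2 := by
      have e : ev P t = ev P ξ - (der P t * (ξ - t) + P.c * (ξ - t) ^ 2) := by
        rw [taylor_ev P t ξ]; ring
      calc |ev P t| = |ev P ξ - (der P t * (ξ - t) + P.c * (ξ - t) ^ 2)| := by rw [← e]
        _ ≤ |ev P ξ| + |der P t * (ξ - t) + P.c * (ξ - t) ^ 2| := abs_sub _ _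
        _ ≤ |ev P ξ| + (|der P t * (ξ - t)| + |P.c * (ξ - t) ^ 2|) := by
            have := abs_add_le (der P t * (ξ - t)) (P.c * (ξ - t) ^ 2)
            linarith
        _ = _ := by rw [abs_mul, abs_mul, abs_pow]; ring
    have h2 : |(P.c : ℝ)| * d ≤ |ev P ξ| * Y ^ 2 + |der P t| * (|ξ - t| * Y ^ 2) +
        |(P.c : ℝ)| * |ξ - t| * (|ξ - t| * Y ^ 2) := by
      rw [← het]
      calc |ev P t| * Y ^ 2 ≤ (|ev P ξ| + |der P t| * |ξ - t| + |(P.c : ℝ)| * |ξ - t| ^ 2) * Y ^ 2 :=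
            mul_le_mul_of_nonneg_right h1 hY2p.le
        _ = _ := by ring
    have h3 : |der P t| * (|ξ - t| * Y ^ 2) ≤ 1001 / 16000 * (hh P * d) := by
      calc |der P t| * (|ξ - t| * Y ^ 2) ≤ |der P t| * (1001 / 1000 * (d * r)) :=
            mul_le_mul_of_nonneg_left hx (abs_nonneg _)
        _ = 1001 / 16000 * (16 * r * |der P t|) * d := by ring
        _ ≤ 1001 / 16000 * hh P * d :=
            mul_le_mul_of_nonneg_right (mul_le_mul_of_nonneg_left hB.le (by norm_num)) hdp.le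
        _ = _ := by ring
    have h4 : r * |ξ - t| ≤ 1001 / 1000000 := by
      have h5 : r * |ξ - t| * Y ^ 2 ≤ 1001 / 1000000 * Y ^ 2 := by
        calc r * |ξ - t| * Y ^ 2 = r * (|ξ - t| * Y ^ 2) := by ring
          _ ≤ r * (1001 / 1000 * (d * r)) := mul_le_mul_of_nonneg_left hx hrp.le
          _ = 1001 / 1000000 * (1000 * (r ^ 2 * d)) := by ring
          _ ≤ _ := mul_le_mul_of_nonneg_left hY2 (by norm_num)
      exact le_of_mul_le_mul_right h5 hY2p
    have h6 : |(P.c : ℝ)| * |ξ - t| * (|ξ - t| * Y ^ 2) ≤ 1 / 100 * (hh P * d) := by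
      calc |(P.c : ℝ)| * |ξ - t| * (|ξ - t| * Y ^ 2)
          ≤ |(P.c : ℝ)| * |ξ - t| * (1001 / 1000 * (d * r)) :=
            mul_le_mul_of_nonneg_left hx (by positivity)
        _ = |(P.c : ℝ)| * (r * |ξ - t|) * (1001 / 1000 * d) := by ring
        _ ≤ hh P * (1001 / 1000000) * (1001 / 1000 * d) := by
            apply mul_le_mul_of_nonneg_right _ (by positivity)
            exact mul_le_mul (c_le P) h4 (by positivity) hRp.le
        _ ≤ 1 / 100 * (hh P * d) := by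
            have : 0 < hh P * d := by positivity
            nlinarith
    have h7 : hh P * d ≤ 2 * |(P.c : ℝ)| * d := mul_le_mul_of_nonneg_right hc hdp.le
    have h8 : 0 < hh P * d := by positivity
    nlinarith
  have h9 : hh P * H * (d * Y) ≤ 75 * (Y * r) * (d * Y) := by
    calc hh P * H * (d * Y) = (hh P * d) * (H * Y) := by ring
      _ ≤ 3 * (|ev P ξ| * Y ^ 2) * (H * Y) := mul_le_mul_of_nonneg_right hlow (by positivity)
      _ = 3 * Y ^ 2 * (|ev P ξ| * H * Y) := by ring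
      _ ≤ 3 * Y ^ 2 * (25 * (d * r)) := mul_le_mul_of_nonneg_left he (by positivity)
      _ = 75 * (Y * r) * (d * Y) := by ring
  exact le_of_mul_le_mul_right h9 (by positivity)

/-- case B, second part -/
theorem caseB2 {P : V3} {H ξ b t d r Y W K : ℝ} (hP : P ≠ 0) (hH : hh P ≤ H) (hb : 1000000 ≤ b)
    (hHb : H ≤ b ^ NN) (hr : 1 ≤ r) (hd : 1 ≤ d) (hY : 0 < Y) (hW : 1 ≤ W)
    (hY2 : 13 * (d * r * W) ≤ Y ^ 2) (hY3 : 1800 * (W ^ 2 * d * r) ≤ Y)
    (hx : |ξ - t| * Y ^ 2 ≤ 1001 / 1000 * (d * r))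
    (he : |ev P ξ| * H * Y ≤ 25 * (d * r))
    (hRH : hh P * H ≤ 75 * (Y * r))
    (hK : K ≤ hh P) (hKW : 5625 * (d * r ^ 2 * b * W) ≤ K)
    (hdt : hh P ≤ 2 * W * |der P t|) : Good H ξ := by
  have hR := hh_ge_one hP
  set R := hh P with hRdef
  have hbp : 0 < b := by linarith
  have hrp : 0 < r := by linarith
  have hdp : 0 < d := by linarith
  have hWp : 0 < W := by linarith
  have hH1 : 1 ≤ H := hR.trans hH
  have hHp : 0 < H := by linarith
  have hRp : 0 < R := by linarith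
  have hY2p : 0 < Y ^ 2 := by positivity
  have hder : R ≤ 3 * W * |der P ξ| := by
    have h1 : |der P t| ≤ |der P ξ| + 2 * R * |ξ - t| := by
      have e : der P t = der P ξ - 2 * P.c * (ξ - t) := by rw [taylor_der P t ξ]; ring
      rw [e]
      refine (abs_sub _ _).trans ?_
      have : |2 * (P.c : ℝ) * (ξ - t)| = 2 * |(P.c : ℝ)| * |ξ - t| := by
        rw [abs_mul, abs_mul, abs_two]
      rw [this]
      have := mul_le_mul_of_nonneg_right (c_le P) (abs_nonneg (ξ - t))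
      linarith
    have h2 : 13 * (W * |ξ - t|) ≤ 1001 / 1000 := by
      have h3 : 13 * (W * |ξ - t|) * Y ^ 2 ≤ 1001 / 1000 * Y ^ 2 := by
        calc 13 * (W * |ξ - t|) * Y ^ 2 = 13 * W * (|ξ - t| * Y ^ 2) := by ring
          _ ≤ 13 * W * (1001 / 1000 * (d * r)) := mul_le_mul_of_nonneg_left hx (by positivity)
          _ = 1001 / 1000 * (13 * (d * r * W)) := by ring
          _ ≤ 1001 / 1000 * Y ^ 2 := mul_le_mul_of_nonneg_left hY2 (by norm_num)
      exact le_of_mul_le_mul_right h3 hY2p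
    have h4 : 2 * W * (2 * R * |ξ - t|) ≤ R / 3 := by
      have : 2 * W * (2 * R * |ξ - t|) = 4 * R * (W * |ξ - t|) := by ring
      rw [this]
      have : 4 * R * (W * |ξ - t|) ≤ 4 * R * (1001 / 13000) :=
        mul_le_mul_of_nonneg_left (by linarith) (by positivity)
      nlinarith
    have h7 : R ≤ 2 * W * |der P ξ| + R / 3 := by
      calc R ≤ 2 * W * |der P t| := hdt
        _ ≤ 2 * W * (|der P ξ| + 2 * R * |ξ - t|) :=
            mul_le_mul_of_nonneg_left h1 (by positivity)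
        _ ≤ 2 * W * |der P ξ| + R / 3 := by linarith
    nlinarith
  have hderp : 0 < |der P ξ| := by
    by_contra hc
    push Not at hc
    have : |der P ξ| = 0 := le_antisymm hc (abs_nonneg _)
    rw [this] at hder
    linarith
  refine good_of hP hH hbp hHb hderp ?_ ?_
  · have h1 : R ^ 2 ≤ 9 * W ^ 2 * der P ξ ^ 2 := by
      have := mul_self_le_mul_self hRp.le hder
      have e2 : |der P ξ| * |der P ξ| = der P ξ ^ 2 := by rw [← sq, sq_abs]
      calc R ^ 2 = R * R := by ring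
        _ ≤ 3 * W * |der P ξ| * (3 * W * |der P ξ|) := this
        _ = 9 * W ^ 2 * (|der P ξ| * |der P ξ|) := by ring
        _ = 9 * W ^ 2 * der P ξ ^ 2 := by rw [e2]
    have h2 : 72 * W ^ 2 * |ev P ξ| ≤ 1 := by
      have h3 : 72 * W ^ 2 * |ev P ξ| * Y ≤ 1 * Y := by
        have h4 : |ev P ξ| * Y ≤ 25 * (d * r) := by
          refine le_trans ?_ he
          have : |ev P ξ| * Y * 1 ≤ |ev P ξ| * Y * H :=
            mul_le_mul_of_nonneg_left hH1 (by positivity)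
          linarith [this, (by ring : |ev P ξ| * Y * H = |ev P ξ| * H * Y)]
        calc 72 * W ^ 2 * |ev P ξ| * Y = 72 * W ^ 2 * (|ev P ξ| * Y) := by ring
          _ ≤ 72 * W ^ 2 * (25 * (d * r)) := mul_le_mul_of_nonneg_left h4 (by positivity)
          _ = 1800 * (W ^ 2 * d * r) := by ring
          _ ≤ 1 * Y := by linarith
      exact le_of_mul_le_mul_right h3 hY
    have h5 : 8 * |(P.c : ℝ)| * |ev P ξ| * (9 * W ^ 2) ≤ der P ξ ^ 2 * (9 * W ^ 2) := by
      calc 8 * |(P.c : ℝ)| * |ev P ξ| * (9 * W ^ 2) = |(P.c : ℝ)| * (72 * W ^ 2 * |ev P ξ|) := by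
            ring
        _ ≤ R * 1 := mul_le_mul (c_le P) h2 (by positivity) hRp.le
        _ ≤ R ^ 2 := by nlinarith
        _ ≤ _ := by linarith
    exact le_of_mul_le_mul_right h5 (by positivity)
  · have h1 : |ev P ξ| * R * H ^ 2 * b * Y ≤ 1875 * (d * r ^ 2 * b) * Y := by
      calc |ev P ξ| * R * H ^ 2 * b * Y = (|ev P ξ| * H * Y) * (R * H) * b := by ring
        _ ≤ 25 * (d * r) * (75 * (Y * r)) * b := by
            apply mul_le_mul_of_nonneg_right _ hbp.le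
            exact mul_le_mul he hRH (by positivity) (by positivity)
        _ = 1875 * (d * r ^ 2 * b) * Y := by ring
    have h2 : |ev P ξ| * R * H ^ 2 * b ≤ 1875 * (d * r ^ 2 * b) := le_of_mul_le_mul_right h1 hY
    have h3 : 1875 * (d * r ^ 2 * b) * (3 * W) ≤ |der P ξ| * (3 * W) := by
      calc 1875 * (d * r ^ 2 * b) * (3 * W) = 5625 * (d * r ^ 2 * b * W) := by ring
        _ ≤ K := hKW
        _ ≤ R := hK
        _ ≤ 3 * W * |der P ξ| := hder
        _ = _ := by ring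
    exact h2.trans (le_of_mul_le_mul_right h3 (by positivity))

/-- powers of `b` -/
theorem pw {b : ℝ} (hb : 1000000 ≤ b) (m n : ℕ) (c X : ℝ) (hc0 : 0 ≤ c) (hc : c ≤ 1000000)
    (hX : X ≤ b ^ m) (hX0 : 0 ≤ X) (h : m + 1 ≤ n) : c * X ≤ b ^ n := by
  have hb1 : 1 ≤ b := by linarith
  have hb0 : 0 ≤ b := by linarith
  calc c * X ≤ b * b ^ m := mul_le_mul (hc.trans hb) hX hX0 hb0
    _ = b ^ (m + 1) := by ring
    _ ≤ b ^ n := pow_le_pow_right₀ hb1 h

theorem pmul {b X X' : ℝ} {m m' : ℕ} (hb : 0 ≤ b) (hX0 : 0 ≤ X') (hX : X ≤ b ^ m)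
    (hX' : X' ≤ b ^ m') : X * X' ≤ b ^ (m + m') := by
  rw [pow_add]
  exact mul_le_mul hX hX' hX0 (pow_nonneg hb _)

end SRV2

open SRV2 in
theorem SRV2_thm (h1 : Dist) (h2 : Pig) : Srv2 := by
  intro i j x y z b bz ξ H hx hful hz hc hξ hH1 hH2
  obtain ⟨_, _, _, _, hD⟩ := h1 i j x y z b bz hx hz hc
  obtain ⟨hD1, hD2⟩ := hD ξ hξ
  have hb : (1000000 : ℝ) ≤ b := hx.hb0
  have hb1 : (1 : ℝ) ≤ b := by linarith
  have hbp : (0 : ℝ) < b := by linarith
  have hby : b ^ NN = (y.a : ℝ) := hx.hby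
  have hYp : (0 : ℝ) < y.a := by exact_mod_cast hc.h0
  have hZp : (0 : ℝ) < z.a := by exact_mod_cast hc.cand.hpos
  have hdet : (det y : ℝ) ≠ 0 := by exact_mod_cast hx.hdet
  have hd1 : (1 : ℝ) ≤ |(det y : ℝ)| := by
    rw [← Int.cast_abs]
    exact_mod_cast Int.one_le_abs hx.hdet
  have hd240 : |(det y : ℝ)| ≤ b ^ 240 :=
    hx.hd.trans (pow_le_pow_right₀ hb1 (Nat.sub_le _ _))
  have hdsq : |(det y : ℝ)| ^ 2 = (det y : ℝ) ^ 2 := sq_abs _
  have hstar0 := hc.cand.hstar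
  have hrange := hc.cand.hrange
  have hlow := hc.h1
  have hSx : |cx y z| = |be (tt y) z| * |(det y : ℝ)| := by
    unfold cx; rw [abs_mul, abs_abs]
  have hVdef : cV y z * (y.a : ℝ) ^ 2 = z.a * |(det y : ℝ)| ^ 2 := by
    unfold cV; rw [hdsq]; field_simp
  have hVp : 0 < cV y z := by
    unfold cV; positivity
  revert hSx hVdef hVp hD1 hD2
  generalize cV y z = V
  generalize hXX : |cx y z| = X
  have hX0 : 0 ≤ X := by rw [← hXX]; exact abs_nonneg _
  intro hD1 hD2 hSx hVdef hVp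
  rw [← hdsq] at hrange hlow
  have hY1 : (1 : ℝ) ≤ y.a := by
    have : (1 : ℤ) ≤ y.a := hc.h0
    exact_mod_cast this
  have hev0 : ∀ P : V3, dot P y = 0 → |ev P (tt y)| * (y.a : ℝ) ^ 2 = |(P.c : ℝ)| * |(det y : ℝ)| := by
    intro P hP
    have e := WHP.dot_eq (tt y) P y
    rw [hP, WHP.be_self hYp.ne', WHP.ga_self hYp.ne'] at e
    have e2 : ev P (tt y) * (y.a : ℝ) ^ 2 = -(P.c * (det y : ℝ)) := by
      simp only [ev]
      have e3 : (P.c : ℝ) * ((det y : ℝ) / y.a) * y.a = P.c * det y := by field_simp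
      push_cast at e
      nlinarith
    have e4 := congrArg abs e2
    rwa [abs_mul, abs_neg, abs_mul, abs_of_pos (by positivity : (0 : ℝ) < (y.a : ℝ) ^ 2)] at e4
  have hS3 := hx.hS3
  have hS4 := hx.hS4
  have hful5 := hful.h5
  have hpig := h2 i x y b ξ
  have ht1 := hx.ht1
  have ht2 := hx.ht2
  have hib : 0 < 1 / b := by positivity
  clear h1 h2 hD hz hful hc
  revert hd1 hd240 hSx hVdef hD1 hD2 hstar0 hrange hlow hev0 hpig
  generalize |(det y : ℝ)| = d
  intro hd1 hd240 hstar0 hrange hlow hD1 hD2 hSx hVdef hev0 hpig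
  have hdp : 0 < d := by linarith
  -- V small and not too small
  have hV1 : b ^ 2 * V ≤ 1 := by
    have h3 : b ^ 2 * V * (y.a : ℝ) ^ 2 ≤ 1 * (y.a : ℝ) ^ 2 := by
      calc b ^ 2 * V * (y.a : ℝ) ^ 2 = b ^ 2 * (V * (y.a : ℝ) ^ 2) := by ring
        _ = b ^ 2 * d ^ 2 * z.a := by rw [hVdef]; ring
        _ ≤ (y.a : ℝ) ^ 2 := hrange
        _ = _ := by ring
    exact le_of_mul_le_mul_right h3 (by positivity)
  have hV2 : 1 ≤ b ^ 741 * V := by
    have h3 : 1 * (y.a : ℝ) ^ 2 ≤ b ^ 741 * V * (y.a : ℝ) ^ 2 := by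
      calc 1 * (y.a : ℝ) ^ 2 = (y.a : ℝ) ^ 2 := by ring
        _ ≤ b ^ 741 * d ^ 2 * z.a := hlow
        _ = b ^ 741 * (z.a * d ^ 2) := by ring
        _ = b ^ 741 * (V * (y.a : ℝ) ^ 2) := by rw [hVdef]
        _ = _ := by ring
    exact le_of_mul_le_mul_right h3 (by positivity)
  have hst : b ^ 2 * X ^ 3 ≤ V ^ 2 := by
    have h3 : b ^ 2 * X ^ 3 * (y.a : ℝ) ^ 4 ≤ V ^ 2 * (y.a : ℝ) ^ 4 := by
      calc b ^ 2 * X ^ 3 * (y.a : ℝ) ^ 4 = (b ^ 2 * (y.a : ℝ) ^ 4 * |be (tt y) z| ^ 3) * d ^ 3 := by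
            rw [hSx]; ring
        _ ≤ (d * (z.a : ℝ) ^ 2) * d ^ 3 := mul_le_mul_of_nonneg_right hstar0 (by positivity)
        _ = (z.a * d ^ 2) ^ 2 := by ring
        _ = (V * (y.a : ℝ) ^ 2) ^ 2 := by rw [hVdef]
        _ = _ := by ring
    exact le_of_mul_le_mul_right h3 (by positivity)
  -- m and r
  obtain ⟨m, hm⟩ : ∃ m, m = max X V := ⟨_, rfl⟩
  have hmV : V ≤ m := by rw [hm]; exact le_max_right _ _
  have hmX : X ≤ m := by rw [hm]; exact le_max_left _ _
  have hmp : 0 < m := lt_of_lt_of_le hVp hmV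
  have hm3 : b ^ 2 * m ^ 3 ≤ V ^ 2 := by
    rcases le_total X V with h | h
    · have : m = V := by rw [hm, max_eq_right h]
      rw [this]
      have : b ^ 2 * V * V ^ 2 ≤ 1 * V ^ 2 := mul_le_mul_of_nonneg_right hV1 (by positivity)
      calc b ^ 2 * V ^ 3 = b ^ 2 * V * V ^ 2 := by ring
        _ ≤ 1 * V ^ 2 := this
        _ = V ^ 2 := one_mul _
    · have : m = X := by rw [hm, max_eq_left h]
      rw [this]; exact hst
  rw [← hm] at hD2
  obtain ⟨r, hr⟩ : ∃ r, r = m / V := ⟨_, rfl⟩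
  have hrV : r * V = m := by rw [hr]; field_simp
  have hr1 : 1 ≤ r := by rw [hr, le_div_iff₀ hVp]; linarith
  have hrp : 0 < r := by linarith
  have hstar : b ^ 2 * (m * r ^ 2) ≤ 1 := by
    have h3 : b ^ 2 * (m * r ^ 2) * V ^ 2 ≤ 1 * V ^ 2 := by
      calc b ^ 2 * (m * r ^ 2) * V ^ 2 = b ^ 2 * (m * (r * V) ^ 2) := by ring
        _ = b ^ 2 * m ^ 3 := by rw [hrV]; ring
        _ ≤ V ^ 2 := hm3
        _ = _ := by ring
    exact le_of_mul_le_mul_right h3 (by positivity)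
  have hm4 : m ≤ 1 / 4 := by
    have h3 : 1 ≤ r ^ 2 := one_le_pow₀ hr1
    have h4 : (4 : ℝ) ≤ b ^ 2 := by nlinarith
    have h5 : m ≤ m * r ^ 2 := le_mul_of_one_le_right hmp.le h3
    have h6 : 4 * (m * r ^ 2) ≤ b ^ 2 * (m * r ^ 2) :=
      mul_le_mul_of_nonneg_right h4 (by positivity)
    linarith
  have hr741 : r ≤ b ^ 741 := by
    have h3 : r * 1 ≤ r * (b ^ 741 * V) := mul_le_mul_of_nonneg_left hV2 hrp.le
    have h4 : r * (b ^ 741 * V) = b ^ 741 * m := by rw [← hrV]; ring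
    have h5 : b ^ 741 * m ≤ b ^ 741 * 1 :=
      mul_le_mul_of_nonneg_left (by linarith) (pow_nonneg hbp.le _)
    linarith
  have hb741 : (0 : ℝ) ≤ b := hbp.le
  have hr2 : r ^ 2 ≤ b ^ 1482 := by
    have := pmul hbp.le hrp.le hr741 hr741
    rw [sq]; exact this
  have hr3 : r ^ 3 ≤ b ^ 2223 := by
    have := pmul hbp.le hrp.le hr2 hr741
    rw [pow_succ]; exact this
  -- bound for H
  have hHd : H * d ≤ 4 * (y.a : ℝ) * m :=
    (mul_le_mul_of_nonneg_right hH2.le hdp.le).trans hD2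
  have hHbig : (6 : ℝ) ≤ H := by
    refine le_trans ?_ hH1
    have h3 : b ^ 1 ≤ b ^ 650000 := pow_le_pow_right₀ hb1 (by norm_num)
    rw [pow_one] at h3
    linarith
  have hHp : 0 < H := by linarith
  have hHY : H ≤ y.a := by
    have h3 : H * 1 ≤ H * d := mul_le_mul_of_nonneg_left hd1 hHp.le
    have h4 : 4 * (y.a : ℝ) * m ≤ 4 * (y.a : ℝ) * (1 / 4) :=
      mul_le_mul_of_nonneg_left hm4 (by positivity)
    linarith
  -- the distance
  have hxi : |ξ - tt y| * (y.a : ℝ) ^ 2 ≤ 1001 / 1000 * (d * r) := by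
    have h3 : |ξ - tt y| * (y.a : ℝ) ^ 2 * V ≤ 1001 / 1000 * (d * r) * V := by
      calc |ξ - tt y| * (y.a : ℝ) ^ 2 * V ≤ d * (X + V / 1000) := hD1
        _ ≤ d * (m + m / 1000) := mul_le_mul_of_nonneg_left (by linarith) hdp.le
        _ = 1001 / 1000 * (d * (r * V)) := by rw [hrV]; ring
        _ = _ := by ring
    exact le_of_mul_le_mul_right h3 hVp
  -- Y is large
  have hYb : (y.a : ℝ) = b ^ 1000000 := hby.symm
  have hbig1 : 57800 * (r ^ 3 * d) ≤ (y.a : ℝ) := by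
    rw [hYb]
    exact pw hb _ _ _ _ (by norm_num) (by norm_num) (pmul hbp.le hdp.le hr3 hd240)
      (by positivity) (by norm_num)
  have hdr : d * r ≤ r ^ 3 * d := by
    have h3 : 1 ≤ r ^ 2 := one_le_pow₀ hr1
    have h4 : d * r * 1 ≤ d * r * r ^ 2 := mul_le_mul_of_nonneg_left h3 (by positivity)
    linarith [h4, (by ring : d * r * r ^ 2 = r ^ 3 * d)]
  have hYY : (y.a : ℝ) ≤ (y.a : ℝ) ^ 2 := by nlinarith
  obtain ⟨u, hu⟩ : ∃ u, u = 1001 / 1000 * (d * r) / (y.a : ℝ) ^ 2 := ⟨_, rfl⟩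
  have hY2p : (0 : ℝ) < (y.a : ℝ) ^ 2 := by positivity
  have huY : u * (y.a : ℝ) ^ 2 = 1001 / 1000 * (d * r) := by rw [hu]; field_simp
  have hup : 0 < u := by rw [hu]; positivity
  have hpos_dr : 0 < d * r := by positivity
  obtain ⟨M, hM⟩ : ∃ M : ℕ, M = ⌊H / 2⌋₊ := ⟨_, rfl⟩
  have hM1 : (M : ℝ) ≤ H / 2 := by rw [hM]; exact Nat.floor_le (by positivity)
  have hM2 : H / 3 ≤ (M : ℝ) := by
    have := Nat.lt_floor_add_one (H / 2)
    rw [← hM] at this
    linarith
  have hMp : (0 : ℝ) < M := by linarith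
  obtain ⟨P, hP0, hPy, hPh, hPev⟩ := hpig u M hx
    (by
      have h3 : |ξ - tt y| * (y.a : ℝ) ^ 2 ≤ u * (y.a : ℝ) ^ 2 := by rw [huY]; exact hxi
      exact le_of_mul_le_mul_right h3 hY2p)
    (by
      rw [huY]
      have h3 : d * 1 ≤ d * r := mul_le_mul_of_nonneg_left hr1 hdp.le
      linarith) hup
    (by
      have h3 : u * (y.a : ℝ) ^ 2 ≤ 1 / 1000 * (y.a : ℝ) ^ 2 := by
        rw [huY]; linarith
      exact le_of_mul_le_mul_right h3 hY2p)
    (by
      have h3 : (y.a : ℝ) * 9 ≤ H ^ 2 := by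
        have h4 : (b ^ 650000) ^ 2 ≤ H ^ 2 := pow_le_pow_left₀ (pow_nonneg hbp.le _) hH1 2
        refine le_trans ?_ h4
        rw [← pow_mul, hYb]
        have h5 := pw hb 1000000 (650000 * 2) 9 (b ^ 1000000) (by norm_num) (by norm_num) le_rfl
          (pow_nonneg hbp.le _) (by norm_num)
        linarith
      nlinarith)
  have hHP : hh P ≤ H := by linarith
  have hev : |ev P ξ| * H * (y.a : ℝ) ≤ 25 * (d * r) := by
    have h3 : |ev P ξ| * H ≤ 24 * (u * y.a) := by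
      have h4 : |ev P ξ| * (H / 3) ≤ |ev P ξ| * M := mul_le_mul_of_nonneg_left hM2 (abs_nonneg _)
      linarith
    calc |ev P ξ| * H * (y.a : ℝ) ≤ 24 * (u * y.a) * y.a := mul_le_mul_of_nonneg_right h3 hYp.le
      _ = 24 * (u * (y.a : ℝ) ^ 2) := by ring
      _ = 24 * (1001 / 1000 * (d * r)) := by rw [huY]
      _ ≤ 25 * (d * r) := by linarith
  have hHb : H ≤ b ^ NN := by rw [hby]; exact hHY
  rcases le_or_gt (hh P) (16 * r * |der P (tt y)|) with hA | hB
  · exact caseA hP0 hHP hb hHb hr1 hd1 hYp hmp.le hbig1 hstar hHd hxi hev hA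
  · have ht0 : 0 ≤ tt y := by linarith
    have ht3 : tt y ≤ 3 / 4 := by linarith
    have hr2d : r ^ 2 * d ≤ r ^ 3 * d := by
      have h4 : r ^ 2 * d * 1 ≤ r ^ 2 * d * r := mul_le_mul_of_nonneg_left hr1 (by positivity)
      linarith [h4, (by ring : r ^ 2 * d * r = r ^ 3 * d)]
    have hr2dp : 0 < r ^ 2 * d := by positivity
    obtain ⟨hcc, hRH⟩ := caseB1 hP0 hr1 hd1 hYp ht0 ht3 (by linarith) (by linarith) hxi hev
      (hev0 P hPy) hB
    have hSm : hh P ≤ b ^ 400000 := by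
      have h3 : hh P * b ^ 650000 ≤ b ^ 400000 * b ^ 650000 := by
        calc hh P * b ^ 650000 ≤ hh P * H := mul_le_mul_of_nonneg_left hH1 (hh_nonneg P)
          _ ≤ 75 * ((y.a : ℝ) * r) := hRH
          _ ≤ b ^ (400000 + 650000) := by
              rw [hYb]
              exact pw hb _ _ _ _ (by norm_num) (by norm_num) (pmul hbp.le hrp.le le_rfl hr741)
                (mul_nonneg (pow_nonneg hbp.le _) hrp.le) (by norm_num)
          _ = _ := pow_add _ _ _
      exact le_of_mul_le_mul_right h3 (pow_pos hbp _)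
    have hPx := hS3 P ⟨(a_le P).trans hSm, (b_le P).trans hSm, (c_le P).trans hSm⟩ hPy
    have hdt := hful5 P hPy hPx
    have hK : b ^ 3125 ≤ hh P := by
      by_contra hcon
      push Not at hcon
      apply hP0
      have h3125 : 3125 ≤ 200000 / 2 ^ i := by
        have hi := hx.hi
        interval_cases i <;> norm_num
      have h3 : hh P ≤ b ^ (200000 / 2 ^ i) := hcon.le.trans (pow_le_pow_right₀ hb1 h3125)
      exact hS4 P ⟨(a_le P).trans h3, (b_le P).trans h3, (c_le P).trans h3⟩ hPy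
    have hW : (1 : ℝ) ≤ b ^ 400 := one_le_pow₀ hb1
    have hWp : (0 : ℝ) < b ^ 400 := by linarith
    refine caseB2 (W := b ^ 400) (K := b ^ 3125) hP0 hHP hb hHb hr1 hd1 hYp hW ?_ ?_ hxi hev hRH hK
      ?_ ?_
    · refine le_trans ?_ hYY
      rw [hYb]
      exact pw hb _ _ _ _ (by norm_num) (by norm_num)
        (pmul hbp.le hWp.le (pmul hbp.le hrp.le hd240 hr741) le_rfl) (by positivity) (by norm_num)
    · rw [hYb]
      have h4 : (b ^ 400) ^ 2 ≤ b ^ 800 := by rw [← pow_mul]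
      exact pw hb _ _ _ _ (by norm_num) (by norm_num)
        (pmul hbp.le hrp.le (pmul hbp.le hdp.le h4 hd240) hr741) (by positivity) (by norm_num)
    · have h4 : b ≤ b ^ 1 := (pow_one b).ge
      exact pw hb _ _ _ _ (by norm_num) (by norm_num)
        (pmul hbp.le hWp.le (pmul hbp.le hbp.le (pmul hbp.le (by positivity) hd240 hr2) h4) le_rfl)
        (by positivity) (by norm_num)
    · linarith

end WHS
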