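import Pool.Agent.WHS.Stmts
import Pool.Agent.WHP.Start

/-!
# The initial state (module START of MP_c538e3_nt, star version)

The same nodes as in `WHP.Start`; only the lower bounds `BA` (eighth roots) are new.
-/

namespace WHS

open WHP (V3 det be ga dot cross lin tt Sm NN B0)

namespace START

open WHP.StartAux

/-- (S2) for the node, short range -/
lemma ba_short {y : V3} {ε : ℤ} (h : Nd y ε) (ha : (1000000 : ℝ) ≤ y.a) (c : ℝ)
    (hc : c ≤ 1 / 10) : BA c (y.a : ℝ) (tt y) := by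
  intro m n hm hq
  have hay : (0 : ℝ) < y.a := by linarith
  have hm0 : (1 : ℝ) ≤ m := by exact_mod_cast hm
  have hq1 : 1 ≤ qr m := by
    unfold qr
    exact Real.one_le_rpow hm0 (by norm_num)
  have hq8 : qr m ^ 8 = (m : ℝ) := by
    unfold qr
    rw [← Real.rpow_natCast, ← Real.rpow_mul (by linarith)]
    norm_num
  generalize qr m = q at *
  by_contra hlt
  push Not at hlt
  have hδ : q ^ 9 * |(m : ℝ) * tt y - n| < 1 / 10 := lt_of_lt_of_le hlt hc
  have hq9 : (1 : ℝ) ≤ q ^ 9 := one_le_pow₀ hq1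
  have h1 := keyR h (-n) m (Or.inr (by omega))
  have h2 : (((-n : ℤ) : ℝ)) * y.a + (m : ℝ) * y.b = y.a * ((m : ℝ) * tt y - n) := by
    unfold tt
    field_simp
    push_cast
    ring
  rw [h2] at h1
  have h3 : |(y.a : ℝ) * ((m : ℝ) * tt y - n)| = y.a * |(m : ℝ) * tt y - n| := by
    rw [abs_mul, abs_of_pos hay]
  have h3' : ((y.a : ℝ) * ((m : ℝ) * tt y - n)) ^ 2 = y.a ^ 2 * |(m : ℝ) * tt y - n| ^ 2 := by
    rw [mul_pow, sq_abs]
  rw [h3, h3', abs_of_pos (by linarith : (0 : ℝ) < m)] at h1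
  have hδ0 : 0 ≤ |(m : ℝ) * tt y - n| := abs_nonneg _
  generalize |(m : ℝ) * tt y - n| = δ at *
  have h4 : δ < 1 / 10 := by
    have : δ ≤ q ^ 9 * δ := le_mul_of_one_le_left hδ0 hq9
    linarith
  have h5 : δ * m < 1 / 10 := by
    have h51 : (m : ℝ) ≤ q ^ 9 := by
      rw [← hq8]
      exact pow_le_pow_right₀ hq1 (by norm_num)
    have h52 : δ * m ≤ q ^ 9 * δ := by
      rw [mul_comm]
      exact mul_le_mul_of_nonneg_right h51 hδ0
    linarith
  have h6 : (m : ℝ) ^ 2 ≤ y.a / 2 := by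
    rw [← hq8, ← pow_mul]
    norm_num
    by_cases h2q : 2 ≤ q
    · have : q ^ 17 = q ^ 16 * q := by ring
      rw [this] at hq
      nlinarith [pow_nonneg (by linarith : (0 : ℝ) ≤ q) 16]
    · push Not at h2q
      have : q ^ 16 ≤ 2 ^ 16 := pow_le_pow_left₀ (by linarith) h2q.le 16
      norm_num at this
      linarith
  have h7 : (y.a : ℝ) ^ 2 * δ ^ 2 ≤ y.a ^ 2 * (1 / 100) := by
    refine mul_le_mul_of_nonneg_left ?_ (sq_nonneg _)
    nlinarith
  have h8 : (y.a : ℝ) * δ * m * (3 * y.a) ≤ y.a ^ 2 * (3 / 10) := by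
    have : (y.a : ℝ) * δ * m * (3 * y.a) = y.a ^ 2 * (3 * (δ * m)) := by ring
    rw [this]
    refine mul_le_mul_of_nonneg_left ?_ (sq_nonneg _)
    linarith
  have h9 : (m : ℝ) ^ 2 * (y.a + 2) ≤ y.a / 2 * (y.a + 2) :=
    mul_le_mul_of_nonneg_right h6 (by linarith)
  nlinarith

end START

open WHP.StartAux in
/-- START: there is an initial state -/
theorem START_thm (hL : Lem2) : Start := by
  obtain ⟨n, b, hb, hby⟩ := exists_root NN (by norm_num [NN]) B0 (by norm_num [B0])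
  have hnd := nd_Nd n
  generalize hy : nd n = y at *
  generalize ((-1 : ℤ)) ^ n = ε at *
  have hb6 : (1000000 : ℝ) ≤ b := hb
  have hb1 : (1 : ℝ) ≤ b := by linarith
  have hb0 : (0 : ℝ) < b := by linarith
  have hba : b ≤ (y.a : ℝ) := by
    rw [← hby]
    exact le_self_pow₀ hb1 (by norm_num [NN])
  have hinv : 1 / b ≤ 1 / 1000000 := one_div_le_one_div_of_le (by norm_num) hb6
  have ha0 : (1000 : ℝ) ≤ y.a := by linarith
  have hinv0 : 0 < 1 / b := by positivity
  have hc1 : 1 / 12 + 2 / b ≤ 1 / 10 := by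
    have : 2 / b = 2 * (1 / b) := by ring
    rw [this]
    linarith
  have hc0 : 1 / 12 ≤ 1 / 12 + 2 / b := by
    have : 2 / b = 2 * (1 / b) := by ring
    rw [this]
    linarith
  obtain ⟨ht1, ht2⟩ := tt_bounds hnd ha0
  have hR : 20 * (b ^ 400000) ^ 2 < (y.a : ℝ) := by
    rw [← hby, ← pow_mul]
    have h1 : b ^ NN = b ^ 199999 * b * b ^ (400000 * 2) := by
      rw [← pow_succ, ← pow_add]
    rw [h1]
    refine mul_lt_mul_of_pos_right ?_ (by positivity)
    have h2 : 1 ≤ b ^ 199999 := one_le_pow₀ hb1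
    nlinarith
  have hS : ∀ P : V3, Sm P (b ^ 400000) → dot P y = 0 → P = 0 := fun P hP hd =>
    small_zero hnd _ (one_le_pow₀ hb1) hR P hP hd
  refine ⟨⟨1, 0, 0⟩, y, b, ?_⟩
  have hBA : BA (1 / 12 + 2 / b) ((y.a : ℝ) ^ 2) (tt y) := by
    refine hL y _ hnd.ha (by rw [hnd.hdet]; norm_num) (by linarith) (by linarith) hc0
      (by linarith) ?_ ?_ (START.ba_short hnd (by linarith) _ hc1)
    · rw [hnd.hdet, ← hby]
      have h1 : |((2 : ℤ) : ℝ)| = 2 := by norm_num
      rw [h1]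
      exact (pow_le_pow_left₀ (by norm_num) (by linarith) 1000).trans
        (pow_le_pow_right₀ hb1 (by norm_num [NN]))
    · rw [← hby]
      exact (pow_le_pow_left₀ (by norm_num) (by linarith) 1000).trans
        (pow_le_pow_right₀ hb1 (by norm_num [NN]))
  refine ⟨by norm_num, hb, hby, by rw [hnd.hdet]; norm_num, ?_, by linarith, by linarith,
    hBA, ?_, ?_, ?_⟩
  · rw [hnd.hdet]
    have h1 : |((2 : ℤ) : ℝ)| = 2 := by norm_num
    rw [h1]
    exact le_trans (by linarith) (le_self_pow₀ hb1 (by norm_num))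
  · intro h0
    have h1 : (cross ⟨1, 0, 0⟩ y).c = 0 := by rw [h0]; rfl
    have h2 : (cross ⟨1, 0, 0⟩ y).c = y.b := by
      show 1 * y.b - 0 * y.a = y.b
      ring
    have := hnd.hb
    omega
  · intro P hP hd
    rw [hS P hP hd]
    rfl
  · intro P hP hd
    refine hS P ?_ hd
    obtain ⟨p1, p2, p3⟩ := hP
    have hle : b ^ (200000 / 2 ^ 0) ≤ b ^ 400000 := pow_le_pow_right₀ hb1 (by norm_num)
    exact ⟨p1.trans hle, p2.trans hle, p3.trans hle⟩

end WHS
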