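import Pool.Agent.WHS.Stmts

/-!
# START2: an initial state with the extra properties
-/

namespace WHS

open WHP (V3 det be ga dot cross lin tt Sm NN B0)

namespace START2

theorem B0_pos : (0 : ℝ) < B0 := by
  unfold WHP.B0
  positivity

theorem descend (h2 : OneStep) : ∀ (n i : ℕ) (x y : V3) (b : ℝ), 7 ≤ i + n → St i x y b →
    ∃ x' y' b', St 0 x' y' b' ∧ Ful x' y' b' := by
  intro n
  induction n with
  | zero =>
    intro i x y b hi h
    have := h.hi
    omega
  | succ n ih =>
    intro i x y b hi h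
    rcases h2 i x y b h with ⟨z, bz, hz, _, _⟩ | ⟨F, hF, hF1, _⟩
    · exact ih (i + 1) y z bz (by omega) hz
    · have hb : 0 < b := lt_of_lt_of_le B0_pos h.hb0
      have hc : (0 : ℝ) < F.card := lt_of_lt_of_le (by positivity) hF
      obtain ⟨z, hz⟩ : F.Nonempty := Finset.card_pos.1 (by exact_mod_cast hc)
      obtain ⟨bz, h3, h4, _⟩ := hF1 z hz
      exact ⟨y, z, bz, h3, h4⟩

end START2

theorem START2_thm (h1 : Start) (h2 : OneStep) : Start2 := by
  obtain ⟨x, y, b, h⟩ := h1
  exact START2.descend h2 7 0 x y b (by omega) h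

end WHS
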