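import Pool.Agent.WHS.Stmts

/-!
# The super-step, module WHS_SUPER (adapted from `Pool/Agent/WHP/Super.lean`)
-/

namespace WHS

open WHP (V3 det be ga dot cross lin tt Sm NN B0)

namespace SUPER

/-- the statement of the induction: `n = 6 - i` -/
def SupN (n : ℕ) (x y : V3) (b : ℝ) : Prop := ∃ F : Finset (V3 × V3 × ℝ),
  b ^ 10 ≤ F.card ∧
  (∀ q ∈ F, St 0 q.1 q.2.1 q.2.2 ∧ Ful q.1 q.2.1 q.2.2 ∧ II q.2.1 q.2.2 ⊆ II y b ∧
    (y.a : ℝ) + 1 ≤ q.2.1.a ∧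
    (q.2.1.a : ℝ) ≤ (y.a : ℝ) ^ (2 ^ (n + 1)) ∧
    ∀ ξ ∈ II q.2.1 q.2.2, Served (hh (cross x y)) (hh (cross q.1 q.2.1)) ξ) ∧
  ∀ q ∈ F, ∀ q' ∈ F, q ≠ q' → ∀ ξ ∈ II q.2.1 q.2.2, ∀ ξ' ∈ II q'.2.1 q'.2.2,
    1 ≤ |ξ - ξ'| * (y.a : ℝ) ^ (4 * 2 ^ n)

theorem sup_one_le_b {i : ℕ} {x y : V3} {b : ℝ} (h : St i x y b) : 1 ≤ b := by
  have := h.hb0
  have h2 : (1 : ℝ) ≤ B0 := by norm_num [B0]
  linarith

theorem sup_one_le_ya {i : ℕ} {x y : V3} {b : ℝ} (h : St i x y b) : (1 : ℝ) ≤ y.a := by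
  rw [← h.hby]
  exact one_le_pow₀ (sup_one_le_b h)

/-- lower bound for `b_z` -/
theorem sup_bz {i j : ℕ} {x y z : V3} {b bz : ℝ} (hs : St i x y b) (hz : St j y z bz)
    (hc : Ch y z b bz) : b ^ 1998 ≤ bz ^ 1000 := by
  have hb1 : 1 ≤ b := sup_one_le_b hs
  have hbz1 : 1 ≤ bz := sup_one_le_b hz
  have hb0 : 0 < b := by linarith
  have h1 := hc.h1
  have hd : |(det y : ℝ)| ≤ b ^ 240 :=
    hs.hd.trans (pow_le_pow_right₀ hb1 (by omega))
  have hd2 : (det y : ℝ) ^ 2 ≤ b ^ 480 := by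
    rw [← sq_abs]
    calc |(det y : ℝ)| ^ 2 ≤ (b ^ 240) ^ 2 := pow_le_pow_left₀ (abs_nonneg _) hd 2
      _ = b ^ 480 := by rw [← pow_mul]
  rw [← hs.hby, ← hc.hbz] at h1
  have hz0 : 0 ≤ bz ^ NN := pow_nonneg (by linarith) _
  have h1' : (b ^ NN) ^ 2 ≤ bz ^ NN * b ^ 1221 := by
    refine h1.trans ?_
    calc b ^ 741 * (det y : ℝ) ^ 2 * bz ^ NN ≤ b ^ 741 * b ^ 480 * bz ^ NN := by
          apply mul_le_mul_of_nonneg_right _ hz0
          exact mul_le_mul_of_nonneg_left hd2 (pow_nonneg hb0.le _)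
      _ = bz ^ NN * b ^ 1221 := by rw [← pow_add, mul_comm]
  have h2 : b ^ (1998 * 1000) * b ^ 1221 ≤ bz ^ NN * b ^ 1221 := by
    refine le_trans ?_ h1'
    rw [← pow_add, ← pow_mul]
    exact pow_le_pow_right₀ hb1 (by norm_num [NN])
  have h3 : b ^ (1998 * 1000) ≤ bz ^ NN :=
    le_of_mul_le_mul_right h2 (pow_pos hb0 _)
  have h4 : (b ^ 1998) ^ 1000 ≤ (bz ^ 1000) ^ 1000 := by
    rw [← pow_mul, ← pow_mul]
    have e : (1000 * 1000 : ℕ) = NN := by norm_num [NN]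
    rw [e]
    exact h3
  exact le_of_pow_le_pow_left₀ (by norm_num) (pow_nonneg (by linarith) _) h4

/-- the intervals are small compared with the separation of the family -/
theorem sup_small {i j : ℕ} {x y z : V3} {b bz : ℝ} (hs : St i x y b) (hz : St j y z bz)
    (hc : Ch y z b bz) : 1 / bz ^ 1900000 * ((y.a : ℝ) ^ 3 * b ^ 1000) ≤ 1 / 4 := by
  have hb1 : 1 ≤ b := sup_one_le_b hs
  have hbz1 : 1 ≤ bz := sup_one_le_b hz
  have hb0 : 0 < b := by linarith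
  have h := sup_bz hs hz hc
  have h1 : b ^ (1998 * 1900) ≤ bz ^ 1900000 := by
    have h2 : (b ^ 1998) ^ 1900 ≤ (bz ^ 1000) ^ 1900 :=
      pow_le_pow_left₀ (pow_nonneg hb0.le _) h _
    rw [← pow_mul, ← pow_mul] at h2
    have e : (1000 * 1900 : ℕ) = 1900000 := by norm_num
    rw [e] at h2
    exact h2
  have h3 : 4 * ((y.a : ℝ) ^ 3 * b ^ 1000) ≤ bz ^ 1900000 := by
    refine le_trans ?_ h1
    rw [← hs.hby, ← pow_mul, ← pow_add]
    have h4 : (4 : ℝ) ≤ b := by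
      have := hs.hb0
      have h2 : (4 : ℝ) ≤ B0 := by norm_num [B0]
      linarith
    calc 4 * b ^ (NN * 3 + 1000) ≤ b * b ^ (NN * 3 + 1000) :=
          mul_le_mul_of_nonneg_right h4 (pow_nonneg hb0.le _)
      _ = b ^ (NN * 3 + 1000 + 1) := by rw [pow_succ]; ring
      _ ≤ b ^ (1998 * 1900) := pow_le_pow_right₀ hb1 (by norm_num [NN])
  have hpos : 0 < bz ^ 1900000 := pow_pos (by linarith) _
  rw [div_mul_eq_mul_div, one_mul, div_le_div_iff₀ hpos (by norm_num)]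
  linarith

theorem served_trans {h h' h'' ξ : ℝ} (h1 : Served h h' ξ) (h2 : Served h' h'' ξ) :
    Served h h'' ξ := by
  intro H hH1 hH2
  rcases lt_or_ge H h' with h3 | h3
  · exact h1 H hH1 h3
  · exact h2 H h3 hH2

/-- one child -/
theorem sup_child {n i : ℕ} {x y z : V3} {b bz : ℝ} (hS : ServedStep) (hs : St i x y b)
    (hf : Ful x y b)
    (hz : St (i + 1) y z bz) (hc : Ch y z b bz) (ih : SupN n y z bz) : SupN (n + 1) x y b := by
  obtain ⟨F, hF1, hF2, hF3⟩ := ih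
  obtain ⟨hII, hbb, hya, hser⟩ := hS i (i + 1) x y z b bz hs hf hz hc
  have hb1 : 1 ≤ b := sup_one_le_b hs
  have hy1 : (1 : ℝ) ≤ y.a := sup_one_le_ya hs
  have hz0 : (0 : ℝ) ≤ z.a := by linarith
  refine ⟨F, le_trans (pow_le_pow_left₀ (by linarith) hbb 10) hF1, ?_, ?_⟩
  · intro q hq
    obtain ⟨h1, h1', h2, h3, h4, h5⟩ := hF2 q hq
    refine ⟨h1, h1', h2.trans hII, by linarith, ?_, ?_⟩
    · refine h4.trans ?_
      calc (z.a : ℝ) ^ (2 ^ (n + 1)) ≤ ((y.a : ℝ) ^ 2) ^ (2 ^ (n + 1)) :=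
            pow_le_pow_left₀ hz0 hc.h2 _
        _ = (y.a : ℝ) ^ (2 ^ (n + 1 + 1)) := by
            rw [← pow_mul]; congr 1; ring
    · intro ξ hξ
      exact served_trans (hser ξ (h2 hξ)) (h5 ξ hξ)
  · intro q hq q' hq' hne ξ hξ ξ' hξ'
    refine (hF3 q hq q' hq' hne ξ hξ ξ' hξ').trans ?_
    refine mul_le_mul_of_nonneg_left ?_ (abs_nonneg _)
    calc (z.a : ℝ) ^ (4 * 2 ^ n) ≤ ((y.a : ℝ) ^ 2) ^ (4 * 2 ^ n) :=
          pow_le_pow_left₀ hz0 hc.h2 _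
      _ = (y.a : ℝ) ^ (4 * 2 ^ (n + 1)) := by
          rw [← pow_mul]; congr 1; ring

/-- the family -/
theorem sup_family {n i : ℕ} {x y : V3} {b : ℝ} (hS : ServedStep) (hs : St i x y b)
    (hf : Ful x y b)
    {F : Finset V3} (hF1 : b ^ 10 ≤ F.card)
    (hF2 : ∀ z ∈ F, ∃ bz, St 0 y z bz ∧ Ful y z bz ∧ Ch y z b bz)
    (hF3 : ∀ z ∈ F, ∀ z' ∈ F, z ≠ z' → 1 ≤ |tt z - tt z'| * (y.a : ℝ) ^ 3 * b ^ 1000) :
    SupN n x y b := by
  classical
  have hb1 : 1 ≤ b := sup_one_le_b hs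
  have hb0 : 0 < b := by linarith
  have hy1 : (1 : ℝ) ≤ y.a := sup_one_le_ya hs
  choose! g hg1 hgf hg2 using hF2
  let G : V3 → V3 × V3 × ℝ := fun z => (y, z, g z)
  have hG : Function.Injective G := by
    intro z z' h
    exact congrArg (fun q : V3 × V3 × ℝ => q.2.1) h
  refine ⟨F.image G, ?_, ?_, ?_⟩
  · rw [Finset.card_image_of_injective _ hG]
    exact hF1
  · intro q hq
    obtain ⟨z, hz, rfl⟩ := Finset.mem_image.1 hq
    obtain ⟨hII, hbb, hya, hser⟩ := hS i 0 x y z b (g z) hs hf (hg1 z hz) (hg2 z hz)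
    refine ⟨hg1 z hz, hgf z hz, hII, hya, ?_, hser⟩
    refine (hg2 z hz).h2.trans ?_
    refine pow_le_pow_right₀ hy1 ?_
    calc 2 = 2 ^ 1 := by norm_num
      _ ≤ 2 ^ (n + 1) := Nat.pow_le_pow_right (by norm_num) (by omega)
  · intro q hq q' hq' hne ξ hξ ξ' hξ'
    obtain ⟨z, hz, rfl⟩ := Finset.mem_image.1 hq
    obtain ⟨z', hz', rfl⟩ := Finset.mem_image.1 hq'
    have hzz : z ≠ z' := fun h => hne (by rw [h])
    have hsep := hF3 z hz z' hz' hzz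
    have e1 := sup_small hs (hg1 z hz) (hg2 z hz)
    have e2 := sup_small hs (hg1 z' hz') (hg2 z' hz')
    have hK : 0 < (y.a : ℝ) ^ 3 * b ^ 1000 := by positivity
    set K : ℝ := (y.a : ℝ) ^ 3 * b ^ 1000 with hKd
    have a1 : |ξ - tt z| ≤ 1 / g z ^ 1900000 := by
      rw [abs_le]
      have := hξ
      simp only [G, II, Set.mem_Icc] at this
      constructor <;> linarith [this.1, this.2]
    have a2 : |ξ' - tt z'| ≤ 1 / g z' ^ 1900000 := by
      rw [abs_le]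
      have := hξ'
      simp only [G, II, Set.mem_Icc] at this
      constructor <;> linarith [this.1, this.2]
    have a3 : |tt z - tt z'| ≤ |ξ - tt z| + |ξ - ξ'| + |ξ' - tt z'| := by
      have : tt z - tt z' = -(ξ - tt z) + (ξ - ξ') + (ξ' - tt z') := by ring
      rw [this]
      refine (abs_add_le _ _).trans ?_
      have := abs_add_le (-(ξ - tt z)) (ξ - ξ')
      rw [abs_neg] at this
      linarith
    have a4 : 1 / 2 ≤ |ξ - ξ'| * K := by
      have h1 : 1 ≤ |tt z - tt z'| * K := by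
        rw [hKd]
        calc (1 : ℝ) ≤ |tt z - tt z'| * (y.a : ℝ) ^ 3 * b ^ 1000 := hsep
          _ = |tt z - tt z'| * ((y.a : ℝ) ^ 3 * b ^ 1000) := by ring
      have h2 : |tt z - tt z'| * K ≤
          (1 / g z ^ 1900000 + |ξ - ξ'| + 1 / g z' ^ 1900000) * K := by
        refine mul_le_mul_of_nonneg_right ?_ hK.le
        linarith
      have h3 : (1 / g z ^ 1900000 + |ξ - ξ'| + 1 / g z' ^ 1900000) * K =
          1 / g z ^ 1900000 * K + |ξ - ξ'| * K + 1 / g z' ^ 1900000 * K := by ring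
      linarith
    have a5 : 2 * K ≤ (y.a : ℝ) ^ (4 * 2 ^ n) := by
      have h1 : (y.a : ℝ) ^ 4 ≤ (y.a : ℝ) ^ (4 * 2 ^ n) := by
        refine pow_le_pow_right₀ hy1 ?_
        have : 1 ≤ 2 ^ n := Nat.one_le_two_pow
        omega
      refine le_trans ?_ h1
      have h2 : 2 * b ^ 1000 ≤ (y.a : ℝ) := by
        rw [← hs.hby]
        have h4 : (2 : ℝ) ≤ b := by
          have := hs.hb0
          have h2 : (2 : ℝ) ≤ B0 := by norm_num [B0]
          linarith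
        calc 2 * b ^ 1000 ≤ b * b ^ 1000 :=
              mul_le_mul_of_nonneg_right h4 (pow_nonneg hb0.le _)
          _ = b ^ 1001 := by rw [← pow_succ']
          _ ≤ b ^ NN := pow_le_pow_right₀ hb1 (by norm_num [NN])
      calc 2 * K = (y.a : ℝ) ^ 3 * (2 * b ^ 1000) := by rw [hKd]; ring
        _ ≤ (y.a : ℝ) ^ 3 * y.a := mul_le_mul_of_nonneg_left h2 (by positivity)
        _ = (y.a : ℝ) ^ 4 := by ring
    calc (1 : ℝ) ≤ 2 * (|ξ - ξ'| * K) := by linarith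
      _ = |ξ - ξ'| * (2 * K) := by ring
      _ ≤ |ξ - ξ'| * (y.a : ℝ) ^ (4 * 2 ^ n) := mul_le_mul_of_nonneg_left a5 (abs_nonneg _)

theorem sup_main (hO : OneStep) (hS : ServedStep) : ∀ (n i : ℕ), i + n = 6 →
    ∀ (x y : V3) (b : ℝ), St i x y b → Ful x y b → SupN n x y b := by
  intro n
  induction n with
  | zero =>
    intro i hi x y b hs hf
    rcases hO i x y b hs with ⟨z, bz, hz, _⟩ | ⟨F, hF1, hF2, hF3⟩
    · exact absurd hz.hi (by omega)
    · exact sup_family hS hs hf hF1 hF2 hF3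
  | succ n ih =>
    intro i hi x y b hs hf
    rcases hO i x y b hs with ⟨z, bz, hz, hzf, hc⟩ | ⟨F, hF1, hF2, hF3⟩
    · exact sup_child hS hs hf hz hc (ih (i + 1) (by omega) y z bz hz hzf)
    · exact sup_family hS hs hf hF1 hF2 hF3

end SUPER

/-- module SUPER -/
theorem SUPER_thm (h1 : OneStep) (h2 : ServedStep) : Super := by
  intro x y b hs hf
  obtain ⟨F, g1, g2, g3⟩ := SUPER.sup_main h1 h2 6 0 (by norm_num) x y b hs hf
  exact ⟨F, g1, by simpa using g2, by simpa using g3⟩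

end WHS
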