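import Pool.Agent.WHS.Stmts

/-!
# AREA: upper bound for the second minor in case (c)
-/

namespace WHS

open WHP (V3 det be ga dot cross lin tt Sm NN B0)

namespace AREA

theorem cV_lin (y : V3) (i k : ℤ) (v w : V3) :
    cV y (lin i v k w) = i * cV y v + k * cV y w := by
  simp only [cV, lin]
  push_cast
  ring

theorem cx_lin (y : V3) (i k : ℤ) (v w : V3) :
    cx y (lin i v k w) = i * cx y v + k * cx y w := by
  simp only [cx, be, lin]
  push_cast
  ring

theorem cc_lin (y : V3) (i k : ℤ) (v w : V3) :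
    cc y (lin i v k w) = i * cc y v + k * cc y w := by
  simp only [cc, ga, lin]
  push_cast
  ring

/-- the triple product in the normalised coordinates -/
theorem triple (y v w u : V3) (hY : (y.a : ℝ) ≠ 0) (hD : (det y : ℝ) ≠ 0) :
    cV y v * (cx y w * cc y u - cc y w * cx y u) - cx y v * (cV y w * cc y u - cc y w * cV y u) +
      cc y v * (cV y w * cx y u - cx y w * cV y u) =
      |(det y : ℝ)| * (dot (cross v w) u : ℝ) := by
  have hAB : ((det y : ℝ) ^ 2 / (y.a : ℝ) ^ 2) * ((y.a : ℝ) ^ 2 / (det y : ℝ) ^ 2) = 1 := by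
    field_simp
  have hV : ∀ z : V3, cV y z = z.a * ((det y : ℝ) ^ 2 / (y.a : ℝ) ^ 2) := by
    intro z
    rw [cV, mul_div_assoc]
  have hC : ∀ z : V3, cc y z = ga (tt y) z * ((y.a : ℝ) ^ 2 / (det y : ℝ) ^ 2) := by
    intro z
    rw [cc, mul_div_assoc]
  rw [hV, hV, hV, hC, hC, hC]
  simp only [cx, be, ga, dot, cross]
  push_cast
  generalize (det y : ℝ) ^ 2 / (y.a : ℝ) ^ 2 = A at hAB ⊢
  generalize (y.a : ℝ) ^ 2 / (det y : ℝ) ^ 2 = B at hAB ⊢
  generalize |(det y : ℝ)| = d
  generalize tt y = t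
  linear_combination (d * ((v.b * w.c - v.c * w.b) * u.a + (v.c * w.a - v.a * w.c) * u.b +
    (v.a * w.b - v.b * w.a) * u.c : ℝ)) * hAB

/-- half of two numbers -/
theorem half_bound {r s X Y m : ℝ} (hr : |r| ≤ 1 / 2) (hs : |s| ≤ 1 / 2) (hX : |X| ≤ m)
    (hY : |Y| ≤ m) : |r * X + s * Y| ≤ m := by
  have h1 : |r * X + s * Y| ≤ |r| * |X| + |s| * |Y| := by
    calc |r * X + s * Y| ≤ |r * X| + |s * Y| := abs_add_le _ _
      _ = _ := by rw [abs_mul, abs_mul]
  have h2 : |r| * |X| ≤ 1 / 2 * m := mul_le_mul hr hX (abs_nonneg _) (by norm_num)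
  have h3 : |s| * |Y| ≤ 1 / 2 * m := mul_le_mul hs hY (abs_nonneg _) (by norm_num)
  linarith

end AREA

open AREA in
theorem AREA_thm : Area := by
  intro i x y v w u b p q n hSt hnv hnw hmax ha2 hp hq hV1 hV2 hn1 hn2 hdot
  by_contra hcon
  rw [not_le] at hcon
  have hb : (1000000 : ℝ) ≤ b := hSt.hb0
  have hb0 : (0 : ℝ) < b := by linarith
  have hY : (y.a : ℝ) ≠ 0 := by
    rw [← hSt.hby]
    positivity
  have hD : (det y : ℝ) ≠ 0 := by exact_mod_cast hSt.hdet
  have hd : (0 : ℝ) < |(det y : ℝ)| := abs_pos.2 hD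
  set d := |(det y : ℝ)| with hd_def
  -- the bounds on the coordinates
  have hx : ∀ z : V3, nu b y z ≤ 1 → |cx y z| ≤ 1 / b ^ 90 := by
    intro z hz
    have h1 : |cx y z| * b ^ 90 ≤ 1 := le_trans (le_trans (le_max_left _ _) (le_max_right _ _)) hz
    rw [le_div_iff₀ (by positivity)]
    exact h1
  have hc : ∀ z : V3, nu b y z ≤ 1 → |cc y z| ≤ b ^ 481 := by
    intro z hz
    have h1 : |cc y z| / b ^ 481 ≤ 1 := le_trans (le_trans (le_max_right _ _) (le_max_right _ _)) hz
    rw [div_le_iff₀ (by positivity), one_mul] at h1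
    exact h1
  -- the determinant
  set D0 := cx y v * cc y w - cc y v * cx y w with hD0
  have ha2' : a2 y v w = |D0| := rfl
  rw [ha2'] at ha2 hcon
  have hD0' : D0 ≠ 0 := abs_pos.1 ha2
  have htrip := triple y v w u hY hD
  rw [hdot, ← hd_def] at htrip
  have hL : (cV y u - p * cx y u - q * cc y u) * D0 = d * n := by
    rw [← htrip, hV1, hV2, hD0]
    ring
  -- the sign
  obtain ⟨σ, hσ, hσD⟩ : ∃ σ : ℤ, (σ = 1 ∨ σ = -1) ∧ (σ : ℝ) * |D0| = D0 := by
    rcases lt_or_gt_of_ne hD0' with h | h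
    · exact ⟨-1, Or.inr rfl, by rw [abs_of_neg h]; push_cast; ring⟩
    · exact ⟨1, Or.inl rfl, by rw [abs_of_pos h]; push_cast; ring⟩
  have hσ2 : (σ : ℝ) * σ = 1 := by
    rcases hσ with rfl | rfl <;> norm_num
  set δ := d * n / |D0| with hδ
  have hn1' : (1 : ℝ) ≤ n := by exact_mod_cast hn1
  have hn2' : (n : ℝ) ≤ 2 := by exact_mod_cast hn2
  have hδ0 : 0 < δ := by positivity
  have hLδ : (σ : ℝ) * (cV y u - p * cx y u - q * cc y u) = δ := by
    rw [hδ, eq_div_iff ha2.ne', ← hL]
    calc (σ : ℝ) * (cV y u - p * cx y u - q * cc y u) * |D0|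
        = (cV y u - p * cx y u - q * cc y u) * (σ * |D0|) := by ring
      _ = _ := by rw [hσD]
  have hδ1 : δ ≤ 1 / (8 * b ^ 3) := by
    rw [hδ, div_le_div_iff₀ ha2 (by positivity)]
    have h1 : d * n * (8 * b ^ 3) ≤ 16 * b ^ 3 * d := by
      have h2 : 0 < d * b ^ 3 := by positivity
      nlinarith
    linarith
  -- the multiplier
  set e := 1 / b ^ 134 with he
  have he0 : 0 < e := by positivity
  set M : ℤ := ⌈135 * e / δ⌉ with hM
  have hM1 : 135 * e / δ ≤ M := Int.le_ceil _
  have hM2 : (M : ℝ) < 135 * e / δ + 1 := Int.ceil_lt_add_one _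
  have hM0 : 0 < M := by
    apply Int.ceil_pos.2
    positivity
  have hMδ1 : 135 * e ≤ M * δ := by
    rw [div_le_iff₀ hδ0] at hM1
    exact hM1
  have hMδ2 : M * δ ≤ 135 * e + δ := by
    have h1 : M * δ ≤ (135 * e / δ + 1) * δ := mul_le_mul_of_nonneg_right hM2.le hδ0.le
    have h2 : (135 * e / δ + 1) * δ = 135 * e + δ := by
      field_simp
    linarith
  set k : ℤ := σ * M with hk
  have hk0 : k ≠ 0 := by
    rcases hσ with rfl | rfl <;> simp [hk, hM0.ne']
  -- the real coordinates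
  set A := (k * cx y u * cc y w - k * cc y u * cx y w) / D0 with hA
  set B := (cx y v * (k * cc y u) - cc y v * (k * cx y u)) / D0 with hB
  have hAB1 : A * cx y v + B * cx y w = k * cx y u := by
    rw [hA, hB]
    field_simp
    rw [hD0]
    ring
  have hAB2 : A * cc y v + B * cc y w = k * cc y u := by
    rw [hA, hB]
    field_simp
    rw [hD0]
    ring
  have hrA : |A - round A| ≤ 1 / 2 := abs_sub_round A
  have hrB : |B - round B| ≤ 1 / 2 := abs_sub_round B
  set w' : V3 := lin k u 1 (lin (-round A) v (-round B) w) with hw'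
  have hxw : cx y w' = (A - round A) * cx y v + (B - round B) * cx y w := by
    rw [hw', cx_lin, cx_lin]
    push_cast
    linear_combination -hAB1
  have hcw : cc y w' = (A - round A) * cc y v + (B - round B) * cc y w := by
    rw [hw', cc_lin, cc_lin]
    push_cast
    linear_combination -hAB2
  have hxw1 : |cx y w'| ≤ 1 / b ^ 90 := by
    rw [hxw]
    exact half_bound hrA hrB (hx v hnv) (hx w hnw)
  have hcw1 : |cc y w'| ≤ b ^ 481 := by
    rw [hcw]
    exact half_bound hrA hrB (hc v hnv) (hc w hnw)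
  have hVw : cV y w' = M * δ + p * cx y w' + q * cc y w' := by
    have h1 : cV y w' - p * cx y w' - q * cc y w' =
        k * (cV y u - p * cx y u - q * cc y u) := by
      rw [hw', cV_lin, cV_lin, cx_lin, cx_lin, cc_lin, cc_lin, hV1, hV2]
      push_cast
      ring
    have h2 : (k : ℝ) * (cV y u - p * cx y u - q * cc y u) = M * δ := by
      rw [← hLδ, hk]
      push_cast
      ring
    linarith
  have hpx : |p * cx y w'| ≤ 60 * e := by
    rw [abs_mul]
    calc |p| * |cx y w'| ≤ 60 / b ^ 44 * (1 / b ^ 90) :=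
          mul_le_mul hp hxw1 (abs_nonneg _) (by positivity)
      _ = 60 * e := by
          rw [he, div_mul_div_comm, ← pow_add]
          ring
  have hqc : |q * cc y w'| ≤ 60 * e := by
    rw [abs_mul]
    calc |q| * |cc y w'| ≤ 60 / b ^ 615 * b ^ 481 :=
          mul_le_mul hq hcw1 (abs_nonneg _) (by positivity)
      _ = 60 * e := by
          rw [he, show (615 : ℕ) = 134 + 481 from rfl, pow_add]
          field_simp
  have hp1 := abs_le.1 hpx
  have hq1 := abs_le.1 hqc
  have hV_low : 15 * e ≤ cV y w' := by rw [hVw]; linarith [hp1.1, hq1.1]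
  have hV_up : cV y w' ≤ 255 * e + 1 / (8 * b ^ 3) := by
    rw [hVw]; linarith [hp1.2, hq1.2]
  have hVabs : |cV y w'| = cV y w' := abs_of_nonneg (by linarith)
  -- the norm
  have hnu : nu b y w' ≤ 1 := by
    refine max_le ?_ (max_le ?_ ?_)
    · rw [hVabs]
      have h1 : cV y w' * b ^ 3 ≤ (255 * e + 1 / (8 * b ^ 3)) * b ^ 3 :=
        mul_le_mul_of_nonneg_right hV_up (by positivity)
      have h2 : (255 * e + 1 / (8 * b ^ 3)) * b ^ 3 = 255 / b ^ 131 + 1 / 8 := by
        rw [he, show (134 : ℕ) = 131 + 3 from rfl, pow_add]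
        field_simp
      have h3 : 255 / b ^ 131 ≤ 1 / 8 := by
        rw [div_le_div_iff₀ (by positivity) (by norm_num)]
        have h4 : b ≤ b ^ 131 := le_self_pow₀ (by linarith) (by norm_num)
        linarith
      linarith
    · rw [le_div_iff₀ (by positivity)] at hxw1
      exact hxw1
    · rw [div_le_one (by positivity)]
      exact hcw1
  -- not parallel to `v`
  have hcr : cross v w' ≠ 0 := by
    intro h0
    have h1 : dot (cross v w') w = 0 := by
      rw [h0]
      simp only [dot, WHP.zero_a, WHP.zero_b, WHP.zero_c]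
      ring
    have h2 : dot (cross v w') w = - (k * dot (cross v w) u) := by
      rw [hw']
      simp only [dot, cross, lin]
      ring
    rw [h2, hdot] at h1
    have h3 : k * n = 0 := by linarith
    rcases mul_eq_zero.1 h3 with h4 | h4
    · exact hk0 h4
    · omega
  have hfin := hmax w' hnu hcr
  rw [hVabs] at hfin
  have h1 : 3 / b ^ 134 = 3 * e := by rw [he]; ring
  rw [h1] at hfin
  linarith

end WHS
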