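import Pool.Agent.WHP.Basic

/-!
# Positive dimension of `{ξ : ŵ₂*(ξ) > 2}` : definitions (MP_c538e3_nt, notes 1592 and 1767)

Integer vectors `V3`, `det`, `be`, `ga`, `dot`, `cross`, `lin`, `tt`, `Sm`, `NN`, `B0` are those
of `WHP`. The names `qr`, `BA`, `St`, `Ch`, ... of this namespace are new versions.
-/

namespace WHS

open WHP (V3 det be ga dot cross lin tt Sm NN B0)

/-- the real eighth root of an integer -/
noncomputable def qr (m : ℤ) : ℝ := (m : ℝ) ^ ((1 : ℝ) / 8)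

/-- `m^{9/8}|m t - n| ≥ c` for all `m ≥ 1` with `m^{17/8} ≤ R` and all `n` -/
def BA (c R t : ℝ) : Prop :=
  ∀ m n : ℤ, 1 ≤ m → qr m ^ 17 ≤ R → c ≤ qr m ^ 9 * |(m : ℝ) * t - n|

/-- height of a vector -/
noncomputable def hh (v : V3) : ℝ := max |(v.a : ℝ)| (max |(v.b : ℝ)| |(v.c : ℝ)|)

/-- `P(ξ)` -/
noncomputable def ev (P : V3) (ξ : ℝ) : ℝ := P.a + P.b * ξ + P.c * ξ ^ 2

/-- `P'(ξ)` -/
noncomputable def der (P : V3) (ξ : ℝ) : ℝ := P.b + 2 * P.c * ξ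

/-- the states `St_i(x,y)`, `b ^ N = y₀` -/
structure St (i : ℕ) (x y : V3) (b : ℝ) : Prop where
  hi : i ≤ 6
  hb0 : B0 ≤ b
  hby : b ^ NN = (y.a : ℝ)
  hdet : det y ≠ 0
  hd : |(det y : ℝ)| ≤ b ^ (240 - 36 * i)
  ht1 : 1 / 4 + 1 / b ≤ tt y
  ht2 : tt y ≤ 3 / 4 - 1 / b
  hS2 : BA (1 / 12 + 2 / b) ((y.a : ℝ) ^ 2) (tt y)
  hxy : cross x y ≠ 0
  hS3 : ∀ P : V3, Sm P (b ^ 400000) → dot P y = 0 → dot P x = 0
  hS4 : ∀ P : V3, Sm P (b ^ (200000 / 2 ^ i)) → dot P y = 0 → P = 0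

/-- extra properties of the pair `(x,y)` -/
structure Ful (x y : V3) (b : ℝ) : Prop where
  h5 : ∀ P : V3, dot P y = 0 → dot P x = 0 → |(P.c : ℝ)| ≤ b ^ 400 * |der P (tt y)|
  h6 : Sm (cross x y) (b ^ 500000)

/-- candidates for the children of `y` -/
structure Cand (y z : V3) (b : ℝ) : Prop where
  hpos : 0 < z.a
  hdet : det z ≠ 0
  hstar : b ^ 2 * (y.a : ℝ) ^ 4 * |be (tt y) z| ^ 3 ≤ |(det y : ℝ)| * (z.a : ℝ) ^ 2
  hrange : b ^ 2 * (det y : ℝ) ^ 2 * z.a ≤ (y.a : ℝ) ^ 2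
  hga : |ga (tt y) z| * (y.a : ℝ) ^ 2 ≤ b ^ 740 * (det y : ℝ) ^ 2
  hbe : |be (tt y) z| ≤ 1 / 2

/-- child relation `y → z` -/
structure Ch (y z : V3) (b bz : ℝ) : Prop where
  h0 : 0 < y.a
  cand : Cand y z b
  h1 : (y.a : ℝ) ^ 2 ≤ b ^ 741 * (det y : ℝ) ^ 2 * z.a
  h2 : (z.a : ℝ) ≤ (y.a : ℝ) ^ 2
  h4 : |tt z - tt y| * (b * y.a * √(z.a : ℝ)) ≤ 1
  hbz : bz ^ NN = (z.a : ℝ)
  hbz0 : 0 < bz

/-! ### Normalised coordinates at the node `y`, `d = |det y|`, `Y = y₀` -/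

/-- `V = v₀ d² / Y²` -/
noncomputable def cV (y v : V3) : ℝ := (v.a : ℝ) * (det y : ℝ) ^ 2 / (y.a : ℝ) ^ 2

/-- `x = β(v) d` -/
noncomputable def cx (y v : V3) : ℝ := be (tt y) v * |(det y : ℝ)|

/-- `c = γ(v) Y² / d²` -/
noncomputable def cc (y v : V3) : ℝ := ga (tt y) v * (y.a : ℝ) ^ 2 / (det y : ℝ) ^ 2

/-- the norm with unit ball `K : |V| ≤ b^{-3}, |x| ≤ b^{-90}, |c| ≤ b^{481}` -/
noncomputable def nu (b : ℝ) (y v : V3) : ℝ :=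
  max (|cV y v| * b ^ 3) (max (|cx y v| * b ^ 90) (|cc y v| / b ^ 481))

/-- the second minor of `v, w` in the coordinates `x, c` -/
noncomputable def a2 (y v w : V3) : ℝ := |cx y v * cc y w - cc y v * cx y w|

/-- the interval of a node -/
def II (z : V3) (bz : ℝ) : Set ℝ := Set.Icc (tt z - 1 / bz ^ 1900000) (tt z + 1 / bz ^ 1900000)

/-- a good quadratic number for `ξ` and `H` -/
def Good (H ξ : ℝ) : Prop := ∃ P : V3, P ≠ 0 ∧ hh P ≤ H ∧ der P ξ ≠ 0 ∧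
  8 * |(P.c : ℝ)| * |ev P ξ| ≤ der P ξ ^ 2 ∧
  (|ev P ξ| * hh P * H ^ 2) ^ NN * H ≤ |der P ξ| ^ NN

/-- good for all `H ∈ [h, h')` -/
def Served (h h' ξ : ℝ) : Prop := ∀ H : ℝ, h ≤ H → H < h' → Good H ξ

end WHS
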