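import Pool.Agent.WHS.Stmts
import Pool.Agent.WHP.Box

/-!
# Basic lemmas: states, normalised coordinates, boxes, heights
-/

namespace WHS

open WHP (V3 det be ga dot cross lin tt Sm NN B0)

/-! ### States -/

section st

variable {i : ℕ} {x y : V3} {b : ℝ}

theorem St.big (h : St i x y b) : (1000000 : ℝ) ≤ b := h.hb0

theorem St.b1 (h : St i x y b) : (1 : ℝ) ≤ b := by
  have := h.big
  linarith

theorem St.b0 (h : St i x y b) : (0 : ℝ) < b := by
  have := h.big
  linarith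

theorem St.Yeq (h : St i x y b) : (y.a : ℝ) = b ^ 1000000 := h.hby.symm

theorem St.Y1 (h : St i x y b) : (1 : ℝ) ≤ y.a := by
  rw [h.Yeq]
  exact one_le_pow₀ h.b1

theorem St.Ypos (h : St i x y b) : (0 : ℝ) < y.a := lt_of_lt_of_le one_pos h.Y1

theorem St.ya (h : St i x y b) : 0 < y.a := by exact_mod_cast h.Ypos

theorem St.d1 (h : St i x y b) : (1 : ℝ) ≤ |(det y : ℝ)| := by
  have h1 : (1 : ℤ) ≤ |det y| := Int.one_le_abs h.hdet
  exact_mod_cast h1

theorem St.d0 (h : St i x y b) : (0 : ℝ) < |(det y : ℝ)| := lt_of_lt_of_le one_pos h.d1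

theorem St.dne (h : St i x y b) : (det y : ℝ) ≠ 0 := by exact_mod_cast h.hdet

theorem St.d240 (h : St i x y b) : |(det y : ℝ)| ≤ b ^ 240 :=
  h.hd.trans (pow_le_pow_right₀ h.b1 (Nat.sub_le _ _))

theorem St.pw (h : St i x y b) {m n : ℕ} (hmn : m ≤ n) : b ^ m ≤ b ^ n :=
  pow_le_pow_right₀ h.b1 hmn

theorem St.pp (h : St i x y b) (n : ℕ) : 0 < b ^ n := pow_pos h.b0 n

theorem St.dsq (h : St i x y b) : 0 < (det y : ℝ) ^ 2 := by
  have := h.dne
  positivity

theorem St.t0 (h : St i x y b) : 1 / 4 ≤ tt y := by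
  have h1 := h.ht1
  have h2 : 0 < 1 / b := one_div_pos.2 h.b0
  linarith

theorem St.t1 (h : St i x y b) : tt y ≤ 3 / 4 := by
  have h1 := h.ht2
  have h2 : 0 < 1 / b := one_div_pos.2 h.b0
  linarith

theorem St.i6 (h : St i x y b) (hd : b ^ 24 < |(det y : ℝ)|) : i < 6 := by
  by_contra hi
  have h1 : i = 6 := le_antisymm h.hi (by omega)
  have h2 := h.hd
  rw [h1] at h2
  norm_num at h2
  linarith

end st

/-! ### Linearity -/

/-- `-v` -/
def ng (v : V3) : V3 := ⟨-v.a, -v.b, -v.c⟩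

theorem ng_ne {v : V3} (h : v ≠ 0) : ng v ≠ 0 := by
  rw [WHP.ne_zero_iff] at *
  simpa [ng] using h

theorem det_ng (v : V3) : det (ng v) = det v := by
  simp only [det, ng]
  ring

theorem dot_ng (P v : V3) : dot P (ng v) = -dot P v := by
  simp only [dot, ng]
  ring

theorem cross_ng (v w : V3) : cross v (ng w) = ng (cross v w) := by
  ext <;> simp only [cross, ng] <;> ring

theorem cV_ng (y v : V3) : cV y (ng v) = -cV y v := by
  simp only [cV, ng]
  push_cast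
  ring

theorem cx_ng (y v : V3) : cx y (ng v) = -cx y v := by
  simp only [cx, be, ng]
  push_cast
  ring

theorem cc_ng (y v : V3) : cc y (ng v) = -cc y v := by
  simp only [cc, ga, ng]
  push_cast
  ring

theorem nu_ng (b : ℝ) (y v : V3) : nu b y (ng v) = nu b y v := by
  simp only [nu, cV_ng, cx_ng, cc_ng, abs_neg]

theorem cV_lin (y : V3) (i k : ℤ) (v w : V3) :
    cV y (lin i v k w) = i * cV y v + k * cV y w := by
  simp only [cV, lin]
  push_cast
  ring

theorem cx_lin (y : V3) (i k : ℤ) (v w : V3) :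
    cx y (lin i v k w) = i * cx y v + k * cx y w := by
  simp only [cx, WHP.be_lin]
  ring

theorem cc_lin (y : V3) (i k : ℤ) (v w : V3) :
    cc y (lin i v k w) = i * cc y v + k * cc y w := by
  simp only [cc, WHP.ga_lin]
  ring

/-! ### The norm -/

theorem nu_le_iff (b : ℝ) (y v : V3) (s : ℝ) : nu b y v ≤ s ↔
    |cV y v| * b ^ 3 ≤ s ∧ |cx y v| * b ^ 90 ≤ s ∧ |cc y v| / b ^ 481 ≤ s := by
  unfold nu
  rw [max_le_iff, max_le_iff]

theorem nu_V (b : ℝ) (y v : V3) : |cV y v| * b ^ 3 ≤ nu b y v := le_max_left _ _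

theorem nu_x (b : ℝ) (y v : V3) : |cx y v| * b ^ 90 ≤ nu b y v :=
  (le_max_left _ _).trans (le_max_right _ _)

theorem nu_c (b : ℝ) (y v : V3) : |cc y v| / b ^ 481 ≤ nu b y v :=
  (le_max_right _ _).trans (le_max_right _ _)

theorem nu_cases (b : ℝ) (y v : V3) : nu b y v = |cV y v| * b ^ 3 ∨
    nu b y v = |cx y v| * b ^ 90 ∨ nu b y v = |cc y v| / b ^ 481 := by
  unfold nu
  rcases max_choice (|cV y v| * b ^ 3) (max (|cx y v| * b ^ 90) (|cc y v| / b ^ 481)) with h | h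
  · exact Or.inl h
  · rcases max_choice (|cx y v| * b ^ 90) (|cc y v| / b ^ 481) with h' | h'
    · exact Or.inr (Or.inl (h.trans h'))
    · exact Or.inr (Or.inr (h.trans h'))

theorem nu_nonneg {b : ℝ} (hb : 0 < b) (y v : V3) : 0 ≤ nu b y v :=
  (by positivity : 0 ≤ |cV y v| * b ^ 3).trans (nu_V b y v)

theorem nu_lin_le {b : ℝ} (hb : 0 < b) (y : V3) (i k : ℤ) (v w : V3) :
    nu b y (lin i v k w) ≤ |(i : ℝ)| * nu b y v + |(k : ℝ)| * nu b y w := by
  have key : ∀ p q r s t : ℝ, 0 < r → |p| * r ≤ s → |q| * r ≤ t →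
      |(i : ℝ) * p + k * q| * r ≤ |(i : ℝ)| * s + |(k : ℝ)| * t := by
    intro p q r s t hr h1 h2
    have h3 : |(i : ℝ) * p + k * q| ≤ |(i : ℝ)| * |p| + |(k : ℝ)| * |q| := by
      refine (abs_add_le _ _).trans ?_
      rw [abs_mul, abs_mul]
    calc |(i : ℝ) * p + k * q| * r ≤ (|(i : ℝ)| * |p| + |(k : ℝ)| * |q|) * r :=
          mul_le_mul_of_nonneg_right h3 hr.le
      _ = |(i : ℝ)| * (|p| * r) + |(k : ℝ)| * (|q| * r) := by ring
      _ ≤ _ := add_le_add (mul_le_mul_of_nonneg_left h1 (abs_nonneg _))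
          (mul_le_mul_of_nonneg_left h2 (abs_nonneg _))
  rw [nu_le_iff, cV_lin, cx_lin, cc_lin]
  refine ⟨key _ _ _ _ _ (by positivity) (nu_V b y v) (nu_V b y w),
    key _ _ _ _ _ (by positivity) (nu_x b y v) (nu_x b y w), ?_⟩
  rw [div_eq_mul_inv]
  refine key _ _ _ _ _ (by positivity) ?_ ?_
  · rw [← div_eq_mul_inv]
    exact nu_c b y v
  · rw [← div_eq_mul_inv]
    exact nu_c b y w

section norm

variable {i : ℕ} {x y : V3} {b : ℝ}

/-- `a = V Y² / d²` -/
theorem a_eq (h : St i x y b) (v : V3) :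
    (v.a : ℝ) = cV y v * (y.a : ℝ) ^ 2 / (det y : ℝ) ^ 2 := by
  have h1 := h.dne
  have h2 := h.Ypos.ne'
  unfold cV
  field_simp

/-- `β = x / d` -/
theorem be_eq (h : St i x y b) (v : V3) : be (tt y) v = cx y v / |(det y : ℝ)| := by
  unfold cx
  rw [mul_div_cancel_right₀ _ h.d0.ne']

/-- `γ = c d² / Y²` -/
theorem ga_eq (h : St i x y b) (v : V3) :
    ga (tt y) v = cc y v * (det y : ℝ) ^ 2 / (y.a : ℝ) ^ 2 := by
  have h1 := h.dne
  have h2 := h.Ypos.ne'
  unfold cc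
  field_simp

/-- `det v = V c - x² / d²` -/
theorem det_norm (h : St i x y b) (v : V3) :
    (det v : ℝ) = cV y v * cc y v - cx y v ^ 2 / (det y : ℝ) ^ 2 := by
  have h1 := h.dne
  have h2 := h.Ypos.ne'
  rw [WHP.det_eq (tt y) v]
  unfold cV cc cx
  rw [mul_pow, sq_abs]
  field_simp

/-- the triple product -/
theorem triple (h : St i x y b) (u v w : V3) :
    cV y u * (cx y v * cc y w - cc y v * cx y w) + cx y u * (cc y v * cV y w - cV y v * cc y w) +
      cc y u * (cV y v * cx y w - cx y v * cV y w) =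
      |(det y : ℝ)| * (dot (cross v w) u : ℝ) := by
  have h1 := h.dne
  have h2 := h.Ypos.ne'
  unfold cV cc cx
  simp only [be, ga, dot, cross]
  push_cast
  field_simp
  ring

/-- in the plane of `v, w`, with `V = p x + q c` on `v` and `w` -/
theorem triple_pq (h : St i x y b) (u v w : V3) (p q : ℝ)
    (hv : cV y v = p * cx y v + q * cc y v) (hw : cV y w = p * cx y w + q * cc y w) :
    (cx y v * cc y w - cc y v * cx y w) * (cV y u - p * cx y u - q * cc y u) =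
      |(det y : ℝ)| * (dot (cross v w) u : ℝ) := by
  rw [← triple h u v w, hv, hw]
  ring

theorem nu_pos (h : St i x y b) {v : V3} (hv : v ≠ 0) : 0 < nu b y v := by
  rcases (nu_nonneg h.b0 y v).lt_or_eq with h1 | h1
  · exact h1
  · exfalso
    have h2 := (nu_le_iff b y v 0).1 h1.symm.le
    have hb := h.b0
    have e1 : |cV y v| ≤ 0 := by
      have := h2.1
      by_contra hc
      push Not at hc
      have : 0 < |cV y v| * b ^ 3 := by positivity
      linarith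
    have e2 : |cx y v| ≤ 0 := by
      have := h2.2.1
      by_contra hc
      push Not at hc
      have : 0 < |cx y v| * b ^ 90 := by positivity
      linarith
    have e3 : |cc y v| ≤ 0 := by
      have := h2.2.2
      by_contra hc
      push Not at hc
      have : 0 < |cc y v| / b ^ 481 := by positivity
      linarith
    have f1 : cV y v = 0 := abs_nonpos_iff.1 e1
    have f2 : cx y v = 0 := abs_nonpos_iff.1 e2
    have f3 : cc y v = 0 := abs_nonpos_iff.1 e3
    have g1 : (v.a : ℝ) = 0 := by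
      rw [a_eq h v, f1]
      simp
    have g2 : be (tt y) v = 0 := by
      rw [be_eq h v, f2]
      simp
    have g3 : ga (tt y) v = 0 := by
      rw [ga_eq h v, f3]
      simp
    apply hv
    have g4 : (v.b : ℝ) = 0 := by
      unfold be at g2
      rw [g1] at g2
      linarith
    have g5 : (v.c : ℝ) = 0 := by
      unfold ga at g3
      rw [g1, g4] at g3
      linarith
    ext
    · rw [WHP.zero_a]
      exact_mod_cast g1
    · rw [WHP.zero_b]
      exact_mod_cast g4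
    · rw [WHP.zero_c]
      exact_mod_cast g5

/-- a box in normalised coordinates -/
theorem boxN (h : St i x y b) {V X C : ℝ} (hX : 0 < X) (hX1 : X ≤ 1) (hC : 0 < C)
    (hC1 : C ≤ b ^ 740) (hV : 4 * |(det y : ℝ)| ≤ V * X * C) :
    ∃ z : V3, z ≠ 0 ∧ |cV y z| ≤ V ∧ |cx y z| ≤ X ∧ |cc y z| ≤ C := by
  have hb := h.b0
  have hd := h.d0
  have hd1 := h.d1
  have hY := h.Ypos
  have hsq : (det y : ℝ) ^ 2 = |(det y : ℝ)| ^ 2 := (sq_abs _).symm
  set d : ℝ := |(det y : ℝ)| with hdd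
  set Y : ℝ := (y.a : ℝ) with hYd
  have hd2 : d ^ 2 ≤ b ^ 480 := by
    calc d ^ 2 ≤ (b ^ 240) ^ 2 := pow_le_pow_left₀ hd.le h.d240 2
      _ = b ^ 480 := by rw [← pow_mul]
  have hbig : b ^ 1220 ≤ Y ^ 2 := by
    have e : Y ^ 2 = b ^ 2000000 := by rw [hYd, h.Yeq, ← pow_mul]
    rw [e]
    exact h.pw (by norm_num)
  have h1 : 4 ≤ (V * Y ^ 2 / d ^ 2) * (X / d) * (C * d ^ 2 / Y ^ 2) := by
    have e : (V * Y ^ 2 / d ^ 2) * (X / d) * (C * d ^ 2 / Y ^ 2) = V * X * C / d := by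
      field_simp
    rw [e, le_div_iff₀ hd]
    exact hV
  obtain ⟨z, hz, z1, z2, z3⟩ := WHP.box (tt y) (V * Y ^ 2 / d ^ 2) (X / d) (C * d ^ 2 / Y ^ 2)
    (by positivity) (by
      rw [div_le_one hd]
      exact hX1.trans hd1) (by positivity) (by
      rw [div_le_one (by positivity)]
      calc C * d ^ 2 ≤ b ^ 740 * b ^ 480 := mul_le_mul hC1 hd2 (by positivity) (by positivity)
        _ = b ^ 1220 := by rw [← pow_add]
        _ ≤ Y ^ 2 := hbig) h1
  refine ⟨z, hz, ?_, ?_, ?_⟩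
  · unfold cV
    rw [hsq, abs_div, abs_mul, abs_of_nonneg (by positivity : (0 : ℝ) ≤ d ^ 2),
      abs_of_nonneg (by positivity : (0 : ℝ) ≤ (y.a : ℝ) ^ 2), div_le_iff₀ (by positivity)]
    rw [le_div_iff₀ (by positivity)] at z1
    exact z1
  · unfold cx
    rw [abs_mul, abs_abs]
    rw [le_div_iff₀ hd] at z2
    exact z2
  · unfold cc
    rw [hsq, abs_div, abs_mul, abs_of_nonneg (by positivity : (0 : ℝ) ≤ d ^ 2),
      abs_of_nonneg (by positivity : (0 : ℝ) ≤ (y.a : ℝ) ^ 2), div_le_iff₀ (by positivity)]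
    rw [le_div_iff₀ (by positivity)] at z3
    exact z3

/-- `CLAIM1` in normalised coordinates -/
theorem claim1_norm (hC : Claim1) (h : St i x y b) {v : V3} (hv : v ≠ 0) (h1 : |cV y v| < 1)
    (h2 : |cx y v| ≤ 1 / b ^ 80) (h3 : |cc y v| ≤ b ^ 740) : det v ≠ 0 := by
  have hY := h.Ypos
  have hd := h.dsq
  refine hC i x y v b h hv ?_ ?_ ?_
  · unfold cV at h1
    rw [abs_div, abs_mul, abs_of_pos hd, abs_of_pos (by positivity : (0 : ℝ) < (y.a : ℝ) ^ 2),
      div_lt_one (by positivity)] at h1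
    exact h1
  · unfold cx at h2
    rw [abs_mul, abs_abs] at h2
    exact h2
  · unfold cc at h3
    rw [abs_div, abs_mul, abs_of_pos hd, abs_of_pos (by positivity : (0 : ℝ) < (y.a : ℝ) ^ 2),
      div_le_iff₀ hd] at h3
    exact h3

/-- candidates from normalised inequalities -/
theorem cand_of (h : St i x y b) {z : V3} (hV : 0 < cV y z) (hdet : det z ≠ 0)
    (hs : b ^ 2 * |cx y z| ^ 3 ≤ cV y z ^ 2) (hr : b ^ 2 * cV y z ≤ 1)
    (hc : |cc y z| ≤ b ^ 740) (hx : |cx y z| ≤ 1 / 2) : Cand y z b := by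
  have hY := h.Ypos
  have hd := h.d0
  have hd1 := h.d1
  have hsq : (det y : ℝ) ^ 2 = |(det y : ℝ)| ^ 2 := (sq_abs _).symm
  have ha := a_eq h z
  have hb := be_eq h z
  have hg := ga_eq h z
  rw [hsq] at ha hg
  refine ⟨?_, hdet, ?_, ?_, ?_, ?_⟩
  · have : (0 : ℝ) < z.a := by
      rw [ha]
      positivity
    exact_mod_cast this
  · rw [ha, hb, abs_div, abs_abs, div_pow]
    set d : ℝ := |(det y : ℝ)| with hdd
    have e1 : b ^ 2 * (y.a : ℝ) ^ 4 * (|cx y z| ^ 3 / d ^ 3) =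
        b ^ 2 * |cx y z| ^ 3 * ((y.a : ℝ) ^ 4 / d ^ 3) := by ring
    have e2 : d * (cV y z * (y.a : ℝ) ^ 2 / d ^ 2) ^ 2 =
        cV y z ^ 2 * ((y.a : ℝ) ^ 4 / d ^ 3) := by
      field_simp
    rw [e1, e2]
    exact mul_le_mul_of_nonneg_right hs (by positivity)
  · rw [ha, hsq]
    set d : ℝ := |(det y : ℝ)| with hdd
    have e : b ^ 2 * d ^ 2 * (cV y z * (y.a : ℝ) ^ 2 / d ^ 2) =
        b ^ 2 * cV y z * (y.a : ℝ) ^ 2 := by
      field_simp
    rw [e]
    calc b ^ 2 * cV y z * (y.a : ℝ) ^ 2 ≤ 1 * (y.a : ℝ) ^ 2 :=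
          mul_le_mul_of_nonneg_right hr (by positivity)
      _ = _ := one_mul _
  · rw [hg, hsq, abs_div, abs_mul, abs_of_nonneg (by positivity : (0 : ℝ) ≤ |(det y : ℝ)| ^ 2),
      abs_of_nonneg (by positivity : (0 : ℝ) ≤ (y.a : ℝ) ^ 2),
      div_mul_cancel₀ _ (by positivity)]
    exact mul_le_mul_of_nonneg_right hc (by positivity)
  · rw [hb, abs_div, abs_abs]
    exact (div_le_self (abs_nonneg _) hd1).trans hx

/-- normalised inequalities for a candidate -/
theorem Cand.norm (h : St i x y b) {z : V3} (hz : Cand y z b) : 0 < cV y z ∧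
    b ^ 2 * |cx y z| ^ 3 ≤ cV y z ^ 2 ∧ b ^ 2 * cV y z ≤ 1 ∧ |cc y z| ≤ b ^ 740 ∧
    b ^ 2 * |cx y z| ≤ 1 := by
  have hY := h.Ypos
  have hd := h.d0
  have hbp := h.b0
  have hsq : (det y : ℝ) ^ 2 = |(det y : ℝ)| ^ 2 := (sq_abs _).symm
  have hzp : (0 : ℝ) < z.a := by exact_mod_cast hz.hpos
  have h1 : 0 < cV y z := by
    unfold cV
    have := h.dsq
    positivity
  have ha := a_eq h z
  have hb := be_eq h z
  rw [hsq] at ha
  have h2 : b ^ 2 * |cx y z| ^ 3 ≤ cV y z ^ 2 := by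
    have hs := hz.hstar
    rw [ha, hb, abs_div, abs_abs, div_pow] at hs
    set d : ℝ := |(det y : ℝ)| with hdd
    have e1 : b ^ 2 * (y.a : ℝ) ^ 4 * (|cx y z| ^ 3 / d ^ 3) =
        b ^ 2 * |cx y z| ^ 3 * ((y.a : ℝ) ^ 4 / d ^ 3) := by ring
    have e2 : d * (cV y z * (y.a : ℝ) ^ 2 / d ^ 2) ^ 2 =
        cV y z ^ 2 * ((y.a : ℝ) ^ 4 / d ^ 3) := by
      field_simp
    rw [e1, e2] at hs
    exact le_of_mul_le_mul_right hs (by positivity)
  have h3 : b ^ 2 * cV y z ≤ 1 := by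
    have hr := hz.hrange
    rw [ha, hsq] at hr
    set d : ℝ := |(det y : ℝ)| with hdd
    have e : b ^ 2 * d ^ 2 * (cV y z * (y.a : ℝ) ^ 2 / d ^ 2) =
        b ^ 2 * cV y z * (y.a : ℝ) ^ 2 := by
      field_simp
    rw [e] at hr
    have : b ^ 2 * cV y z * (y.a : ℝ) ^ 2 ≤ 1 * (y.a : ℝ) ^ 2 := by rwa [one_mul]
    exact le_of_mul_le_mul_right this (by positivity)
  have h4 : |cc y z| ≤ b ^ 740 := by
    have hg := hz.hga
    unfold cc
    rw [abs_div, abs_mul, abs_of_pos h.dsq, abs_of_pos (by positivity : (0 : ℝ) < (y.a : ℝ) ^ 2),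
      div_le_iff₀ h.dsq]
    exact hg
  refine ⟨h1, h2, h3, h4, ?_⟩
  have h5 : (b ^ 2 * |cx y z|) ^ 3 ≤ 1 ^ 3 := by
    calc (b ^ 2 * |cx y z|) ^ 3 = b ^ 4 * (b ^ 2 * |cx y z| ^ 3) := by ring
      _ ≤ b ^ 4 * cV y z ^ 2 := mul_le_mul_of_nonneg_left h2 (by positivity)
      _ = (b ^ 2 * cV y z) ^ 2 := by ring
      _ ≤ 1 ^ 2 := pow_le_pow_left₀ (by positivity) h3 2
      _ = 1 ^ 3 := by norm_num
  exact le_of_pow_le_pow_left₀ (by norm_num) zero_le_one h5

/-- `V ≥ b^{-741}` for a child -/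
theorem Ch.V741 (h : St i x y b) {z : V3} {bz : ℝ} (hc : Ch y z b bz) :
    1 ≤ b ^ 741 * cV y z := by
  have hY := h.Ypos
  have h1 := hc.h1
  unfold cV
  rw [← mul_div_assoc, le_div_iff₀ (by positivity), one_mul]
  calc (y.a : ℝ) ^ 2 ≤ b ^ 741 * (det y : ℝ) ^ 2 * z.a := h1
    _ = _ := by ring

end norm

/-! ### Heights and values -/

theorem sm_iff (P : V3) (R : ℝ) : Sm P R ↔ hh P ≤ R := by
  unfold Sm hh
  rw [max_le_iff, max_le_iff]

theorem ha_le (P : V3) : |(P.a : ℝ)| ≤ hh P := le_max_left _ _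

theorem hb_le (P : V3) : |(P.b : ℝ)| ≤ hh P := (le_max_left _ _).trans (le_max_right _ _)

theorem hc_le (P : V3) : |(P.c : ℝ)| ≤ hh P := (le_max_right _ _).trans (le_max_right _ _)

theorem hh_nonneg (P : V3) : 0 ≤ hh P := (abs_nonneg _).trans (ha_le P)

theorem one_le_hh {P : V3} (h : P ≠ 0) : 1 ≤ hh P := by
  rw [WHP.ne_zero_iff] at h
  have key : ∀ n : ℤ, n ≠ 0 → (1 : ℝ) ≤ |(n : ℝ)| := by
    intro n hn
    have h1 : (1 : ℤ) ≤ |n| := Int.one_le_abs hn
    exact_mod_cast h1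
  by_cases ha : P.a = 0
  · by_cases hb : P.b = 0
    · have hc : P.c ≠ 0 := fun hc => h ⟨ha, hb, hc⟩
      exact (key _ hc).trans (hc_le P)
    · exact (key _ hb).trans (hb_le P)
  · exact (key _ ha).trans (ha_le P)

/-- Taylor expansion of `P` -/
theorem ev_taylor (P : V3) (s t : ℝ) :
    ev P s = ev P t + der P t * (s - t) + P.c * (s - t) ^ 2 := by
  simp only [ev, der]
  ring

theorem der_taylor (P : V3) (s t : ℝ) : der P s = der P t + 2 * P.c * (s - t) := by
  simp only [der]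
  ring

/-- `P(t_y) = -p₂ D / Y²` for `P · y = 0` -/
theorem ev_tt {y P : V3} (hY : (y.a : ℝ) ≠ 0) (h : dot P y = 0) :
    ev P (tt y) = -(P.c * (det y : ℝ) / (y.a : ℝ) ^ 2) := by
  have h1 := WHP.dot_eq (tt y) P y
  rw [h, WHP.be_self hY, WHP.ga_self hY] at h1
  push_cast at h1
  have h2 : ev P (tt y) * y.a + P.c * ((det y : ℝ) / y.a) = 0 := by
    simp only [ev]
    linarith
  field_simp
  field_simp at h2
  linarith

/-- a polynomial is controlled by its derivative, third coefficient and value at `t ∈ [0,1]` -/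
theorem hh_le_of (P : V3) (t : ℝ) (ht0 : 0 ≤ t) (ht1 : t ≤ 1) :
    hh P ≤ |ev P t| + |der P t| + 3 * |(P.c : ℝ)| := by
  have e1 : (P.b : ℝ) = der P t - 2 * P.c * t := by
    simp only [der]
    ring
  have e2 : (P.a : ℝ) = ev P t - der P t * t + P.c * t ^ 2 := by
    simp only [ev, der]
    ring
  have hc := abs_nonneg (P.c : ℝ)
  have hd := abs_nonneg (der P t)
  have he := abs_nonneg (ev P t)
  have ht2 : t ^ 2 ≤ 1 := by nlinarith
  unfold hh
  refine max_le ?_ (max_le ?_ ?_)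
  · rw [e2]
    refine (abs_add_le _ _).trans ?_
    have h1 : |ev P t - der P t * t| ≤ |ev P t| + |der P t| := by
      refine (abs_sub _ _).trans ?_
      rw [abs_mul, abs_of_nonneg ht0]
      nlinarith
    have h2 : |(P.c : ℝ) * t ^ 2| ≤ |(P.c : ℝ)| := by
      rw [abs_mul, abs_of_nonneg (by positivity : (0 : ℝ) ≤ t ^ 2)]
      nlinarith
    linarith
  · rw [e1]
    refine (abs_sub _ _).trans ?_
    have h2 : |2 * (P.c : ℝ) * t| ≤ 2 * |(P.c : ℝ)| := by
      rw [abs_mul, abs_mul, abs_of_nonneg ht0, abs_two]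
      nlinarith
    linarith
  · linarith

end WHS
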