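import Pool.Agent.WHS.Stmts

/-!
# SRV1: small `H`
-/

namespace WHS

open WHP (V3 det be ga dot cross lin tt Sm NN B0)

namespace SRV1

/-- coefficients are at most the height -/
theorem abs_le_hh (P : V3) : |(P.a : ℝ)| ≤ hh P ∧ |(P.b : ℝ)| ≤ hh P ∧ |(P.c : ℝ)| ≤ hh P := by
  unfold hh
  refine ⟨le_max_left _ _, ?_, ?_⟩
  · exact (le_max_left _ _).trans (le_max_right _ _)
  · exact (le_max_right _ _).trans (le_max_right _ _)

/-- a nonzero vector has height at least one -/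
theorem one_le_hh {P : V3} (hP : P ≠ 0) : 1 ≤ hh P := by
  obtain ⟨h1, h2, h3⟩ := abs_le_hh P
  by_contra hlt
  rw [not_le] at hlt
  have key : ∀ n : ℤ, |(n : ℝ)| ≤ hh P → n = 0 := by
    intro n hn
    have h4 : |(n : ℝ)| < 1 := lt_of_le_of_lt hn hlt
    have h5 : |n| < 1 := by exact_mod_cast h4
    exact Int.abs_lt_one_iff.1 h5
  exact hP (V3.ext (key _ h1) (key _ h2) (key _ h3))

/-- value at `tt y` of a polynomial orthogonal to `y` -/
theorem ev_tt {P y : V3} (hY : (y.a : ℝ) ≠ 0) (h : dot P y = 0) :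
    ev P (tt y) * (y.a : ℝ) ^ 2 = -((P.c : ℝ) * det y) := by
  have h1 : (P.a : ℝ) * y.a + P.b * y.b + P.c * y.c = 0 := by
    have : ((dot P y : ℤ) : ℝ) = 0 := by rw [h]; simp
    rw [← this]
    simp only [dot]
    push_cast
    ring
  have h2 : ev P (tt y) * (y.a : ℝ) ^ 2
      = y.a * (P.a * y.a + P.b * y.b + P.c * y.c) - P.c * (y.a * y.c - y.b ^ 2) := by
    simp only [ev, tt]
    field_simp
    ring
  rw [h2, h1]
  simp only [det]
  push_cast
  ring

/-- Taylor -/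
theorem ev_taylor (P : V3) (t ξ : ℝ) :
    ev P ξ = ev P t + der P t * (ξ - t) + P.c * (ξ - t) ^ 2 := by
  simp only [ev, der]
  ring

theorem der_taylor (P : V3) (t ξ : ℝ) : der P ξ = der P t + 2 * P.c * (ξ - t) := by
  simp only [der]
  ring

end SRV1

open SRV1

theorem SRV1_thm (hD : Dist) : Srv1 := by
  intro i j x y z b bz ξ H hSy hF hSz hC hξ hH1 hH2
  obtain ⟨-, -, -, -, hdist⟩ := hD i j x y z b bz hSy hSz hC
  obtain ⟨h1, -⟩ := hdist ξ hξ
  -- basic facts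
  have hb : (1000000 : ℝ) ≤ b := hSy.hb0
  have hb1 : (1 : ℝ) ≤ b := by linarith
  have hb0 : (0 : ℝ) < b := by linarith
  have hpow1 : ∀ n : ℕ, (1 : ℝ) ≤ b ^ n := fun n => one_le_pow₀ hb1
  have hY0 : (0 : ℝ) < y.a := by exact_mod_cast hC.h0
  have hYb : (y.a : ℝ) ^ 2 = b ^ 2000000 := by
    have hNN : NN * 2 = 2000000 := by norm_num [NN]
    rw [← hSy.hby, ← pow_mul, hNN]
  have ht1 : 0 ≤ tt y := by
    have h := hSy.ht1
    have : 0 < 1 / b := by positivity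
    linarith
  have ht2 : tt y ≤ 3 / 4 := by
    have h := hSy.ht2
    have : 0 < 1 / b := by positivity
    linarith
  obtain ⟨d, hd⟩ : ∃ d : ℝ, d = |(det y : ℝ)| := ⟨_, rfl⟩
  have hd1 : 1 ≤ d := by
    rw [hd]
    have h2 : 1 ≤ |det y| := Int.one_le_abs hSy.hdet
    exact_mod_cast h2
  have hd240 : d ≤ b ^ 240 := by
    rw [hd]
    exact hSy.hd.trans (pow_le_pow_right₀ hb1 (Nat.sub_le _ _))
  have hdsq : (det y : ℝ) ^ 2 = d ^ 2 := by rw [hd, sq_abs]
  rw [← hd] at h1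
  -- the size of `V`
  obtain ⟨V, hV⟩ : ∃ V : ℝ, V = cV y z := ⟨_, rfl⟩
  have hVY : V * (y.a : ℝ) ^ 2 = z.a * d ^ 2 := by
    rw [hV, cV, hdsq]
    field_simp
  have hV1 : 1 ≤ V * b ^ 741 := by
    have h2 := hC.h1
    rw [hdsq] at h2
    have h3 : (y.a : ℝ) ^ 2 * 1 ≤ (y.a : ℝ) ^ 2 * (V * b ^ 741) := by
      calc (y.a : ℝ) ^ 2 * 1 = (y.a : ℝ) ^ 2 := mul_one _
        _ ≤ b ^ 741 * d ^ 2 * z.a := h2
        _ = b ^ 741 * (V * (y.a : ℝ) ^ 2) := by rw [hVY]; ring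
        _ = _ := by ring
    exact le_of_mul_le_mul_left h3 (by positivity)
  have hV0 : 0 < V := by
    by_contra hneg
    rw [not_lt] at hneg
    have : V * b ^ 741 ≤ 0 := mul_nonpos_of_nonpos_of_nonneg hneg (by positivity)
    linarith
  have hVle : V ≤ 1 := by
    have h2 := hC.cand.hrange
    rw [hdsq] at h2
    have h3 : (y.a : ℝ) ^ 2 * V ≤ (y.a : ℝ) ^ 2 * 1 := by
      calc (y.a : ℝ) ^ 2 * V = 1 * (d ^ 2 * z.a) := by linarith
        _ ≤ b ^ 2 * (d ^ 2 * z.a) := by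
            apply mul_le_mul_of_nonneg_right (hpow1 2)
            rw [mul_comm, ← hVY]
            positivity
        _ = b ^ 2 * d ^ 2 * z.a := by ring
        _ ≤ (y.a : ℝ) ^ 2 * 1 := by rw [mul_one]; exact h2
    exact le_of_mul_le_mul_left h3 (by positivity)
  have hcx : |cx y z| ≤ d / 2 := by
    rw [cx, ← hd, abs_mul, abs_of_nonneg (by linarith : (0 : ℝ) ≤ d)]
    have := hC.cand.hbe
    nlinarith
  rw [← hV] at h1
  -- the distance
  obtain ⟨e, he⟩ : ∃ e : ℝ, e = |ξ - tt y| := ⟨_, rfl⟩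
  have he0 : 0 ≤ e := by rw [he]; exact abs_nonneg _
  rw [← he] at h1
  have hE1 : e * (y.a : ℝ) ^ 2 ≤ b ^ 1221 := by
    have h2 : e * (y.a : ℝ) ^ 2 * V ≤ d * d := by
      refine h1.trans ?_
      apply mul_le_mul_of_nonneg_left _ (by linarith)
      linarith
    calc e * (y.a : ℝ) ^ 2 = (e * (y.a : ℝ) ^ 2) * 1 := (mul_one _).symm
      _ ≤ (e * (y.a : ℝ) ^ 2) * (V * b ^ 741) := by gcongr
      _ = (e * (y.a : ℝ) ^ 2 * V) * b ^ 741 := by ring
      _ ≤ (d * d) * b ^ 741 := by gcongr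
      _ ≤ (b ^ 240 * b ^ 240) * b ^ 741 := by gcongr
      _ = b ^ 1221 := by rw [← pow_add, ← pow_add]
  have he1 : e ≤ 1 := by
    have h2 : (y.a : ℝ) ^ 2 * e ≤ (y.a : ℝ) ^ 2 * 1 := by
      rw [mul_comm, mul_one, hYb]
      rw [hYb] at hE1
      exact hE1.trans (pow_le_pow_right₀ hb1 (by norm_num))
    exact le_of_mul_le_mul_left h2 (by positivity)
  -- the polynomial
  obtain ⟨P, hP⟩ : ∃ P : V3, P = cross x y := ⟨_, rfl⟩
  have hP0 : P ≠ 0 := by rw [hP]; exact hSy.hxy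
  have hPy : dot P y = 0 := by rw [hP]; exact WHP.dot_cross_right x y
  have hPx : dot P x = 0 := by rw [hP]; exact WHP.dot_cross_left x y
  obtain ⟨R, hR⟩ : ∃ R : ℝ, R = hh P := ⟨_, rfl⟩
  have hR1 : 1 ≤ R := by rw [hR]; exact one_le_hh hP0
  obtain ⟨hRa, hRb, hRc⟩ := abs_le_hh P
  rw [← hR] at hRa hRb hRc
  have hR5 : R ≤ b ^ 500000 := by
    rw [hR, hP]
    obtain ⟨g1, g2, g3⟩ := hF.h6
    exact max_le g1 (max_le g2 g3)
  have hc := hF.h5 P hPy hPx
  obtain ⟨D, hDd⟩ : ∃ D : ℝ, D = |der P (tt y)| := ⟨_, rfl⟩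
  rw [← hDd] at hc
  have hD0 : 0 ≤ D := by rw [hDd]; exact abs_nonneg _
  -- the value at `tt y`
  have hevt : |ev P (tt y)| * (y.a : ℝ) ^ 2 = |(P.c : ℝ)| * d := by
    have h2 := ev_tt hY0.ne' hPy
    have h3 : |ev P (tt y) * (y.a : ℝ) ^ 2| = |(P.c : ℝ)| * d := by
      rw [h2, abs_neg, abs_mul, hd]
    rw [← h3, abs_mul, abs_of_nonneg (by positivity : (0 : ℝ) ≤ (y.a : ℝ) ^ 2)]
  have hDle : D ≤ 3 * R := by
    rw [hDd, der]
    have h2 : |(P.b : ℝ) + 2 * P.c * tt y| ≤ |(P.b : ℝ)| + |2 * (P.c : ℝ) * tt y| :=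
      abs_add_le _ _
    have h3 : |2 * (P.c : ℝ) * tt y| = 2 * |(P.c : ℝ)| * tt y := by
      rw [abs_mul, abs_mul, abs_of_nonneg ht1]
      norm_num
    have h4 : 2 * |(P.c : ℝ)| * tt y ≤ 2 * R := by
      have : |(P.c : ℝ)| * tt y ≤ R * 1 := by
        apply mul_le_mul hRc (by linarith) ht1 (by linarith)
      linarith
    linarith
  have hevξ : |ev P ξ| * (y.a : ℝ) ^ 2 ≤ R * b ^ 1222 := by
    rw [ev_taylor P (tt y) ξ]
    have h2 : |ev P (tt y) + der P (tt y) * (ξ - tt y) + P.c * (ξ - tt y) ^ 2| ≤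
        |ev P (tt y)| + D * e + |(P.c : ℝ)| * e ^ 2 := by
      refine (abs_add_le _ _).trans ?_
      have h3 := abs_add_le (ev P (tt y)) (der P (tt y) * (ξ - tt y))
      rw [abs_mul, ← hDd, ← he] at h3
      have h4 : |(P.c : ℝ) * (ξ - tt y) ^ 2| = |(P.c : ℝ)| * e ^ 2 := by
        rw [abs_mul, abs_pow, ← he]
      rw [h4]
      linarith
    have h5 : e ^ 2 * (y.a : ℝ) ^ 2 ≤ b ^ 1221 := by
      calc e ^ 2 * (y.a : ℝ) ^ 2 = e * (e * (y.a : ℝ) ^ 2) := by ring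
        _ ≤ 1 * b ^ 1221 := by gcongr
        _ = _ := one_mul _
    have h6 : b ^ 240 ≤ b ^ 1221 := pow_le_pow_right₀ hb1 (by norm_num)
    have h7 : b ^ 1222 = b ^ 1221 * b := by rw [← pow_succ]
    calc |ev P (tt y) + der P (tt y) * (ξ - tt y) + P.c * (ξ - tt y) ^ 2| * (y.a : ℝ) ^ 2 ≤
          (|ev P (tt y)| + D * e + |(P.c : ℝ)| * e ^ 2) * (y.a : ℝ) ^ 2 := by gcongr
      _ = |ev P (tt y)| * (y.a : ℝ) ^ 2 + D * (e * (y.a : ℝ) ^ 2)
            + |(P.c : ℝ)| * (e ^ 2 * (y.a : ℝ) ^ 2) := by ring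
      _ ≤ R * b ^ 1221 + (3 * R) * b ^ 1221 + R * b ^ 1221 := by
          rw [hevt]
          have h8 : |(P.c : ℝ)| * d ≤ R * b ^ 1221 := by
            apply mul_le_mul hRc (hd240.trans h6) (by linarith) (by linarith)
          gcongr
      _ = 5 * (R * b ^ 1221) := by ring
      _ ≤ b * (R * b ^ 1221) := by
          apply mul_le_mul_of_nonneg_right (by linarith)
          positivity
      _ = R * b ^ 1222 := by rw [h7]; ring
  -- lower bound for the derivative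
  have hRD : R ≤ 4 * (b ^ 400 * D) := by
    have h2 : |(P.b : ℝ)| ≤ D + 3 / 2 * |(P.c : ℝ)| := by
      have h3 : (P.b : ℝ) = der P (tt y) - 2 * P.c * tt y := by simp only [der]; ring
      rw [h3, hDd]
      refine (abs_sub _ _).trans ?_
      have h4 : |2 * (P.c : ℝ) * tt y| = 2 * |(P.c : ℝ)| * tt y := by
        rw [abs_mul, abs_mul, abs_of_nonneg ht1]
        norm_num
      rw [h4]
      have h5 : |(P.c : ℝ)| * tt y ≤ |(P.c : ℝ)| * (3 / 4) := by gcongr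
      linarith
    have hev : |ev P (tt y)| ≤ |(P.c : ℝ)| := by
      have h3 : (y.a : ℝ) ^ 2 * |ev P (tt y)| ≤ (y.a : ℝ) ^ 2 * |(P.c : ℝ)| := by
        rw [mul_comm, hevt, mul_comm]
        apply mul_le_mul_of_nonneg_right _ (abs_nonneg _)
        rw [hYb]
        exact hd240.trans (pow_le_pow_right₀ hb1 (by norm_num))
      exact le_of_mul_le_mul_left h3 (by positivity)
    have h3 : |(P.a : ℝ)| ≤ |(P.c : ℝ)| + 3 / 4 * |(P.b : ℝ)| + 9 / 16 * |(P.c : ℝ)| := by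
      have h4 : (P.a : ℝ) = ev P (tt y) - P.b * tt y - P.c * tt y ^ 2 := by simp only [ev]; ring
      have h5 : |(P.a : ℝ)| ≤ |ev P (tt y)| + |(P.b : ℝ) * tt y| + |(P.c : ℝ) * tt y ^ 2| := by
        rw [h4]
        refine (abs_sub _ _).trans ?_
        have := abs_sub (ev P (tt y)) ((P.b : ℝ) * tt y)
        linarith
      have e1 : |(P.b : ℝ) * tt y| = |(P.b : ℝ)| * tt y := by rw [abs_mul, abs_of_nonneg ht1]
      have e2 : |(P.c : ℝ) * tt y ^ 2| = |(P.c : ℝ)| * tt y ^ 2 := by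
        rw [abs_mul, abs_of_nonneg (sq_nonneg (tt y))]
      rw [e1, e2] at h5
      have h6 : |(P.b : ℝ)| * tt y ≤ |(P.b : ℝ)| * (3 / 4) := by gcongr
      have h7 : |(P.c : ℝ)| * tt y ^ 2 ≤ |(P.c : ℝ)| * (3 / 4) ^ 2 := by gcongr
      linarith
    have h4 : D ≤ b ^ 400 * D := by
      calc D = 1 * D := (one_mul _).symm
        _ ≤ b ^ 400 * D := by gcongr; exact hpow1 400
    have h0 : 0 ≤ |(P.c : ℝ)| := abs_nonneg _
    rw [hR]
    unfold hh
    refine max_le ?_ (max_le ?_ ?_)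
    · linarith
    · linarith
    · linarith
  have hdert : R ≤ |der P ξ| * b ^ 401 := by
    have h2 : D - 2 * (R * e) ≤ |der P ξ| := by
      rw [der_taylor P (tt y) ξ]
      have h3 : D ≤ |der P (tt y) + 2 * P.c * (ξ - tt y)| + |2 * (P.c : ℝ) * (ξ - tt y)| := by
        rw [hDd]
        have h4 : der P (tt y) = (der P (tt y) + 2 * P.c * (ξ - tt y))
            - 2 * (P.c : ℝ) * (ξ - tt y) := by ring
        calc |der P (tt y)| = |(der P (tt y) + 2 * P.c * (ξ - tt y))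
            - 2 * (P.c : ℝ) * (ξ - tt y)| := by rw [← h4]
          _ ≤ _ := abs_sub _ _
      have h4 : |2 * (P.c : ℝ) * (ξ - tt y)| ≤ 2 * (R * e) := by
        rw [abs_mul, abs_mul, ← he]
        have : |(P.c : ℝ)| * e ≤ R * e := by gcongr
        norm_num
        linarith
      linarith
    have h3 : R * e * b ^ 401 ≤ R := by
      have h4 : (y.a : ℝ) ^ 2 * (e * b ^ 401) ≤ (y.a : ℝ) ^ 2 * 1 := by
        calc (y.a : ℝ) ^ 2 * (e * b ^ 401) = (e * (y.a : ℝ) ^ 2) * b ^ 401 := by ring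
          _ ≤ b ^ 1221 * b ^ 401 := by gcongr
          _ = b ^ 1622 := by rw [← pow_add]
          _ ≤ b ^ 2000000 := pow_le_pow_right₀ hb1 (by norm_num)
          _ = (y.a : ℝ) ^ 2 * 1 := by rw [mul_one, hYb]
      have h5 : e * b ^ 401 ≤ 1 := le_of_mul_le_mul_left h4 (by positivity)
      calc R * e * b ^ 401 = R * (e * b ^ 401) := by ring
        _ ≤ R * 1 := by gcongr
        _ = R := mul_one R
    have h4 : b * R ≤ 4 * (D * b ^ 401) := by
      calc b * R ≤ b * (4 * (b ^ 400 * D)) := by gcongr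
        _ = 4 * (D * (b ^ 400 * b)) := by ring
        _ = 4 * (D * b ^ 401) := by rw [← pow_succ]
    have h5 : 100 * R ≤ b * R := by gcongr; linarith
    have h6 : (D - 2 * (R * e)) * b ^ 401 ≤ |der P ξ| * b ^ 401 := by gcongr
    have h7 : (D - 2 * (R * e)) * b ^ 401 = D * b ^ 401 - 2 * (R * e * b ^ 401) := by ring
    rw [h7] at h6
    linarith
  have hderpos : 0 < |der P ξ| := by
    by_contra hneg
    rw [not_lt] at hneg
    have h2 : |der P ξ| * b ^ 401 ≤ 0 := mul_nonpos_of_nonpos_of_nonneg hneg (by positivity)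
    linarith
  refine ⟨P, hP0, by rw [hP]; exact hH1, abs_pos.1 hderpos, ?_, ?_⟩
  · -- the discriminant
    have h2 : (8 * |(P.c : ℝ)| * |ev P ξ|) * (y.a : ℝ) ^ 2 ≤ der P ξ ^ 2 * (y.a : ℝ) ^ 2 := by
      calc (8 * |(P.c : ℝ)| * |ev P ξ|) * (y.a : ℝ) ^ 2
          = 8 * (|(P.c : ℝ)| * (|ev P ξ| * (y.a : ℝ) ^ 2)) := by ring
        _ ≤ 8 * (R * (R * b ^ 1222)) := by gcongr
        _ = 8 * (R * R) * b ^ 1222 := by ring
        _ ≤ 8 * ((|der P ξ| * b ^ 401) * (|der P ξ| * b ^ 401)) * b ^ 1222 := by gcongr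
        _ = 8 * (|der P ξ| ^ 2 * (b ^ 401 * b ^ 401 * b ^ 1222)) := by ring
        _ = 8 * (der P ξ ^ 2 * b ^ 2024) := by rw [sq_abs, ← pow_add, ← pow_add]
        _ ≤ b * (der P ξ ^ 2 * b ^ 2024) := by
            apply mul_le_mul_of_nonneg_right (by linarith)
            positivity
        _ = der P ξ ^ 2 * b ^ 2025 := by rw [pow_succ b 2024]; ring
        _ ≤ der P ξ ^ 2 * b ^ 2000000 := by
            apply mul_le_mul_of_nonneg_left _ (sq_nonneg _)
            exact pow_le_pow_right₀ hb1 (by norm_num)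
        _ = _ := by rw [hYb]
    exact le_of_mul_le_mul_right h2 (by positivity)
  · -- the main inequality
    rw [← hR]
    have hH0 : 0 ≤ H := by
      rw [← hP, ← hR] at hH1
      linarith
    obtain ⟨A, hA⟩ : ∃ A : ℝ, A = |ev P ξ| * R * H ^ 2 := ⟨_, rfl⟩
    have hA0 : 0 ≤ A := by
      rw [hA]
      positivity
    rw [← hA]
    have h2 : A * b ^ 198376 ≤ |der P ξ| := by
      have h3 : (A * b ^ 198376) * (y.a : ℝ) ^ 2 ≤ |der P ξ| * (y.a : ℝ) ^ 2 := by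
        calc (A * b ^ 198376) * (y.a : ℝ) ^ 2
            = (|ev P ξ| * (y.a : ℝ) ^ 2) * R * H ^ 2 * b ^ 198376 := by rw [hA]; ring
          _ ≤ (R * b ^ 1222) * b ^ 500000 * (b ^ 650000) ^ 2 * b ^ 198376 := by gcongr
          _ ≤ ((|der P ξ| * b ^ 401) * b ^ 1222) * b ^ 500000 * (b ^ 650000) ^ 2
                * b ^ 198376 := by gcongr
          _ = |der P ξ| * (b ^ 401 * b ^ 1222 * b ^ 500000 * b ^ 1300000 * b ^ 198376) := by
              rw [← pow_mul]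
              ring
          _ = |der P ξ| * b ^ 1999999 := by
              rw [← pow_add, ← pow_add, ← pow_add, ← pow_add]
          _ ≤ |der P ξ| * b ^ 2000000 := by
              apply mul_le_mul_of_nonneg_left _ (abs_nonneg _)
              exact pow_le_pow_right₀ hb1 (by norm_num)
          _ = _ := by rw [hYb]
      exact le_of_mul_le_mul_right h3 (by positivity)
    have h4 : H ≤ (b ^ 198376) ^ NN := by
      refine hH2.trans ?_
      calc b ^ 650000 ≤ b ^ (198376 * 4) := pow_le_pow_right₀ hb1 (by norm_num)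
        _ = (b ^ 198376) ^ 4 := by rw [pow_mul]
        _ ≤ (b ^ 198376) ^ NN := pow_le_pow_right₀ (hpow1 _) (by norm_num [NN])
    calc A ^ NN * H ≤ A ^ NN * (b ^ 198376) ^ NN :=
          mul_le_mul_of_nonneg_left h4 (pow_nonneg hA0 _)
      _ = (A * b ^ 198376) ^ NN := (mul_pow _ _ _).symm
      _ ≤ |der P ξ| ^ NN :=
          pow_le_pow_left₀ (mul_nonneg hA0 (pow_nonneg hb0.le _)) h2 _

end WHS
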